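import Pool.Agent.H33.VW.S

/-!
# The frame and the windows of the box of followers

`fbox_frm`: the frame `Frm` of the charts `chE`. `fbox_wds`: the windows and the slopes `WDs`.
-/

set_option autoImplicit false

namespace Pool.EN91

open Finset Real MvPolynomial
open Pool.Agent.H49.Ent Pool.Agent.H32.Dense
open Pool.STK hiding pr2
open Pool.KA Pool.KSAT Pool.K2S Pool.PB Pool.S6C
open Pool.GEN Pool.CHT Pool.CHX Pool.ISO Pool.LA91
open Pool.D2R Pool.V0F Pool.V0S Pool.VW33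
open Pool.T4C72 (WnT RadT)

variable {m k f : ℕ} {S : PCl m} {c : ℕ → Fin m} {sn sp : ℕ → ℝ → ℝ} {G : Set ℝ}
  {al be h b o w u Λ φ e : ℝ} {lam : ℝ → ℝ}

section

variable {N : ℕ} {C₀ Eb ηm : ℝ} {ow : ℕ → ℝ} {lv : ℕ → ℕ → ℝ} {fb fn : ℕ → ℕ} {nb n ks : ℕ}

/-- The windows before `w`. -/
theorem wnt_b (T : WnT k f sn G al b w u Λ φ N C₀ Eb ηm ow lv fb fn nb n ks) {t : ℕ}
    (ht : t ≤ nb) : b ≤ ow (fb t) ∧ ow (fb t) ≤ w := by
  have h1 : ∀ t ≤ nb, b ≤ ow (fb t) := by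
    intro t
    induction t with
    | zero => exact fun _ => T.ob.ge
    | succ t ih => exact fun ht => (ih (by omega)).trans (T.bs t (by omega)).1
  have h2 : ∀ d t, t + d = nb → ow (fb t) ≤ w := by
    intro d
    induction d with
    | zero =>
      intro t ht
      have e : t = nb := by omega
      rw [e, ← T.eq, T.ow0]
    | succ d ih => exact fun t ht => (T.bs t (by omega)).1.trans (ih (t + 1) (by omega))
  exact ⟨h1 t ht, h2 (nb - t) t (by omega)⟩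

/-- The windows after `w`. -/
theorem wnt_n (T : WnT k f sn G al b w u Λ φ N C₀ Eb ηm ow lv fb fn nb n ks) {t t' : ℕ}
    (htt : t ≤ t') (ht : t' ≤ n) : ow (fn t) ≤ ow (fn t') := by
  induction t', htt using Nat.le_induction with
  | base => exact le_rfl
  | succ t' ht' ih => exact (ih (by omega)).trans (T.ns t' (by omega)).1

theorem wnt_0 (T : WnT k f sn G al b w u Λ φ N C₀ Eb ηm ow lv fb fn nb n ks) {t : ℕ}
    (ht : t ≤ n) : w ≤ ow (fn t) ∧ ow (fn t) ≤ w + u + φ := by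
  have h1 := wnt_n T (Nat.zero_le t) ht
  have h2 := wnt_n T ht le_rfl
  rw [T.ow0] at h1
  have h3 := (abs_le.1 T.on).2
  exact ⟨h1, by linarith⟩

end

/-- The levels of the slope-one places. -/
theorem fbox_one (B : FBox S c k f sn sp G al be h b o w u Λ φ e lam) {v v' : ℝ} (hv : v ∈ G)
    (hv' : v' ∈ G) (h1 : b ≤ v) (h2 : v ≤ o) (h3 : b ≤ v') (h4 : v' ≤ o) {l : ℕ} (hl : l < k) :
    |(sn l v' - sn l v) - (v' - v)| ≤ 2 * φ := by
  have a1 := abs_le.1 (B.lad.fl l hl v hv h1 h2)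
  have a2 := abs_le.1 (B.lad.fl l hl v' hv' h3 h4)
  rw [abs_le]
  constructor <;> linarith [a1.1, a1.2, a2.1, a2.2]

/-- The levels of the followers. -/
theorem fbox_fol (B : FBox S c k f sn sp G al be h b o w u Λ φ e lam) {v v' : ℝ} (hv : v ∈ G)
    (hv' : v' ∈ G) (h1 : b ≤ v) (h2 : v ≤ o) (h3 : b ≤ v') (h4 : v' ≤ o) {l : ℕ} (hk : k ≤ l)
    (hl : l < k + f) : |(sn l v' - sn l v) - al * (v' - v)| ≤ 2 * φ := by
  have a1 := abs_le.1 (B.lin0 l hk hl v hv h1 h2)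
  have a2 := abs_le.1 (B.lin0 l hk hl v' hv' h3 h4)
  have e1 : al * (v' - v) = al * (v' - w) - al * (v - w) := by ring
  rw [abs_le, e1]
  constructor <;> linarith [a1.1, a1.2, a2.1, a2.2]

/-- The levels of the target. -/
theorem fbox_tar (B : FBox S c k f sn sp G al be h b o w u Λ φ e lam) {v v' : ℝ} (hv : v ∈ G)
    (hv' : v' ∈ G) (h1 : b ≤ v) (h2 : v ≤ o) (h3 : b ≤ v') (h4 : v' ≤ o) :
    |(sn (k + f) v' - sn (k + f) v) - be * (v' - v)| ≤ 2 * φ := by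
  have a1 := abs_le.1 (B.lin1 v hv h1 h2)
  have a2 := abs_le.1 (B.lin1 v' hv' h3 h4)
  have e1 : be * (v' - v) = be * (v' - w) - be * (v - w) := by ring
  rw [abs_le, e1]
  constructor <;> linarith [a1.1, a1.2, a2.1, a2.2]

section

variable {Dr N M J nb n ks : ℕ} {C₀ a Eb ηm : ℝ} {ow η σ : ℕ → ℝ} {lv bb : ℕ → ℕ → ℝ}
  {fb fn : ℕ → ℕ} {F : Fam m J} {A : F.Ω → Prop} {κ : ℝ} {z : ℕ → ℕ → ℕ} {g₀ : ℕ → ℕ → ℕ}
  {Gc : ℕ → PtT F → ℕ → MvPolynomial (Option (Fin m)) ℝ}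
  {H : ℕ → LnT F → ℕ → MvPolynomial (Option (Fin m)) ℝ}

/-- **The windows and the slopes.** -/
theorem fbox_wds (B : FBox S c k f sn sp G al be h b o w u Λ φ e lam) (hΛ : 2 ≤ Λ) (hφu : φ ≤ u)
    (T : WnT k f sn G al b w u Λ φ N C₀ Eb ηm ow lv fb fn nb n ks)
    (R : RadT nb n M J u ow fb fn z) {Y : ℕ} (hn : (n : ℝ) ≤ 2 ^ Y)
    (hY : (be + 4) * (φ * J) ≤ Y) :
    ∃ jj : ℕ → ℕ, WDs ow lv z J N M fn jj n k (k + f) Y al be := by
  classical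
  have hJ : (0 : ℝ) ≤ J := Nat.cast_nonneg J
  have hφ := B.lad.φ0
  have hu := B.u0
  have hal := B.al1
  have hab := B.alb
  have hφJ : 0 ≤ φ * J := by positivity
  have hbe : 0 ≤ be * (φ * J) := mul_nonneg (by linarith) hφJ
  have e0 : (be + 4) * (φ * J) = be * (φ * J) + 4 * (φ * J) := by ring
  rw [e0] at hY
  have hΛu : 2 * u ≤ Λ * u := mul_le_mul_of_nonneg_right hΛ hu.le
  have hob : ∀ t ≤ n, b ≤ ow (fn t) ∧ ow (fn t) ≤ o := fun t ht => by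
    obtain ⟨h1, h2⟩ := wnt_0 T ht
    have h3 := B.bw
    have h4 := B.wo
    constructor <;> linarith
  have hlv : ∀ t ≤ n, ∀ l ≤ k + f, lv (fn t) l = sn l (ow (fn t)) := fun t ht l hl =>
    T.lv _ (T.fnN t ht) l hl
  -- the radii
  obtain ⟨jj, hjj⟩ : ∃ jj : ℕ → ℕ, ∀ t < n, jj t ≤ M ∧ z (fn t) (jj t) =
      ⌊ow (fn (t + 1)) * J⌋₊ - ⌊ow (fn t) * J⌋₊ := by
    have h1 : ∀ t : ℕ, ∃ j : ℕ, t < n → j ≤ M ∧ z (fn t) j =
        ⌊ow (fn (t + 1)) * J⌋₊ - ⌊ow (fn t) * J⌋₊ := by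
      intro t
      by_cases ht : t < n
      · obtain ⟨j, h2, h3⟩ := R.2.1 t ht
        exact ⟨j, fun _ => ⟨h2, h3⟩⟩
      · exact ⟨0, fun h => absurd h ht⟩
    choose jj hjj using h1
    exact ⟨jj, hjj⟩
  -- the slopes of all places
  have hsl : ∀ t ≤ n, ∀ t' ≤ n, t ≤ t' → ∀ l ≤ k + f, ∃ s : ℝ, 1 ≤ s ∧ s ≤ be ∧
      (l < k + f → s ≤ al) ∧ (k ≤ l → al ≤ s) ∧ (l = k + f → s = be) ∧ (l < k → s = 1) ∧
      |(lv (fn t') l - lv (fn t) l) - s * (ow (fn t') - ow (fn t))| ≤ 2 * φ := by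
    intro t ht t' ht' htt l hl
    rw [hlv t ht l hl, hlv t' ht' l hl]
    obtain ⟨a1, a2⟩ := hob t ht
    obtain ⟨a3, a4⟩ := hob t' ht'
    rcases Nat.lt_or_ge l k with h1 | h1
    · refine ⟨1, le_rfl, hal.trans hab, fun _ => hal, fun h2 => absurd h2 (by omega),
        fun h2 => absurd h2 (by omega), fun _ => rfl, ?_⟩
      rw [one_mul]
      exact fbox_one B (T.nG t ht) (T.nG t' ht') a1 a2 a3 a4 h1
    · rcases Nat.lt_or_ge l (k + f) with h2 | h2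
      · exact ⟨al, hal, hab, fun _ => le_rfl, fun _ => le_rfl, fun h3 => absurd h3 (by omega),
          fun h3 => absurd h3 (by omega),
          fbox_fol B (T.nG t ht) (T.nG t' ht') a1 a2 a3 a4 h1 h2⟩
      · have h3 : l = k + f := by omega
        subst h3
        exact ⟨be, hal.trans hab, le_rfl, fun h4 => absurd h4 (by omega), fun _ => hab,
          fun _ => rfl, fun h4 => absurd h4 (by omega),
          fbox_tar B (T.nG t ht) (T.nG t' ht') a1 a2 a3 a4⟩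
  have hmulJ : ∀ {x y s : ℝ}, |x - s * y| ≤ 2 * φ →
      s * (y * J) ≤ x * J + 2 * (φ * J) ∧ x * J ≤ s * (y * J) + 2 * (φ * J) := by
    intro x y s h1
    have h2 := abs_le.1 h1
    have h3 := mul_le_mul_of_nonneg_right h2.1 hJ
    have h4 := mul_le_mul_of_nonneg_right h2.2 hJ
    have e1 : (x - s * y) * (J : ℝ) = x * J - s * (y * J) := by ring
    have e2 : 2 * φ * (J : ℝ) = 2 * (φ * J) := by ring
    have e3 : -(2 * φ) * (J : ℝ) = -(2 * (φ * J)) := by ring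
    rw [e1] at h3 h4
    rw [e2] at h4
    rw [e3] at h3
    constructor <;> linarith
  refine ⟨jj, ⟨⟨T.fnN, fun t ht => ⟨(hjj t ht).1, (hjj t ht).2, (T.ns t ht).1⟩, hn, ?_, ?_, ?_, ?_⟩,
    by linarith, hab, ?_⟩⟩
  · intro t ht l hl
    obtain ⟨s, s1, s2, -, -, -, -, s3⟩ := hsl t ht.le (t + 1) ht (Nat.le_succ t) l hl
    obtain ⟨h1, h2⟩ := hmulJ s3
    obtain ⟨h3, h4⟩ := T.ns t ht
    have h5 : 0 ≤ s * ((ow (fn (t + 1)) - ow (fn t)) * J) :=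
      mul_nonneg (by linarith) (mul_nonneg (by linarith) hJ)
    have h6 : s * ((ow (fn (t + 1)) - ow (fn t)) * J) ≤ be * (φ * J) :=
      mul_le_mul s2 (mul_le_mul_of_nonneg_right (by linarith) hJ)
        (mul_nonneg (by linarith) hJ) (by linarith)
    have e1 : (lv (fn t) l - lv (fn (t + 1)) l) * (J : ℝ) =
      -((lv (fn (t + 1)) l - lv (fn t) l) * J) := by ring
    rw [e1]
    constructor <;> linarith
  · intro t ht
    obtain ⟨h3, h4⟩ := T.ns t ht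
    have h6 : be * ((ow (fn (t + 1)) - ow (fn t)) * J) ≤ be * (φ * J) :=
      mul_le_mul_of_nonneg_left (mul_le_mul_of_nonneg_right (by linarith) hJ) (by linarith)
    linarith
  · intro t t' htt ht' l hl
    obtain ⟨s, s1, s2, s4, -, -, -, s3⟩ := hsl t (htt.trans ht') t' ht' htt l hl.le
    obtain ⟨h1, h2⟩ := hmulJ s3
    have h3 := wnt_n T htt ht'
    have h4 : s * ((ow (fn t') - ow (fn t)) * J) ≤ al * ((ow (fn t') - ow (fn t)) * J) :=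
      mul_le_mul_of_nonneg_right (s4 hl) (mul_nonneg (by linarith) hJ)
    linarith
  · intro t ht
    obtain ⟨s, s1, s2, -, -, s4, -, s3⟩ := hsl 0 (Nat.zero_le n) t ht (Nat.zero_le t) (k + f) le_rfl
    obtain ⟨h1, h2⟩ := hmulJ s3
    rw [s4 rfl] at h1
    linarith
  · intro t ht l hkl hl
    obtain ⟨s, s1, s2, -, s4, -, -, s3⟩ := hsl 0 (Nat.zero_le n) t ht (Nat.zero_le t) l hl.le
    obtain ⟨h1, h2⟩ := hmulJ s3
    have h3 := wnt_n T (Nat.zero_le t) ht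
    have h4 : al * ((ow (fn t) - ow (fn 0)) * J) ≤ s * ((ow (fn t) - ow (fn 0)) * J) :=
      mul_le_mul_of_nonneg_right (s4 hkl) (mul_nonneg (by linarith) hJ)
    linarith

/-- The slope-one places between two windows. -/
theorem fbox_v1 (B : FBox S c k f sn sp G al be h b o w u Λ φ e lam) (hΛ : 2 ≤ Λ) (hφu : φ ≤ u)
    (T : WnT k f sn G al b w u Λ φ N C₀ Eb ηm ow lv fb fn nb n ks) {Y : ℕ}
    (hY : 2 * (φ * J) ≤ Y) : ∀ t t', t ≤ t' → t' ≤ n → ∀ l < k,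
      (lv (fn t') l - lv (fn t) l) * J ≤ (ow (fn t') - ow (fn t)) * J + Y := by
  intro t t' htt ht' l hl
  have hJ : (0 : ℝ) ≤ J := Nat.cast_nonneg J
  have hu := B.u0
  have hΛu : 2 * u ≤ Λ * u := mul_le_mul_of_nonneg_right hΛ hu.le
  have hob : ∀ t ≤ n, b ≤ ow (fn t) ∧ ow (fn t) ≤ o := fun t ht => by
    obtain ⟨h1, h2⟩ := wnt_0 T ht
    have h3 := B.bw
    have h4 := B.wo
    constructor <;> linarith
  rw [T.lv _ (T.fnN t (htt.trans ht')) l (by omega), T.lv _ (T.fnN t' ht') l (by omega)]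
  have h1 := (abs_le.1 (fbox_one B (T.nG t (htt.trans ht')) (T.nG t' ht')
    (hob t (htt.trans ht')).1 (hob t (htt.trans ht')).2 (hob t' ht').1 (hob t' ht').2 hl)).2
  have h2 := mul_le_mul_of_nonneg_right h1 hJ
  have e1 : (sn l (ow (fn t')) - sn l (ow (fn t)) - (ow (fn t') - ow (fn t))) * (J : ℝ) =
    (sn l (ow (fn t')) - sn l (ow (fn t))) * J - (ow (fn t') - ow (fn t)) * J := by ring
  rw [e1] at h2
  linarith

end

/-- **The frame** of the charts `chE`. -/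
theorem fbox_frm (D k : ℕ) : ∃ C : ℕ, 1 ≤ C ∧ ∀ {m f : ℕ} {S : PCl m} {c : ℕ → Fin m}
    {sn sp : ℕ → ℝ → ℝ} {G : Set ℝ} {al be h b o w u Λ φ e : ℝ} {lam : ℝ → ℝ},
    FBox S c k f sn sp G al be h b o w u Λ φ e lam → 0 ≤ Λ →
    ∀ {N : ℕ} {C₀ Eb ηm : ℝ} {ow : ℕ → ℝ} {lv : ℕ → ℕ → ℝ} {fb fn : ℕ → ℕ} {nb n ks : ℕ},
    WnT k f sn G al b w u Λ φ N C₀ Eb ηm ow lv fb fn nb n ks →
    ∀ {J : ℕ} {F : Fam m J} {A : F.Ω → Prop} {Dr M : ℕ} {a : ℝ} {η σ : ℕ → ℝ}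
      {bb : ℕ → ℕ → ℝ} {κ : ℝ} {z : ℕ → ℕ → ℕ} {g₀ : ℕ → ℕ → ℕ}
      {Gc : ℕ → PtT F → ℕ → MvPolynomial (Option (Fin m)) ℝ}
      {H : ℕ → LnT F → ℕ → MvPolynomial (Option (Fin m)) ℝ},
    WinB F c (k + f) D Dr N M C₀ a Eb ηm ow η σ lv bb κ z A g₀ Gc H →
    RadT nb n M J u ow fb fn z → ∀ {Y : ℕ}, C₀ * (ηm * J) ≤ Y → 3 ≤ Y → (nb : ℝ) ≤ 2 ^ Y →
    2 * (φ * J) ≤ Y →
    ∃ κ' : F.Ω → ℕ → ℝ, Frm F c k (k + f) D (C * Y) A (Gc (fn 0)) (g₀ (fn 0))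
      ⌊ow (fn 0) * J⌋₊ (chE Gc k fb fn) κ' := by
  obtain ⟨C, hC, hv⟩ := v0_near D k
  refine ⟨C, hC, ?_⟩
  intro m f S c sn sp G al be h b o w u Λ φ e lam B hΛ N C₀ Eb ηm ow lv fb fn nb n ks T J F A Dr M
    a η σ bb κ z g₀ Gc H W R Y hY hY3 hn hφY
  classical
  have hJ : (0 : ℝ) ≤ J := Nat.cast_nonneg J
  have hu := B.u0
  have hΛu : 0 ≤ Λ * u := mul_nonneg hΛ hu.le
  have hob : ∀ t ≤ nb, b ≤ ow (fb t) ∧ ow (fb t) ≤ o := fun t ht => by
    obtain ⟨h1, h2⟩ := wnt_b T ht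
    have h4 := B.wo
    constructor <;> linarith
  obtain ⟨jb, hjb⟩ : ∃ jb : ℕ → ℕ, ∀ t < nb, jb t ≤ M ∧ z (fb t) (jb t) =
      ⌊ow (fb (t + 1)) * J⌋₊ - ⌊ow (fb t) * J⌋₊ := by
    have h1 : ∀ t : ℕ, ∃ j : ℕ, t < nb → j ≤ M ∧ z (fb t) j =
        ⌊ow (fb (t + 1)) * J⌋₊ - ⌊ow (fb t) * J⌋₊ := by
      intro t
      by_cases ht : t < nb
      · obtain ⟨j, h2, h3⟩ := R.1 t ht
        exact ⟨j, fun _ => ⟨h2, h3⟩⟩
      · exact ⟨0, fun h => absurd h ht⟩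
    choose jb hjb using h1
    exact ⟨jb, hjb⟩
  obtain ⟨κ', -, hκ⟩ := hv W (fb := fb) (jb := jb) (nb := nb) (Y := Y) B.lad.inj (by omega) T.fbN
    (fun t ht => ⟨(hjb t ht).1, (hjb t ht).2, (T.bs t ht).1⟩) hY hY3 hn (fun t ht l hl => by
      rw [T.lv _ (T.fbN t ht) l (by omega), T.lv _ (T.fbN nb le_rfl) l (by omega)]
      have h1 := abs_le.1 (fbox_one B (T.bG t ht) (T.bG nb le_rfl) (hob t ht).1 (hob t ht).2
        (hob nb le_rfl).1 (hob nb le_rfl).2 hl)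
      have h2 := mul_le_mul_of_nonneg_right h1.1 hJ
      have h3 := mul_le_mul_of_nonneg_right h1.2 hJ
      have e1 : (sn l (ow (fb nb)) - sn l (ow (fb t)) - (ow (fb nb) - ow (fb t))) * (J : ℝ) =
        (sn l (ow (fb nb)) - ow (fb nb) - (sn l (ow (fb t)) - ow (fb t))) * J := by ring
      have e2 : (sn l (ow (fb t)) - ow (fb t) - (sn l (ow (fb nb)) - ow (fb nb))) * (J : ℝ) =
        -((sn l (ow (fb nb)) - ow (fb nb) - (sn l (ow (fb t)) - ow (fb t))) * J) := by ring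
      rw [e1] at h2 h3
      rw [e2]
      constructor <;> linarith)
  refine ⟨κ', ⟨fun y l => ?_, fun y l => ?_, fun ω _ l hl _ => ?_, fun ω hω l hl x hx => ?_⟩⟩
  · unfold chE hyb
    split_ifs
    · exact (W.ev _ (T.fbN 0 (Nat.zero_le nb))).ball.degG y l
    · exact (W.ev _ (T.fnN 0 (Nat.zero_le n))).ball.degG y l
  · unfold chE hyb
    split_ifs
    · exact (W.ev _ (T.fbN 0 (Nat.zero_le nb))).ball.depG y l
    · exact (W.ev _ (T.fnN 0 (Nat.zero_le n))).ball.depG y l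
  · unfold chE hyb
    rw [if_neg (not_lt.2 hl)]
  · have h1 := hκ ω hω l hl.le x (by
      rw [← T.eq]
      exact hx)
    rw [← T.eq] at h1
    exact h1

end Pool.EN91
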