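import Pool.Agent.H91.EN.Rec
import Pool.Agent.H87.V0S.Gp4

/-!
# The velocities of two samples with near paths below

`vel`: the velocity over a chart. `chp_of`: the chain of the charts of `WinB` from the frame on.
`vel_near`: two samples with the same time, frame and last charts, with near heights and velocities of
the places `< k`: the heights and the velocities of the followers, and the velocity of the target minus
the gradients times the velocities of the followers.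
-/

set_option autoImplicit false

namespace Pool.EN91

open Finset Real MvPolynomial
open Pool.Agent.H49.Ent Pool.Agent.H32.Dense Pool.STK Pool.KA Pool.KSAT Pool.K2S Pool.PB Pool.S6C
open Pool.GEN Pool.CHT Pool.CHX Pool.ISO Pool.D2R Pool.V0S

variable {m J : ℕ}

/-- **The velocity** of the place `l` over the chart. -/
noncomputable def vel (F : Fam m J) (c : ℕ → Fin m)
    (G : PtT F → ℕ → MvPolynomial (Option (Fin m)) ℝ) (ω : F.Ω) (l : ℕ) : ℝ :=
  F.d ω (c l) - dd (G (ptr F J ω) l) (bt F ω) (bd F ω)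

/-- **The chain of the charts** of `WinB`, from the frame on. -/
theorem chp_of {F : Fam m J} {c : ℕ → Fin m} {r D Dr N M : ℕ} {C₀ a Eb ηm : ℝ} {o η σ : ℕ → ℝ}
    {lv b : ℕ → ℕ → ℝ} {κ : ℝ} {z : ℕ → ℕ → ℕ} {B : F.Ω → Prop} {g₀ : ℕ → ℕ → ℕ}
    {G : ℕ → PtT F → ℕ → MvPolynomial (Option (Fin m)) ℝ}
    {H : ℕ → LnT F → ℕ → MvPolynomial (Option (Fin m)) ℝ}
    (W : WinB F c r D Dr N M C₀ a Eb ηm o η σ lv b κ z B g₀ G H)
    {G' : PtT F → ℕ → MvPolynomial (Option (Fin m)) ℝ} {κ' : F.Ω → ℕ → ℝ}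
    {f jj : ℕ → ℕ} {n kf i P Y : ℕ} {S b' : ℝ}
    (T : Frm F c kf i D Y B (G (f 0)) (g₀ (f 0)) ⌊o (f 0) * J⌋₊ G' κ')
    (hc : Set.InjOn c (Set.Iio (r + 1))) (hi : i ≤ r) (hki : kf ≤ i)
    (V : WDt o lv z J N M f jj n i Y S b') (hY : C₀ * (ηm * J) ≤ Y) (hY3 : 3 ≤ Y)
    (hP : 6 * Y ≤ P) {ω : F.Ω} (hω : B ω) :
    ∃ (ψ Q : ℕ → ℕ → MvPolynomial (Option (Fin m)) ℝ) (gg : ℕ → ℕ → ℕ) (aa : ℕ → ℕ)
      (kk : ℕ → ℕ → ℝ), ChP c i D (n + 1) P ψ Q gg aa kk (bt F ω) ∧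
      (∀ l, ψ 0 l = G' (ptr F J ω) l) ∧
      (∀ k ≤ n, ∀ l, ψ (k + 1) l = G (f k) (ptr F J ω) l) ∧
      (∀ k ≤ n, ∀ l, gg (k + 1) l = g₀ (f k) l) ∧ ∀ k ≤ n, aa (k + 1) = ⌊o (f k) * J⌋₊ := by
  classical
  have hf := V.fN
  have hst := V.st
  have hlv := V.lv1
  have hJ : (0 : ℝ) ≤ J := Nat.cast_nonneg J
  have hC1 := W.C1
  have hηm0 : 0 ≤ ηm := (W.hη (f 0) (hf 0 (Nat.zero_le n))).1.trans
    (W.hη (f 0) (hf 0 (Nat.zero_le n))).2
  have hY3R : (3 : ℝ) ≤ Y := by exact_mod_cast hY3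
  have hηY : ηm * J ≤ Y := by
    have h1 : ηm * J ≤ C₀ * (ηm * J) := le_mul_of_one_le_left (mul_nonneg hηm0 hJ) hC1
    linarith
  have hci : Set.InjOn c (Set.Iio (i + 1)) := hc.mono fun y hy => by
    rw [Set.mem_Iio] at hy ⊢
    omega
  have hfs : (2 : ℝ) ^ ⌊C₀ * (ηm * J)⌋₊ ≤ 2 ^ Y := pow_le_pow_right₀ (by norm_num) (by
    have h3 : (⌊C₀ * (ηm * J)⌋₊ : ℝ) ≤ Y :=
      (Nat.floor_le (mul_nonneg (by linarith) (mul_nonneg hηm0 hJ))).trans hY
    exact_mod_cast h3)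
  -- the levels
  obtain ⟨L, hL⟩ : ∃ L : ℕ → ℕ → ℝ, L = fun k l => lv (f k) l * J := ⟨_, rfl⟩
  have hLd : ∀ k k' l, (lv (f k') l - lv (f k) l) * J = L k' l - L k l := by
    intro k k' l
    rw [hL]
    show _ = lv (f k') l * (J : ℝ) - lv (f k) l * J
    ring
  have hg : ∀ k ≤ n, ∀ l ≤ i, L k l - Y ≤ (g₀ (f k) l : ℝ) ∧ (g₀ (f k) l : ℝ) ≤ L k l := by
    intro k hk l hl
    obtain ⟨-, -, a1, a2⟩ := W.g_num (hf k hk) (show l ≤ r by omega)
    rw [hL]
    exact ⟨by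
      show lv (f k) l * (J : ℝ) - Y ≤ _
      linarith, a2⟩
  obtain ⟨Xk, hXk⟩ : ∃ Xk : ℕ → ℕ → ℕ, Xk = fun k l =>
    min (⌊b (f k) l * J⌋₊ + (⌊o (f (k + 1)) * J⌋₊ - ⌊o (f k) * J⌋₊)) (g₀ (f (k + 1)) l) := ⟨_, rfl⟩
  have hXkn : ∀ k < n, ∀ l ≤ i, g₀ (f (k + 1)) l ≤ Xk k l + 3 * Y := by
    intro k hk l hl
    obtain ⟨a1, -⟩ := W.g_num (hf k hk.le) (show l ≤ r by omega)
    obtain ⟨a2, a3⟩ := hg (k + 1) (by omega) l hl
    have h1 := (hlv k hk l hl).1
    rw [hLd] at h1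
    have e1 : L k l = lv (f k) l * J := by rw [hL]
    have h5 : (g₀ (f (k + 1)) l : ℝ) ≤ ((Xk k l + 3 * Y : ℕ) : ℝ) := by
      rw [hXk]
      show _ ≤ ((min (⌊b (f k) l * J⌋₊ + (⌊o (f (k + 1)) * J⌋₊ - ⌊o (f k) * J⌋₊))
        (g₀ (f (k + 1)) l) + 3 * Y : ℕ) : ℝ)
      rw [Nat.cast_add, Nat.cast_min]
      have h6 : (g₀ (f (k + 1)) l : ℝ) - 3 * Y ≤
          min (((⌊b (f k) l * J⌋₊ + (⌊o (f (k + 1)) * J⌋₊ - ⌊o (f k) * J⌋₊) : ℕ) : ℝ))
            ((g₀ (f (k + 1)) l : ℕ) : ℝ) := by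
        rw [le_min_iff]
        constructor
        · push_cast
          have h2 : (0 : ℝ) ≤ ((⌊o (f (k + 1)) * J⌋₊ - ⌊o (f k) * J⌋₊ : ℕ) : ℝ) :=
            Nat.cast_nonneg _
          linarith
        · linarith
      push_cast at h6 ⊢
      linarith
    exact_mod_cast h5
  -- the chains
  obtain ⟨fm, hfm⟩ : ∃ fm : ℕ → ℕ, fm = fun k => f (min k n) := ⟨_, rfl⟩
  have hfe : ∀ k ≤ n, fm k = f k := fun k hk => by
    rw [hfm]
    show f (min k n) = f k
    rw [min_eq_left hk]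
  have hfN : ∀ k, fm k ≤ N := fun k => by
    rw [hfm]
    exact hf _ (min_le_right _ _)
  have hfm0 : fm 0 = f 0 := hfe 0 (Nat.zero_le n)
  obtain ⟨ψ, hψ⟩ : ∃ ψ : ℕ → ℕ → MvPolynomial (Option (Fin m)) ℝ, ψ = fun k l =>
    Nat.casesOn k (G' (ptr F J ω) l) (fun k' => G (fm k') (ptr F J ω) l) := ⟨_, rfl⟩
  have hψ0 : ∀ l, ψ 0 l = G' (ptr F J ω) l := fun l => by rw [hψ]; rfl
  have hψs : ∀ k l, ψ (k + 1) l = G (fm k) (ptr F J ω) l := fun k l => by rw [hψ]
  obtain ⟨κ₁, hκ₁⟩ : ∃ κ₁ : ℕ → ℝ, κ₁ = fun l => if l < kf then κ' ω l else 0 := ⟨_, rfl⟩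
  obtain ⟨Q, hQ⟩ : ∃ Q : ℕ → ℕ → MvPolynomial (Option (Fin m)) ℝ, Q = fun k l =>
    Nat.casesOn k (if l < i then G' (ptr F J ω) l - G (fm 0) (ptr F J ω) l +
      MvPolynomial.C (κ₁ l) else 0)
      (fun k' => Gno (c l) J J (fun y => G (fm k') y l) (ptr F J ω) -
        G (fm (k' + 1)) (ptr F J ω) l) := ⟨_, rfl⟩
  have hQ0 : ∀ l, Q 0 l = if l < i then G' (ptr F J ω) l - G (fm 0) (ptr F J ω) l +
      MvPolynomial.C (κ₁ l) else 0 := fun l => by rw [hQ]; rfl
  have hQs : ∀ k l, Q (k + 1) l = Gno (c l) J J (fun y => G (fm k) y l) (ptr F J ω) -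
        G (fm (k + 1)) (ptr F J ω) l := fun k l => by rw [hQ]
  obtain ⟨gg, hgg⟩ : ∃ gg : ℕ → ℕ → ℕ, gg = fun k l =>
    Nat.casesOn k (g₀ (f 0) l) (fun k' => g₀ (fm k') l) := ⟨_, rfl⟩
  have hggs : ∀ k l, gg (k + 1) l = g₀ (fm k) l := fun k l => by rw [hgg]
  obtain ⟨kk, hkk⟩ : ∃ kk : ℕ → ℕ → ℝ, kk = fun k l =>
    Nat.casesOn k (if l < i then κ₁ l else 0) (fun k' => ((ptr F J ω).1 (c l) : ℝ) / 2 ^ J -
        eval (bho J J (ptr F J ω)) (G (fm k') (ptr F J ω) l)) := ⟨_, rfl⟩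
  have hkk0 : ∀ l, kk 0 l = if l < i then κ₁ l else 0 := fun l => by rw [hkk]; rfl
  have hkks : ∀ k l, kk (k + 1) l = ((ptr F J ω).1 (c l) : ℝ) / 2 ^ J -
        eval (bho J J (ptr F J ω)) (G (fm k) (ptr F J ω) l) := fun k l => by rw [hkk]
  have hD : ∀ k l, (G (fm k) (ptr F J ω) l).totalDegree ≤ D := fun k l =>
    (W.ev (fm k) (hfN k)).ball.degG _ l
  have hPd : ∀ k l, DepC c l (G (fm k) (ptr F J ω) l) := fun k l =>
    (W.ev (fm k) (hfN k)).ball.depG _ l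
  refine ⟨ψ, Q, gg, fun k => ⌊o (fm (k - 1)) * J⌋₊, kk, ⟨hci, fun k l => ?_, fun k l => ?_,
    fun k l => ?_, fun k l => ?_, fun k hk l hl => ?_, fun k hk l hl bx hb => ?_,
    fun k hk l hl => ?_, ?_⟩, hψ0, fun k hk l => by rw [hψs, hfe k hk],
    fun k hk l => by rw [hggs, hfe k hk], fun k hk => by
      show ⌊o (fm (k + 1 - 1)) * J⌋₊ = _
      rw [Nat.add_sub_cancel, hfe k hk]⟩
  · cases k with
    | zero => rw [hψ0]; exact T.deg _ l
    | succ k => rw [hψs]; exact hD k l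
  · cases k with
    | zero => rw [hψ0]; exact T.dep _ l
    | succ k => rw [hψs]; exact hPd k l
  · cases k with
    | zero =>
      rw [hQ0]
      split_ifs
      · refine (totalDegree_add _ _).trans (max_le ((totalDegree_sub _ _).trans (max_le
          (T.deg _ l) (hD 0 l))) ?_)
        rw [totalDegree_C]
        exact Nat.zero_le _
      · rw [totalDegree_zero]
        exact Nat.zero_le _
    | succ k =>
      rw [hQs]
      exact (totalDegree_sub _ _).trans (max_le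
        (deg_Gno (c l) (fun y => G (fm k) y l) (ptr F J ω) (hD k l)) (hD (k + 1) l))
  · intro b b' h1 h2
    cases k with
    | zero =>
      rw [hQ0]
      split_ifs
      · rw [map_add, map_add, map_sub, map_sub, T.dep _ l b b' h1 h2, hPd 0 l b b' h1 h2, eval_C,
          eval_C]
      · rw [map_zero, map_zero]
    | succ k =>
      rw [hQs]
      rw [map_sub, map_sub, depC_Gno (c l) (fun y => G (fm k) y l) (ptr F J ω) (hPd k l) b b' h1
        h2, hPd (k + 1) l b b' h1 h2]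
  · cases k with
    | zero =>
      rw [hQ0, hψ0, hψs, hkk0]
      split_ifs with h0
      · rfl
      · have e : l = i := by omega
        subst e
        rw [hfm0, T.eq ω hω l hki le_rfl, sub_self, map_zero, add_zero]
    | succ k =>
      rw [hQs, hψs, hψs, hkks]
      unfold Gno
      ring
  · -- the boxes
    cases k with
    | zero =>
      rw [hQ0]
      have e1 : ψ (0 + 1) = G (fm 0) (ptr F J ω) := by
        funext l'
        exact hψs 0 l'
      have e2 : gg (0 + 1) = g₀ (fm 0) := by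
        funext l'
        exact hggs 0 l'
      have hb' : NBx c (G (fm 0) (ptr F J ω)) (g₀ (fm 0)) ⌊o (fm 0) * J⌋₊ (F.t ω) l bx := by
        rw [e1, e2] at hb
        exact hb
      rw [e2]
      split_ifs with h0
      · rw [hfm0] at hb' ⊢
        rw [map_add, map_sub, eval_C]
        have h1 := T.all ω hω l h0 bx hb'
        have e : eval bx (G' (ptr F J ω) l) - eval bx (G (f 0) (ptr F J ω) l) + κ₁ l =
          eval bx (G' (ptr F J ω) l) + (if l < kf then κ' ω l else 0) -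
            eval bx (G (f 0) (ptr F J ω) l) := by
          rw [hκ₁]
          ring
        rw [e]
        exact h1.trans (div_le_div_of_nonneg_right (pow_le_pow_right₀ (by norm_num) (by omega))
          (by positivity))
      · rw [map_zero, abs_zero]
        positivity
    | succ k =>
      have e1 : ψ (k + 1 + 1) = G (fm (k + 1)) (ptr F J ω) := by
        funext l'
        exact hψs (k + 1) l'
      have e2 : gg (k + 1 + 1) = g₀ (fm (k + 1)) := by
        funext l'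
        exact hggs (k + 1) l'
      rw [hQs, map_sub, e2]
      have hb' : NBx c (G (fm (k + 1)) (ptr F J ω)) (g₀ (fm (k + 1))) ⌊o (fm (k + 1)) * J⌋₊
          (F.t ω) l bx := by
        rw [e1, e2] at hb
        exact hb
      have hk' : k < n := by omega
      rw [hfe (k + 1) (by omega)] at hb' ⊢
      rw [hfe k hk'.le]
      have h1 := W.bal (f k) (hf k hk'.le) (f (k + 1)) (hf (k + 1) hk') (jj k) (hst k hk').1
        (Nat.floor_le_floor (mul_le_mul_of_nonneg_right (hst k hk').2.2 hJ)) (hst k hk').2.1 ω hω l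
        (by omega) bx hb'
      refine h1.trans ?_
      have h2 := hXkn k hk' l hl
      rw [hXk] at h2
      refine (div_le_div_of_nonneg_right hfs (by positivity)).trans ?_
      rw [div_le_div_iff₀ (by positivity) (by positivity), ← pow_add, ← pow_add]
      refine pow_le_pow_right₀ (by norm_num) ?_
      have h3 : g₀ (f (k + 1)) l ≤ min (⌊b (f k) l * J⌋₊ + (⌊o (f (k + 1)) * J⌋₊ -
        ⌊o (f k) * J⌋₊)) (g₀ (f (k + 1)) l) + 3 * Y := h2
      omega
  · -- the positions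
    rw [hψs, hggs, hfe k (by omega)]
    have h1 := (W.ev (f k) (hf k (by omega))).ball.pos ω hω l (by omega)
    exact h1.trans (div_le_div_of_nonneg_right (one_le_pow₀ (by norm_num)) (by positivity))
  · have h1 : ((n + 1 : ℕ) : ℝ) ≤ 2 ^ Y + 2 ^ Y := by
      push_cast
      have : (1 : ℝ) ≤ 2 ^ Y := one_le_pow₀ (by norm_num)
      linarith [V.nY]
    refine h1.trans ?_
    rw [← two_mul, ← pow_succ']
    exact pow_le_pow_right₀ (by norm_num) (by omega)

end Pool.EN91
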