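import Pool.Agent.H91.EN.Vln
import Pool.Agent.H87.V0S.Sd

/-!
# The derivative of the path of the target at two samples with near paths below

`tpE_der_sub`: the difference of the derivatives of `tpE` at two samples with the same time and side
path. `tpe_nat`: it is natural.
-/

set_option autoImplicit false

namespace Pool.EN91

open Finset Real MvPolynomial
open Pool.Agent.H49.Ent Pool.Agent.H32.Dense
open Pool.STK hiding pr2
open Pool.KA Pool.KSAT Pool.K2S Pool.PB Pool.S6C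
open Pool.GEN Pool.CHT Pool.CHX Pool.ISO Pool.LA91 Pool.AVG71 Pool.AVG5 Pool.D2F2 Pool.AVG57
open Pool.AVG66 Pool.V0S
open Pool.D2R (hgt gnh dd WinB)
open Pool.PB.Trl (rt rt_mem t_rt)

variable {m J : ℕ}

section

variable {F : Fam m J} {c : ℕ → Fin m} {w W : ℕ}

/-- The derivative of an own path at the time of the sample. -/
theorem dvW_der (hw : w ≤ W) (hW : W ≤ J) {H : LnT F → ℕ → MvPolynomial (Option (Fin m)) ℝ}
    {G₀ : PtT F → ℕ → MvPolynomial (Option (Fin m)) ℝ} {l : ℕ} {ω : F.Ω}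
    (h : G₀ (ptr F J ω) l = H (slam F w ω) l) :
    (dv W (fun s (_ : Fin m) => H (upw w W s) l) (c l) (slam F W ω)).derivative.eval (rt F W ω) =
      1 / 2 ^ W * vel F c G₀ ω l := by
  rw [der_dv F hW (fun s (_ : Fin m) => H (upw w W s) l) ω (c l), upw_slam F hw hW, ← h]
  unfold vel dd
  congr 2
  exact Finset.sum_congr rfl fun o _ => mul_comm _ _

/-- The derivative of a polynomial in the time of a later window. -/
theorem plW_der (F : Fam m J) (h : w ≤ W) (hW : W ≤ J) (P : Polynomial ℝ) (ω : F.Ω) :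
    (plW F w W P ω).derivative.eval (rt F W ω) =
      1 / 2 ^ (W - w) * P.derivative.eval (rt F w ω) := by
  have h1 : (plW F w W P ω).derivative = Polynomial.C (1 / 2 ^ (W - w)) * plW F w W P.derivative ω := by
    unfold plW
    rw [Polynomial.derivative_comp, Polynomial.derivative_C_mul, Polynomial.derivative_X, mul_one,
      Polynomial.taylor_apply, Polynomial.taylor_apply, Polynomial.derivative_comp]
    congr 1
    simp
  rw [h1, Polynomial.eval_mul, Polynomial.eval_C, plW_eval F h hW]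

/-- The derivative of a polynomial with small coefficients. -/
theorem der_le {P : Polynomial ℝ} {K : ℕ} (hP : P.natDegree ≤ K) {U θ : ℝ} (hθ : 0 ≤ θ ∧ θ ≤ 1)
    (hU : ∀ a, |P.coeff a| ≤ U) : |P.derivative.eval θ| ≤ (K + 1) ^ 2 * U := by
  have hU0 : 0 ≤ U := (abs_nonneg _).trans (hU 0)
  have h1 : ∀ a, |P.derivative.coeff a| ≤ (K + 1) * U := by
    intro a
    rw [Polynomial.coeff_derivative, abs_mul]
    rcases Nat.lt_or_ge K (a + 1) with h | h
    · rw [Polynomial.coeff_eq_zero_of_natDegree_lt (hP.trans_lt h), abs_zero, zero_mul]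
      positivity
    · rw [abs_of_nonneg (by positivity : (0 : ℝ) ≤ (a : ℝ) + 1), mul_comm]
      have h2 : (a : ℝ) + 1 ≤ K + 1 := by
        have : (a : ℝ) + 1 ≤ K := by exact_mod_cast h
        linarith
      exact mul_le_mul h2 (hU _) (abs_nonneg _) (by positivity)
  have h3 := eval_le_of (K := K) ((Polynomial.natDegree_derivative_le P).trans (by omega)) hθ h1
  refine h3.trans (le_of_eq ?_)
  ring

end

section

variable {F : Fam m J} {c : ℕ → Fin m} {k i q w Wm W K Km YM D : ℕ} {N γ : ℕ → ℕ}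
  {H : LnT F → ℕ → MvPolynomial (Option (Fin m)) ℝ} {mu : LnT F → ℕ → Polynomial ℝ}
  {G₀ : PtT F → ℕ → MvPolynomial (Option (Fin m)) ℝ}

/-- **The difference of the derivatives of the path of the target.** -/
theorem tpE_der_sub (hw : w ≤ W) (hwm : Wm ≤ W) (hW : W ≤ J) (hki : k ≤ i) {ω ν : F.Ω}
    (ht : F.t ω = F.t ν) (hcω : ∀ l, k ≤ l → l ≤ i → G₀ (ptr F J ω) l = H (slam F w ω) l)
    (hcν : ∀ l, k ≤ l → l ≤ i → G₀ (ptr F J ν) l = H (slam F w ν) l)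
    (e : sdE F c k i w Wm K Km YM N H mu ω = sdE F c k i w Wm K Km YM N H mu ν) :
    (tpE F c k i q w Wm K Km YM N γ H mu W ω).derivative.eval (rt F W ω) -
      (tpE F c k i q w Wm K Km YM N γ H mu W ν).derivative.eval (rt F W ν) =
    2 ^ (γ i + q) / 2 ^ W * ((vel F c G₀ ω i - vel F c G₀ ν i) - ∑ l ∈ Finset.Ico k i,
      2 ^ γ l / 2 ^ γ i * (mcE F Wm Km YM mu l ω).eval (rt F Wm ω) *
        (vel F c G₀ ω l - vel F c G₀ ν l)) - ∑ l ∈ Finset.Ico k i, 1 / 2 ^ (W - Wm) *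
      (mcE F Wm Km YM mu l ω).derivative.eval (rt F Wm ω) *
        (2 ^ (γ l + q) * (hgt F c G₀ ω l - hgt F c G₀ ν l)) := by
  have hT := T_of_t F ht
  have rW := rt_of F hW hT
  have rm := rt_of F (hwm.trans hW) hT
  have hT1 : F.T1 W ω = F.T1 W ν := by
    unfold Fam.T1
    rw [hT]
  -- the corrections
  have hRU : ∀ l ∈ Finset.Ico k i, (RU F c l q w W K (N l) γ H (mcW F Wm Km YM W mu l)
      ω).derivative.eval (rt F W ω) - (RU F c l q w W K (N l) γ H (mcW F Wm Km YM W mu l)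
      ν).derivative.eval (rt F W ν) = 1 / 2 ^ (W - Wm) *
      (mcE F Wm Km YM mu l ω).derivative.eval (rt F Wm ω) *
        (2 ^ (γ l + q) * (hgt F c G₀ ω l - hgt F c G₀ ν l)) +
      (mcE F Wm Km YM mu l ω).eval (rt F Wm ω) * (2 ^ (γ l + q) *
        (1 / 2 ^ W * (vel F c G₀ ω l - vel F c G₀ ν l))) := by
    intro l hl
    rw [Finset.mem_Ico] at hl
    obtain ⟨a1, a2⟩ := sdE_of e hl.1 hl.2
    have hm : mcW F Wm Km YM W mu l ω = mcW F Wm Km YM W mu l ν := by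
      unfold mcW
      rw [a2, plW_of F hwm hW _ hT1]
    have hcod : cod F w (fun s => H s l) (c l) (N l) 0 K ω =
        cod F w (fun s => H s l) (c l) (N l) 0 K ν := by
      obtain ⟨e1, -⟩ := Prod.ext_iff.mp e
      have e3 := congrFun e1 l
      unfold sdE at e3
      simp only [hl.1, hl.2, and_self, if_true] at e3
      funext a
      exact congrFun e3 a
    have h1 := RU_sub (q := q) (γ := γ) hw hW hT1 hm hcod
    rw [← rW, ← Polynomial.eval_sub, ← Polynomial.derivative_sub, h1, ← mul_sub,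
      Polynomial.derivative_mul, Polynomial.eval_add, Polynomial.eval_mul, Polynomial.eval_mul,
      Polynomial.derivative_C_mul, Polynomial.derivative_sub]
    have d1 := dvW_der (c := c) (G₀ := G₀) (H := H) hw hW (hcω l hl.1 hl.2.le)
    have d2 := dvW_der (c := c) (G₀ := G₀) (H := H) hw hW (hcν l hl.1 hl.2.le)
    have v1 : (dv W (fun s (_ : Fin m) => H (upw w W s) l) (c l) (slam F W ω)).eval
        (rt F W ω) = hgt F c G₀ ω l := by
      have h2 := dvW_ojet (c := c) (H := H) (u := l) (γ := fun _ => 0) (q := 0) hw hW ω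
      rw [← hgt_ojet (hw.trans hW) (hcω l hl.1 hl.2.le)] at h2
      simpa using h2
    have v2 : (dv W (fun s (_ : Fin m) => H (upw w W s) l) (c l) (slam F W ν)).eval
        (rt F W ν) = hgt F c G₀ ν l := by
      have h2 := dvW_ojet (c := c) (H := H) (u := l) (γ := fun _ => 0) (q := 0) hw hW ν
      rw [← hgt_ojet (hw.trans hW) (hcν l hl.1 hl.2.le)] at h2
      simpa using h2
    rw [← rW] at d2 v2
    rw [Polynomial.eval_mul, Polynomial.eval_mul, Polynomial.eval_C, Polynomial.eval_sub,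
      Polynomial.eval_sub, d1, d2, v1, v2]
    have p1 : (mcW F Wm Km YM W mu l ω).eval (rt F W ω) =
        (mcE F Wm Km YM mu l ω).eval (rt F Wm ω) := by
      unfold mcW
      exact plW_eval F hwm hW _ ω
    have p2 : (mcW F Wm Km YM W mu l ω).derivative.eval (rt F W ω) =
        1 / 2 ^ (W - Wm) * (mcE F Wm Km YM mu l ω).derivative.eval (rt F Wm ω) := by
      unfold mcW
      exact plW_der F hwm hW _ ω
    rw [p1, p2]
    ring
  have d1 := dvW_der (c := c) (G₀ := G₀) (H := H) hw hW (hcω i hki le_rfl)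
  have d2 := dvW_der (c := c) (G₀ := G₀) (H := H) hw hW (hcν i hki le_rfl)
  unfold tpE
  rw [Polynomial.derivative_sub, Polynomial.derivative_sub, Polynomial.eval_sub,
    Polynomial.eval_sub, Polynomial.derivative_sum, Polynomial.derivative_sum,
    Polynomial.eval_finsetSum, Polynomial.eval_finsetSum, Polynomial.derivative_C_mul,
    Polynomial.derivative_C_mul, Polynomial.eval_mul, Polynomial.eval_mul, Polynomial.eval_C, Polynomial.eval_C, d1, d2]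
  have h2 := Finset.sum_congr rfl hRU
  rw [Finset.sum_sub_distrib] at h2
  have h3 : 2 ^ (γ i + q) / 2 ^ W * ∑ l ∈ Finset.Ico k i,
      2 ^ γ l / 2 ^ γ i * (mcE F Wm Km YM mu l ω).eval (rt F Wm ω) *
        (vel F c G₀ ω l - vel F c G₀ ν l) = ∑ l ∈ Finset.Ico k i,
      (mcE F Wm Km YM mu l ω).eval (rt F Wm ω) * (2 ^ (γ l + q) *
        (1 / 2 ^ W * (vel F c G₀ ω l - vel F c G₀ ν l))) := by
    rw [Finset.mul_sum]
    refine Finset.sum_congr rfl fun l _ => ?_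
    rw [pow_add, pow_add]
    field_simp
  have h4 : 2 ^ (γ i + q) / 2 ^ W * (vel F c G₀ ω i - vel F c G₀ ν i) =
      2 ^ (γ i + q) * (1 / 2 ^ W * vel F c G₀ ω i) -
        2 ^ (γ i + q) * (1 / 2 ^ W * vel F c G₀ ν i) := by ring
  rw [mul_sub, h3, h4]
  rw [Finset.sum_add_distrib] at h2
  linarith

end

/-- **The derivative of the path of the target is natural** over the near paths of the places `< k`:
two samples with the same time, side path, frame and last charts. -/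
theorem tpe_nat (D r Km : ℕ) : ∃ C : ℕ, 1 ≤ C ∧ ∀ {m J : ℕ} {F : Fam m J} {c : ℕ → Fin m}
    {Dr N M : ℕ} {C₀ a Eb ηm : ℝ} {o η σ : ℕ → ℝ} {lv b : ℕ → ℕ → ℝ}
    {κ : ℝ} {z : ℕ → ℕ → ℕ} {B : F.Ω → Prop} {g₀ : ℕ → ℕ → ℕ}
    {G : ℕ → PtT F → ℕ → MvPolynomial (Option (Fin m)) ℝ}
    {H : ℕ → LnT F → ℕ → MvPolynomial (Option (Fin m)) ℝ}
    (_ : WinB F c r D Dr N M C₀ a Eb ηm o η σ lv b κ z B g₀ G H)
    {G' : PtT F → ℕ → MvPolynomial (Option (Fin m)) ℝ} {κ' : F.Ω → ℕ → ℝ}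
    {f jj : ℕ → ℕ} {n k i q u Y : ℕ} {s σ' : ℝ},
    Frm F c k i D Y B (G (f 0)) (g₀ (f 0)) ⌊o (f 0) * J⌋₊ G' κ' →
    Set.InjOn c (Set.Iio (r + 1)) → i ≤ r → k ≤ i → WDs o lv z J N M f jj n k i Y s σ' →
    C₀ * (ηm * J) ≤ Y → 3 ≤ Y → 1 ≤ s → 2 ≤ σ' →
    (∀ a b, a ≤ b → b ≤ n → ∀ l < k,
      (lv (f b) l - lv (f a) l) * J ≤ (o (f b) - o (f a)) * J + Y) →
    (s + 2) * ((o (f n) - o (f 0)) * J) ≤ (s + 2) * q + Y →
    (s + 2) * q ≤ (s + 2) * ((o (f n) - o (f 0)) * J) + Y → (max 2 s - s) * q ≤ u →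
    (∀ ω, B ω → ∀ a ≤ n, ∀ l ≤ i,
      |vel F c (G (f a)) ω l| ≤ 2 ^ (⌊o (f a) * J⌋₊ + Y) / 2 ^ g₀ (f a) l) →
    ∀ {Wm W K YM : ℕ} {Nl : ℕ → ℕ} {H' : LnT F → ℕ → MvPolynomial (Option (Fin m)) ℝ}
      {mu : LnT F → ℕ → Polynomial ℝ}, ⌊o (f 0) * J⌋₊ ≤ W → Wm ≤ W → W ≤ J →
    Wm ≤ ⌊o (f 0) * J⌋₊ + Y → (∀ ω, B ω → ∀ l a, |(mu (slam F Wm ω) l).coeff a| ≤ 2 ^ Y) →
    (∀ ω, B ω → ∀ l, k ≤ l → l ≤ i → G' (ptr F J ω) l = H' (slam F ⌊o (f 0) * J⌋₊ ω) l) →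
    ∀ ω ν, B ω → B ν → F.t ω = F.t ν →
    (∀ l ≤ i, G' (ptr F J ω) l = G' (ptr F J ν) l) →
    (∀ l ≤ i, G (f n) (ptr F J ω) l = G (f n) (ptr F J ν) l) →
    (∀ j < k, |hgt F c G' ω j - hgt F c G' ν j| ≤ 2 ^ Y / 2 ^ (g₀ (f 0) j + q)) →
    (∀ j < k, |vel F c G' ω j - vel F c G' ν j| ≤
      2 ^ (⌊o (f 0) * J⌋₊ + Y) / 2 ^ (g₀ (f 0) j + q)) →
    sdE F c k i ⌊o (f 0) * J⌋₊ Wm K Km YM Nl H' mu ω =
      sdE F c k i ⌊o (f 0) * J⌋₊ Wm K Km YM Nl H' mu ν →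
    ∀ Z : ℕ, (∀ l, k ≤ l → l < i → |gnh F c i (g₀ (f 0)) G' (G (f n)) ν l -
        (mcE F Wm Km YM mu l ν).eval (rt F Wm ν)| * |vel F c G' ω l - vel F c G' ν l| ≤
        2 ^ (⌊o (f 0) * J⌋₊ + Z) / 2 ^ (g₀ (f 0) l + q)) →
    |(tpE F c k i q ⌊o (f 0) * J⌋₊ Wm K Km YM Nl (g₀ (f 0)) H' mu W ω).derivative.eval
        (rt F W ω) -
      (tpE F c k i q ⌊o (f 0) * J⌋₊ Wm K Km YM Nl (g₀ (f 0)) H' mu W ν).derivative.eval
        (rt F W ν)| ≤ 2 ^ (⌊o (f 0) * J⌋₊ + C * Y + Z) / 2 ^ W := by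
  obtain ⟨C₁, hC₁, hvel⟩ := vel_near D r
  obtain ⟨A, hA⟩ : ∃ A : ℕ, A = C₁ + r + 2 * Km + 6 := ⟨_, rfl⟩
  refine ⟨A, by omega, ?_⟩
  intro m J F c Dr N M C₀ a Eb ηm o η σ lv b κ z B g₀ G H W₀ G' κ' f jj n k i q u Y s σ' T hc hi hki
    V hY hY3 hs1 hσ2 hV1 hq1 hq2 hu hnat Wm W K YM Nl H' mu hwW hwm hW hWmY hmu hcl ω ν hω hν ht
    hG' hGn hh hv hsd Z hpr
  obtain ⟨w, hw⟩ : ∃ w : ℕ, w = ⌊o (f 0) * J⌋₊ := ⟨_, rfl⟩
  obtain ⟨k1, -, k3⟩ := hvel W₀ T hc hi hki V hY hY3 hs1 hσ2 hV1 hq1 hq2 hu hnat ω ν hω hν ht hG'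
    hGn hh hv
  have hr : rt F Wm ω = rt F Wm ν := rt_of F (hwm.trans hW) (T_of_t F ht)
  have hmc : ∀ l, k ≤ l → l < i → mcE F Wm Km YM mu l ω = mcE F Wm Km YM mu l ν := fun l hkl hli =>
    (sdE_of hsd hkl hli).2
  have h1 := k3 (fun l => (mcE F Wm Km YM mu l ω).eval (rt F Wm ω)) Z (fun l hkl hli => by
    rw [hmc l hkl hli, hr]
    exact hpr l hkl hli)
  rw [tpE_der_sub hwW hwm hW hki ht (hcl ω hω) (hcl ν hν) hsd]
  rw [← hw] at h1 hwW hWmY ⊢
  have h2 : ∀ l ∈ Finset.Ico k i, |1 / 2 ^ (W - Wm) *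
      (mcE F Wm Km YM mu l ω).derivative.eval (rt F Wm ω) * (2 ^ (g₀ (f 0) l + q) *
        (hgt F c G' ω l - hgt F c G' ν l))| ≤ 2 ^ (w + (2 * Km + 2 + 2 * Y + C₁ * Y)) / 2 ^ W := by
    intro l hl
    rw [Finset.mem_Ico] at hl
    have h3 : |(mcE F Wm Km YM mu l ω).derivative.eval (rt F Wm ω)| ≤
        (Km + 1) ^ 2 * (2 ^ Y + 1) := by
      unfold mcE
      exact der_le rnd_deg (rt_mem F Wm ω)
        fun a => rnd_abs (fun a => hmu ω hω l a) a
    have h4 : (2 : ℝ) ^ (g₀ (f 0) l + q) * |hgt F c G' ω l - hgt F c G' ν l| ≤ 2 ^ (C₁ * Y) := by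
      have h5 := k1 l hl.2
      rw [le_div_iff₀ (by positivity)] at h5
      linarith
    have h6 : ((Km : ℝ) + 1) ^ 2 * (2 ^ Y + 1) ≤ 2 ^ (2 * Km + 1 + Y) := by
      have h7 : ((Km : ℝ) + 1) ≤ 2 ^ Km := by
        have : Km + 1 ≤ 2 ^ Km := Km.lt_two_pow_self
        exact_mod_cast this
      have h8 : (2 : ℝ) ^ Y + 1 ≤ 2 ^ (Y + 1) := by
        have : (1 : ℝ) ≤ 2 ^ Y := one_le_pow₀ (by norm_num)
        rw [pow_succ]
        linarith
      calc ((Km : ℝ) + 1) ^ 2 * (2 ^ Y + 1) ≤ (2 ^ Km) ^ 2 * 2 ^ (Y + 1) :=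
            mul_le_mul (pow_le_pow_left₀ (by positivity) h7 2) h8 (by positivity) (by positivity)
        _ = _ := by
            rw [← pow_mul, ← pow_add]
            congr 1
            ring
    have h9 : (1 : ℝ) / 2 ^ (W - Wm) = 2 ^ Wm / 2 ^ W := by
      rw [div_eq_div_iff (by positivity) (by positivity), one_mul, ← pow_add]
      congr 1
      omega
    rw [abs_mul, abs_mul, abs_mul, abs_of_pos (by positivity : (0 : ℝ) < 1 / 2 ^ (W - Wm)),
      abs_of_pos (by positivity : (0 : ℝ) < 2 ^ (g₀ (f 0) l + q)), h9]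
    calc (2 : ℝ) ^ Wm / 2 ^ W * |(mcE F Wm Km YM mu l ω).derivative.eval (rt F Wm ω)| *
        (2 ^ (g₀ (f 0) l + q) * |hgt F c G' ω l - hgt F c G' ν l|) ≤
        2 ^ Wm / 2 ^ W * 2 ^ (2 * Km + 1 + Y) * 2 ^ (C₁ * Y) := by
          refine mul_le_mul (mul_le_mul_of_nonneg_left (h3.trans h6) (by positivity)) h4
            (by positivity) (by positivity)
      _ = 2 ^ (Wm + (2 * Km + 1 + Y) + C₁ * Y) / 2 ^ W := by
          rw [pow_add _ (Wm + _), pow_add _ Wm]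
          ring
      _ ≤ _ := div_le_div_of_nonneg_right (pow_le_pow_right₀ (by norm_num) (by omega))
          (by positivity)
  have h3 : |∑ l ∈ Finset.Ico k i, 1 / 2 ^ (W - Wm) *
      (mcE F Wm Km YM mu l ω).derivative.eval (rt F Wm ω) * (2 ^ (g₀ (f 0) l + q) *
        (hgt F c G' ω l - hgt F c G' ν l))| ≤
      2 ^ (w + (r + 2 * Km + 2 + 2 * Y + C₁ * Y)) / 2 ^ W := by
    refine (Finset.abs_sum_le_sum_abs _ _).trans ((Finset.sum_le_sum h2).trans ?_)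
    rw [Finset.sum_const, Nat.card_Ico, nsmul_eq_mul]
    have h4 : ((i - k : ℕ) : ℝ) ≤ 2 ^ r := by
      have := Nat.lt_two_pow_self (n := r)
      exact_mod_cast (show i - k ≤ 2 ^ r by omega)
    calc ((i - k : ℕ) : ℝ) * (2 ^ (w + (2 * Km + 2 + 2 * Y + C₁ * Y)) / 2 ^ W) ≤
        2 ^ r * (2 ^ (w + (2 * Km + 2 + 2 * Y + C₁ * Y)) / 2 ^ W) :=
          mul_le_mul_of_nonneg_right h4 (by positivity)
      _ = _ := by
          have e : w + (r + 2 * Km + 2 + 2 * Y + C₁ * Y) =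
            r + (w + (2 * Km + 2 + 2 * Y + C₁ * Y)) := by ring
          rw [e, pow_add _ r, mul_div_assoc]
  have h4 : |2 ^ (g₀ (f 0) i + q) / 2 ^ W * ((vel F c G' ω i - vel F c G' ν i) -
      ∑ l ∈ Finset.Ico k i, 2 ^ g₀ (f 0) l / 2 ^ g₀ (f 0) i *
        (mcE F Wm Km YM mu l ω).eval (rt F Wm ω) * (vel F c G' ω l - vel F c G' ν l))| ≤
      2 ^ (w + C₁ * Y + Z) / 2 ^ W := by
    rw [abs_mul, abs_of_pos (by positivity : (0 : ℝ) < 2 ^ (g₀ (f 0) i + q) / 2 ^ W)]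
    refine (mul_le_mul_of_nonneg_left h1 (by positivity)).trans (le_of_eq ?_)
    field_simp
  refine (abs_sub _ _).trans ((add_le_add h4 h3).trans ?_)
  rw [← add_div]
  refine div_le_div_of_nonneg_right ?_ (by positivity)
  obtain ⟨E, hE⟩ : ∃ E : ℕ, E = w + (r + 2 * Km + 2 + 2 * Y + C₁ * Y) + Z := ⟨_, rfl⟩
  have g1 : (2 : ℝ) ^ (w + C₁ * Y + Z) ≤ 2 ^ E := pow_le_pow_right₀ (by norm_num) (by omega)
  have g2 : (2 : ℝ) ^ (w + (r + 2 * Km + 2 + 2 * Y + C₁ * Y)) ≤ 2 ^ E :=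
    pow_le_pow_right₀ (by norm_num) (by omega)
  have g3 : (2 : ℝ) ^ (E + 1) ≤ 2 ^ (w + A * Y + Z) := by
    refine pow_le_pow_right₀ (by norm_num) ?_
    rw [hA, hE]
    have e1 : (C₁ + r + 2 * Km + 6) * Y = C₁ * Y + r * Y + 2 * Km * Y + 6 * Y := by ring
    have e2 : r ≤ r * Y := Nat.le_mul_of_pos_right _ (by omega)
    have e3 : 2 * Km ≤ 2 * Km * Y := Nat.le_mul_of_pos_right _ (by omega)
    omega
  rw [pow_succ] at g3
  linarith

/-- The velocities of two samples with the same codes of the path. -/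
theorem vel_cod {F : Fam m J} {c : ℕ → Fin m} {w K N D l : ℕ}
    {H : LnT F → ℕ → MvPolynomial (Option (Fin m)) ℝ}
    {G₀ : PtT F → ℕ → MvPolynomial (Option (Fin m)) ℝ} (hw : w ≤ J)
    (hH : ∀ s l, (H s l).totalDegree ≤ D) (hK : D + 1 ≤ K) {ω ν : F.Ω} (ht : F.t ω = F.t ν)
    (hcω : G₀ (ptr F J ω) l = H (slam F w ω) l) (hcν : G₀ (ptr F J ν) l = H (slam F w ν) l)
    (e : cod F w (fun s => H s l) (c l) N 0 K ω = cod F w (fun s => H s l) (c l) N 0 K ν) :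
    |vel F c G₀ ω l - vel F c G₀ ν l| ≤ 2 ^ w * ((K + 1) ^ 2 * (1 / 2 ^ N)) := by
  obtain ⟨P, hP⟩ : ∃ P : F.Ω → Polynomial ℝ,
    P = fun ω => dv w (fun s (_ : Fin m) => H s l) (c l) (slam F w ω) := ⟨_, rfl⟩
  have hd : ∀ ω, G₀ (ptr F J ω) l = H (slam F w ω) l →
      (P ω).derivative.eval (rt F w ω) = 1 / 2 ^ w * vel F c G₀ ω l := by
    intro ω h
    rw [hP]
    show (dv w (fun s (_ : Fin m) => H s l) (c l) (slam F w ω)).derivative.eval (rt F w ω) = _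
    rw [der_dv F hw (fun s (_ : Fin m) => H s l) ω (c l), ← h]
    unfold vel dd
    congr 2
    exact Finset.sum_congr rfl fun o _ => mul_comm _ _
  have hr : rt F w ω = rt F w ν := rt_of F hw (T_of_t F ht)
  have hdeg : ∀ ω, (P ω).natDegree ≤ K := fun ω => by
    rw [hP]
    exact natDegree_dvH (c := c) (w := w) hH hK l (slam F w ω)
  have hco : ∀ a, |(P ω - P ν).coeff a| ≤ 1 / 2 ^ N := by
    intro a
    rw [Polynomial.coeff_sub]
    rcases Nat.lt_or_ge K a with h | h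
    · rw [Polynomial.coeff_eq_zero_of_natDegree_lt ((hdeg ω).trans_lt h),
        Polynomial.coeff_eq_zero_of_natDegree_lt ((hdeg ν).trans_lt h), sub_self, abs_zero]
      positivity
    · have h1 := congrFun e ⟨a, Nat.lt_succ_of_le h⟩
      unfold Pool.AVG57.cod at h1
      simp only [Nat.zero_le, if_true] at h1
      have h2 := Pool.AVG5.of_fl (by positivity : (0 : ℝ) < 2 ^ N) h1
      rw [hP]
      exact h2
  have h1 := der_le (P := P ω - P ν) (K := K) ((Polynomial.natDegree_sub_le _ _).trans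
    (max_le (hdeg ω) (hdeg ν))) (rt_mem F w ω) hco
  rw [Polynomial.derivative_sub, Polynomial.eval_sub, hd ω hcω] at h1
  have h2 := hd ν hcν
  rw [← hr] at h2
  rw [h2, ← mul_sub, abs_mul, abs_of_pos (by positivity : (0 : ℝ) < 1 / 2 ^ w), one_div,
    inv_mul_le_iff₀ (by positivity)] at h1
  exact h1

end Pool.EN91
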