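import Pool.Agent.H91.EN.Nte1
import Pool.Agent.H13.K2S.Cht

/-!
# The derivative of the path of the target, class level

`nte_cls`: in the box of followers of slope `al` and of a target of slope `be ≥ 2`, closed gradients
over the followers give `NtE`: the derivative of the path of the target at the time of the sample is few
bits given the near path, the side path and the record of the window `w + u`.
-/

set_option autoImplicit false

namespace Pool.EN91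

open Finset Real MvPolynomial
open Pool.Agent.H49.Ent Pool.Agent.H32.Dense
open Pool.STK hiding pr2
open Pool.KA Pool.KSAT Pool.K2S Pool.PB Pool.S6C
open Pool.GEN Pool.CHT Pool.CHX Pool.ISO Pool.LA91 Pool.AVG71 Pool.AVG5 Pool.D2F2 Pool.AVG57
open Pool.AVG66 Pool.RCD Pool.AVG96 Pool.V0F Pool.V0S Pool.VW33
open Pool.T4C72 (WnT RadT)
open Pool.AJW (CfB)
open Pool.BFL (Pb)
open Pool.D2R (WinB hgt gnh dd hyb hybH)
open Pool.PB.Trl (rt rt_mem t_rt)

variable {m J : ℕ}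

theorem pb_pe {Ω : Type} [Fintype Ω] (p : Ω → ℝ) (A : Ω → Prop) : Pb p A = Pe p A := by
  classical
  rw [Pool.K2S.Pe_eq]
  unfold Pb
  refine Finset.sum_congr rfl fun ω _ => ?_
  by_cases h : A ω <;> simp [h]

/-- The charts are functions of the record. -/
theorem cl2_cht {F : Fam m J} {A : F.Ω → Prop} {w a : ℝ} {l : ℕ}
    {G : PtT F → ℕ → MvPolynomial (Option (Fin m)) ℝ}
    {H : LnT F → ℕ → MvPolynomial (Option (Fin m)) ℝ} (hwa : w ≤ a) (ha : a ≤ 1)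
    (h : ∀ ω, A ω → G (ptr F J ω) l = H (slam F ⌊w * J⌋₊ ω) l) :
    Cl2 (ptr F J) (vg a J F) A (fun ω => G (ptr F J ω) l) := by
  obtain ⟨χ, hχ⟩ := vg_mono hwa ha J F
  refine ⟨⟨fun y => G y l, fun _ _ => rfl⟩, fun s => H (χ s) l, fun ω hω => ?_⟩
  show G (ptr F J ω) l = H (χ (vg a J F ω)) l
  rw [← hχ ω, h ω hω]
  rfl

/-- `2 ^ x ≤ 2 ^ n / 2 ^ l` for a real exponent. -/
theorem rp_le {x : ℝ} {n l : ℕ} (h : x + l ≤ n) : (2 : ℝ) ^ x ≤ 2 ^ n / 2 ^ l := by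
  rw [le_div_iff₀ (by positivity), ← Real.rpow_natCast 2 l, ← Real.rpow_natCast 2 n,
    ← Real.rpow_add two_pos]
  exact Real.rpow_le_rpow_of_exponent_le one_le_two h

theorem rp_inv (x : ℝ) : (1 : ℝ) / 2 ^ x = 2 ^ (-x) := by
  rw [Real.rpow_neg two_pos.le, one_div]

/-- **(NtE)** The derivative of the path of the target. -/
theorem nte_cls (D K Km k f : ℕ) {al be ns ym : ℝ} (hDK : D + 1 ≤ K) (hal : 1 ≤ al)
    (hbe : 2 ≤ be) (hym : 0 ≤ ym) (hny : 1 ≤ ns + ym)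
    (hya : ym ≤ be - al) {δ : ℝ} (hδ : 0 < δ) : ∃ φs : ℝ, 0 < φs ∧ ∀ {m : ℕ} {S : PCl m}
    {c : ℕ → Fin m} {sn sp : ℕ → ℝ → ℝ} {G : Set ℝ} {h b o w u Λ φ e eK : ℝ} {lam : ℝ → ℝ},
    FBox S c k f sn sp G al be h b o w u Λ φ e lam → 2 ≤ Λ → φ ≤ φs * u → 0 ≤ eK → eK ≤ φs →
    ∀ {Dr N M : ℕ} {C₀ a Eb ηm : ℝ} {ow η σ : ℕ → ℝ} {lv bb : ℕ → ℕ → ℝ} {fb fn : ℕ → ℕ}
      {nb n ks : ℕ}, WnT k f sn G al b w u Λ φ N C₀ Eb ηm ow lv fb fn nb n ks →
    Bas S (fun J F A => ∀ {κ : ℝ} {z : ℕ → ℕ → ℕ} {g₀ : ℕ → ℕ → ℕ}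
      {Gc : ℕ → PtT F → ℕ → MvPolynomial (Option (Fin m)) ℝ}
      {H : ℕ → LnT F → ℕ → MvPolynomial (Option (Fin m)) ℝ} {Wm : ℕ}
      {mu : LnT F → ℕ → Polynomial ℝ},
      WinB F c (k + f) D Dr N M C₀ a Eb ηm ow η σ lv bb κ z A g₀ Gc H →
      RadT nb n M J u ow fb fn z →
      (∀ l, k ≤ l → l ≤ k + f → CfB F ⌊w * J⌋₊ 1 (c l) A (fun s => s) (fun s => H (fn 0) s l)) →
      KE F c k f Km n al be w u φ eK ow fb fn A (g₀ (fn 0)) Gc Wm mu →
      NtE F c k f K Km sn ns ym b w u φ δ (ow (fn n)) fb fn A (g₀ (fn 0)) H Wm mu) := by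
  classical
  obtain ⟨Cp, hCp, hpair⟩ := nte_pair D k f K Km
  obtain ⟨Cf, hCf, hfrm⟩ := fbox_frm D k
  have hk0 : (0 : ℝ) ≤ k := Nat.cast_nonneg k
  obtain ⟨K₁, hK₁⟩ : ∃ K₁ : ℝ, K₁ = (be + 4) * (2001 * ((k : ℝ) + 2)) := ⟨_, rfl⟩
  have hK₁1 : 1 ≤ K₁ := by
    rw [hK₁]
    nlinarith
  have hCpR : (1 : ℝ) ≤ Cp := by exact_mod_cast hCp
  have hCfR : (1 : ℝ) ≤ Cf := by exact_mod_cast hCf
  obtain ⟨Q, hQ⟩ : ∃ Q : ℝ, Q = Cp * (Cf * K₁) := ⟨_, rfl⟩
  have hQ1 : K₁ ≤ Q := by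
    rw [hQ]
    have h1 : K₁ ≤ Cf * K₁ := le_mul_of_one_le_left (by linarith) hCfR
    have h2 : Cf * K₁ ≤ Cp * (Cf * K₁) := le_mul_of_one_le_left (by linarith) hCpR
    linarith
  have hQ0 : 0 < Q := by linarith
  obtain ⟨φs, hφs⟩ : ∃ φs : ℝ, φs = min δ 1 / (16 * Q) := ⟨_, rfl⟩
  have hφs0 : 0 < φs := by
    rw [hφs]
    have : 0 < min δ 1 := lt_min hδ one_pos
    positivity
  have hφsQ : Q * φs ≤ δ / 16 ∧ Q * φs ≤ 1 / 16 := by
    have h1 : Q * φs = min δ 1 / 16 := by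
      rw [hφs]
      field_simp
    rw [h1]
    exact ⟨by linarith [min_le_left δ 1], by linarith [min_le_right δ 1]⟩
  refine ⟨φs, hφs0, ?_⟩
  intro m S c sn sp G h b o w u Λ φ e eK lam B hΛ hφu heK0 heK Dr N M C₀ a Eb ηm ow η σ lv bb fb fn
    nb n ks T
  have hu := B.u0
  have hφ := B.lad.φ0
  have hΛu : 2 * u ≤ Λ * u := mul_le_mul_of_nonneg_right hΛ hu.le
  have hφs1 : φs ≤ 1 / 16 := by
    have h1 : 1 * φs ≤ Q * φs := mul_le_mul_of_nonneg_right (by linarith) hφs0.le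
    linarith [hφsQ.2]
  have hφu1 : φ ≤ u := hφu.trans (by
    have h1 : φs * u ≤ 1 * u := mul_le_mul_of_nonneg_right (by linarith) hu.le
    linarith)
  have hb0 : 0 ≤ b := B.lad.b0
  have hbw : b ≤ w := by linarith [B.bw]
  have hwo : w + 2 * u ≤ o := by linarith [B.wo]
  have ho1 : o + 2 * u ≤ 1 := by linarith [B.o1]
  have hu1 : u ≤ 1 := by linarith
  have hw0 : 0 ≤ w := hb0.trans hbw
  obtain ⟨C₂, htm⟩ := B.lad.tm
  -- the numbers
  obtain ⟨κ', hκ'⟩ : ∃ κ' : ℝ, κ' = min (1 / 2) (δ * u / 96) := ⟨_, rfl⟩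
  have hκ'0 : 0 < κ' := by
    rw [hκ']
    exact lt_min (by norm_num) (by positivity)
  have hκ'1 : κ' ≤ 1 / 2 := by rw [hκ']; exact min_le_left _ _
  have hκ'2 : κ' ≤ δ * u / 96 := by rw [hκ']; exact min_le_right _ _
  obtain ⟨nn, hnn⟩ : ∃ nn : ℕ, nn = (n + 1) * (k + f + 1) := ⟨_, rfl⟩
  have hnn0 : 0 < nn := by rw [hnn]; positivity
  have hnnR : (0 : ℝ) < nn := by exact_mod_cast hnn0
  have hvel := nat_vel (S := S) htm D (wm := o) (by linarith) (δ := φ) (κ := κ' / nn) hφ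
    (by positivity)
  obtain ⟨c₁, hc₁⟩ : ∃ c₁ : ℕ, c₁ = k + f + 2 * K + 2 * Km + 20 := ⟨_, rfl⟩
  obtain ⟨c₂, hc₂⟩ : ∃ c₂ : ℕ, c₂ = n + nb + ⌈be⌉₊ + 20 := ⟨_, rfl⟩
  obtain ⟨J₁, hJ₁⟩ := exists_nat_ge (max (c₁ : ℝ) (max ((Cp * (Cf * ((c₂ : ℝ) + 1)) + 10) /
    (δ * u / 8)) (2 * ((c₂ : ℝ) + 1))))
  refine Bas.mono (J₁ + 1) (hvel.and (pos_bas B.lad.pos)) ?_
  rintro J hJ F A ⟨Hv, hA⟩ κ z g₀ Gc H Wm mu W₀ R hcf hKE
  have hJ0 : (0 : ℝ) ≤ J := Nat.cast_nonneg J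
  have hJJ : (J₁ : ℝ) ≤ J := by
    have : J₁ ≤ J := by omega
    exact_mod_cast this
  have hj1 : (c₁ : ℝ) ≤ J := ((le_max_left _ _).trans hJ₁).trans hJJ
  have hj2 : (Cp : ℝ) * (Cf * ((c₂ : ℝ) + 1)) + 10 ≤ δ * u / 8 * J := by
    have h1 := (((le_max_left _ _).trans (le_max_right _ _)).trans hJ₁).trans hJJ
    rw [div_le_iff₀ (by positivity)] at h1
    linarith
  have hj3 : 2 * ((c₂ : ℝ) + 1) ≤ J := (((le_max_right _ _).trans (le_max_right _ _)).trans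
    hJ₁).trans hJJ
  have mj : ∀ {x y : ℝ}, x ≤ y → x * J ≤ y * J := fun h => mul_le_mul_of_nonneg_right h hJ0
  have hcl := isLaw_cond F.isLaw hA
  have hφJ : 0 ≤ φ * J := by positivity
  have heJ : 0 ≤ eK * u * J := by positivity
  -- the error
  obtain ⟨Er, hEr⟩ : ∃ Er : ℝ, Er = φ * J + eK * u * J := ⟨_, rfl⟩
  have hEr0 : 0 ≤ Er := by rw [hEr]; positivity
  obtain ⟨Y₀, hY₀⟩ : ∃ Y₀ : ℕ, Y₀ = ⌈K₁ * Er⌉₊ + c₂ := ⟨_, rfl⟩
  have hY₀l : K₁ * Er + c₂ ≤ Y₀ := by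
    rw [hY₀]
    push_cast
    have := Nat.le_ceil (K₁ * Er)
    linarith
  have hY₀u : (Y₀ : ℝ) ≤ K₁ * Er + (c₂ + 1) := by
    rw [hY₀]
    push_cast
    have := (Nat.ceil_lt_add_one (show 0 ≤ K₁ * Er by positivity)).le
    linarith
  have hErJ : K₁ * Er ≤ u / 8 * J := by
    have h1 : K₁ * Er ≤ Q * Er := mul_le_mul_of_nonneg_right hQ1 hEr0
    have h2 : Er ≤ (2 * φs * u) * J := by
      rw [hEr]
      have h3 := mj hφu
      have h4 : eK * u * J ≤ φs * u * J := mul_le_mul_of_nonneg_right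
        (mul_le_mul_of_nonneg_right heK hu.le) hJ0
      linarith
    have h3 : Q * Er ≤ Q * ((2 * φs * u) * J) := mul_le_mul_of_nonneg_left h2 hQ0.le
    have h4 : Q * ((2 * φs * u) * (J : ℝ)) = 2 * (Q * φs) * (u * J) := by ring
    have h5 : 2 * (Q * φs) * (u * (J : ℝ)) ≤ 2 * (1 / 16) * (u * J) :=
      mul_le_mul_of_nonneg_right (by linarith [hφsQ.2]) (by positivity)
    linarith
  have hErδ : (Cp : ℝ) * (Cf * (K₁ * Er)) ≤ δ * u / 8 * J := by
    have h2 : Er ≤ (2 * φs * u) * J := by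
      rw [hEr]
      have h3 := mj hφu
      have h4 : eK * u * J ≤ φs * u * J := mul_le_mul_of_nonneg_right
        (mul_le_mul_of_nonneg_right heK hu.le) hJ0
      linarith
    have h3 : (Cp : ℝ) * (Cf * (K₁ * Er)) = Q * Er := by rw [hQ]; ring
    have h4 : Q * Er ≤ Q * ((2 * φs * u) * J) := mul_le_mul_of_nonneg_left h2 hQ0.le
    have h5 : Q * ((2 * φs * u) * (J : ℝ)) = 2 * (Q * φs) * (u * J) := by ring
    have h6 : 2 * (Q * φs) * (u * (J : ℝ)) ≤ 2 * (δ / 16) * (u * J) :=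
      mul_le_mul_of_nonneg_right (by linarith [hφsQ.1]) (by positivity)
    rw [h3]
    linarith
  -- simple consequences
  have hc₂R : (c₂ : ℝ) = n + nb + ⌈be⌉₊ + 20 := by rw [hc₂]; push_cast; ring
  have hn0 : (0 : ℝ) ≤ n := Nat.cast_nonneg n
  have hnb0 : (0 : ℝ) ≤ nb := Nat.cast_nonneg nb
  have hbec := Nat.le_ceil be
  have hc₂20 : 20 + be ≤ (c₂ : ℝ) := by rw [hc₂R]; linarith
  have hErφ : φ * J ≤ Er := by rw [hEr]; linarith
  have hEre : eK * u * J ≤ Er := by rw [hEr]; linarith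
  have hK₁φ : (be + 4) * (2001 * (k + 2)) * (φ * J) ≤ K₁ * Er := by
    rw [← hK₁]
    exact mul_le_mul_of_nonneg_left hErφ (by linarith)
  have hexp : (be + 4) * (2001 * ((k : ℝ) + 2)) * (φ * J) =
      2001 * ((be + 4) * ((k + 2) * (φ * J))) := by ring
  have hkφ : 2 * (φ * J) ≤ ((k : ℝ) + 2) * (φ * J) :=
    mul_le_mul_of_nonneg_right (by linarith) hφJ
  have hbkφ : 6 * (((k : ℝ) + 2) * (φ * J)) ≤ (be + 4) * ((k + 2) * (φ * J)) :=
    mul_le_mul_of_nonneg_right (by linarith) (by linarith)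
  have hφE : φ * J ≤ K₁ * Er := by linarith
  have hEK : Er ≤ K₁ * Er := le_mul_of_one_le_left hEr0 hK₁1
  have hkφ0 : 0 ≤ ((k : ℝ) + 2) * (φ * J) := by linarith
  obtain ⟨yJ, hyJ⟩ : ∃ yJ : ℝ, yJ = yE k φ * J := ⟨_, rfl⟩
  have hyJe : yJ = 4 * ((k + 2) * (φ * J)) := by rw [hyJ]; unfold yE; ring
  have hyJ0 : 0 ≤ yJ := by rw [hyJe]; positivity
  have hyJE : 500 * yJ ≤ K₁ * Er / 2 := by rw [hyJe]; linarith
  -- the windows
  have how : ow (fn 0) = w := T.ow0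
  obtain ⟨w1, w2⟩ := wnt_0 T (le_refl n)
  have hona := abs_le.1 T.on
  have hn1 : ow (fn n) ≤ 1 := by linarith
  have hfwJ : ⌊w * (J : ℝ)⌋₊ ≤ J := Nat.floor_le_of_le (by
    have := mj (show w ≤ 1 by linarith)
    linarith)
  -- the near digits
  obtain ⟨q, hq⟩ : ∃ q : ℕ, q = Pool.VW33.qE k u φ J := ⟨_, rfl⟩
  have hqe : (u + 500 * yE k φ) * (J : ℝ) = u * J + 500 * yJ := by rw [hyJ]; ring
  have hq1 : (q : ℝ) ≤ u * J + 500 * yJ := by
    rw [hq, ← hqe]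
    unfold Pool.VW33.qE
    exact Nat.floor_le (by rw [hqe]; positivity)
  have hq2 : u * J + 500 * yJ ≤ q + 1 := by
    rw [hq, ← hqe]
    unfold Pool.VW33.qE
    exact (Nat.lt_floor_add_one _).le
  -- the exceptional event
  obtain ⟨E, hE⟩ : ∃ E : ℕ × ℕ → F.Ω → Prop, E = fun x ω =>
    2 ^ (⌊ow (fn x.1) * J⌋₊ + ⌊φ * J⌋₊) / 2 ^ g₀ (fn x.1) x.2 <
      |F.d ω (c x.2) - ∑ o, bd F ω o * eval (bt F ω)
        (pderiv o (H (fn x.1) (slam F ⌊ow (fn x.1) * J⌋₊ ω) x.2))| := ⟨_, rfl⟩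
  obtain ⟨s, hs⟩ : ∃ s : Finset (ℕ × ℕ), s = range (n + 1) ×ˢ range (k + f + 1) := ⟨_, rfl⟩
  have hcard : s.card = nn := by
    rw [hs, Finset.card_product, Finset.card_range, Finset.card_range, hnn]
  have hEx : ∀ x ∈ s, Pe F.p (fun ω => A ω ∧ E x ω) ≤ κ' / nn * Pe F.p A := by
    intro x hx
    rw [hs, Finset.mem_product, Finset.mem_range, Finset.mem_range] at hx
    have h1 := W₀.ev (fn x.1) (T.fnN x.1 (by omega))
    have h2 := Hv ⌊ow (fn x.1) * J⌋₊ (by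
      obtain ⟨a1, a2⟩ := wnt_0 T (t := x.1) (by omega)
      refine (Nat.floor_le (by have := mj (show (0 : ℝ) ≤ ow (fn x.1) by linarith); linarith)).trans
        (mj ?_)
      linarith) (fun s => H (fn x.1) s x.2) (c x.2) (g₀ (fn x.1) x.2)
      (fun s => h1.ball.degH s _) (fun ω hω => by
        have h3 := h1.ball.pos ω hω x.2 (by omega)
        rw [h1.cls ω hω x.2 (by omega)] at h3
        exact h3)
    rw [hE]
    exact h2
  have hFx := pe_un F.isLaw.nonneg A s E hEx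
  rw [hcard] at hFx
  have hFx' : (nn : ℝ) * (κ' / nn * Pe F.p A) = κ' * Pe F.p A := by
    field_simp
  rw [hFx'] at hFx
  obtain ⟨Fx, hFxd⟩ : ∃ Fx : F.Ω → Prop, Fx = fun ω => ∃ x ∈ s, E x ω := ⟨_, rfl⟩
  have hPb : Pb (Pool.Agent.H49.Ent.cond F.p A True) Fx ≤ κ' := by
    rw [pb_pe, Pe_cond, div_le_iff₀ hA, hFxd]
    exact hFx
  obtain ⟨Bg, hBg⟩ : ∃ Bg : F.Ω → Prop, Bg = fun ω => A ω ∧ ¬ Fx ω := ⟨_, rfl⟩
  have hBgA : Sub Bg A := fun ω hω => by
    rw [hBg] at hω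
    exact hω.1
  have hPBg : 1 / 2 * Pe F.p A ≤ Pe F.p Bg := by
    have h1 := Pool.K2S.Pe_or F.isLaw (A := A) (B₀ := Bg) (B₁ := fun ω => A ω ∧ Fx ω)
      (fun ω hω => by
        rw [hBg]
        by_cases h : Fx ω
        · exact Or.inr ⟨hω, h⟩
        · exact Or.inl ⟨hω, h⟩)
    have h2 : Pe F.p (fun ω => A ω ∧ Fx ω) ≤ κ' * Pe F.p A := by
      rw [hFxd]
      exact hFx
    have h3 : κ' * Pe F.p A ≤ 1 / 2 * Pe F.p A := mul_le_mul_of_nonneg_right hκ'1 hA.le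
    linarith
  have W₁ : WinB F c (k + f) D Dr N M C₀ a Eb ηm ow η σ lv bb (2 * |κ|) z Bg g₀ Gc H :=
    W₀.res (κ₁ := 1 / 2) hBgA hPBg (by positivity) (by linarith [le_abs_self κ])
  -- natural velocities
  obtain ⟨Y, hY⟩ : ∃ Y : ℕ, Y = Cf * Y₀ := ⟨_, rfl⟩
  have hYY : Y₀ ≤ Y := by rw [hY]; exact Nat.le_mul_of_pos_left _ (by omega)
  have hYYR : (Y₀ : ℝ) ≤ Y := by exact_mod_cast hYY
  have hfl : ⌊φ * (J : ℝ)⌋₊ ≤ Y₀ := by
    have h1 : (⌊φ * (J : ℝ)⌋₊ : ℝ) ≤ Y₀ := (Nat.floor_le hφJ).trans (by linarith)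
    exact_mod_cast h1
  have hnv : ∀ ω, Bg ω → ∀ t ≤ n, ∀ l ≤ k + f,
      |vel F c (Gc (fn t)) ω l| ≤ 2 ^ (⌊ow (fn t) * J⌋₊ + Y) / 2 ^ g₀ (fn t) l := by
    intro ω hω t ht l hl
    rw [hBg] at hω
    have h1 : ¬ E (t, l) ω := fun h2 => hω.2 (by
      rw [hFxd]
      refine ⟨(t, l), ?_, h2⟩
      rw [hs, Finset.mem_product, Finset.mem_range, Finset.mem_range]
      exact ⟨by show t < n + 1; omega, by show l < k + f + 1; omega⟩)
    rw [hE] at h1
    simp only [not_lt] at h1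
    have h2 := (W₀.ev (fn t) (T.fnN t ht)).cls ω hω.1 l (by omega)
    have h3 : vel F c (Gc (fn t)) ω l = F.d ω (c l) - ∑ o, bd F ω o * eval (bt F ω)
        (pderiv o (H (fn t) (slam F ⌊ow (fn t) * J⌋₊ ω) l)) := by
      unfold vel dd
      rw [h2]
      congr 1
      exact Finset.sum_congr rfl fun o _ => mul_comm _ _
    rw [h3]
    exact h1.trans (div_le_div_of_nonneg_right (pow_le_pow_right₀ (by norm_num) (by omega))
      (by positivity))
  -- the frame and the windows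
  have hC0 : C₀ * (ηm * J) ≤ Y₀ := by
    have h1 := mj T.C0
    have e1 : C₀ * ηm * (J : ℝ) = C₀ * (ηm * J) := by ring
    linarith
  have hnY : (n : ℝ) ≤ 2 ^ Y₀ ∧ (nb : ℝ) ≤ 2 ^ Y₀ := by
    have h1 : (Y₀ : ℝ) ≤ 2 ^ Y₀ := by exact_mod_cast Nat.lt_two_pow_self.le
    have h2 : 0 ≤ K₁ * Er := by positivity
    constructor <;> linarith
  have hY3 : 3 ≤ Y₀ := by
    have : (3 : ℝ) ≤ Y₀ := by
      have h2 : 0 ≤ K₁ * Er := by positivity
      linarith
    exact_mod_cast this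
  obtain ⟨κf, T₁⟩ := hfrm B (by linarith) T W₁ R hC0 hY3 hnY.2 (by linarith)
  rw [← hY] at T₁
  have hbeφ : (be + 4) * (φ * J) ≤ Y₀ := by
    have h1 : (be + 4) * (2 * (φ * J)) ≤ (be + 4) * ((k + 2) * (φ * J)) :=
      mul_le_mul_of_nonneg_left hkφ (by linarith)
    have h2 : 0 ≤ (be + 4) * (φ * J) := mul_nonneg (by linarith) hφJ
    linarith
  obtain ⟨jj, V⟩ := fbox_wds B hΛ hφu1 T R hnY.1 hbeφ
  have hV1 := fbox_v1 (J := J) B hΛ hφu1 T (Y := Y₀) (by linarith)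
  -- the gradients
  have hmub : ∀ s l a, |(mu s l).coeff a| ≤ 2 ^ Y₀ := by
    intro s l a
    refine (hKE.bd s l a).trans ?_
    rw [← Real.rpow_natCast]
    exact Real.rpow_le_rpow_of_exponent_le one_le_two (by linarith)
  have hmub' : ∀ s l a, |(mu s l).coeff a| ≤ 2 ^ Y := fun s l a =>
    (hmub s l a).trans (pow_le_pow_right₀ (by norm_num) hYY)
  -- the entropy
  unfold NtE
  intro Wn hWn1 hWn2
  have hwWn : ⌊w * (J : ℝ)⌋₊ ≤ Wn := hKE.w1.trans hWn1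
  have hWnJ : Wn ≤ J := by
    have h1 := mj (show w + 2 * φ ≤ 1 by linarith)
    have h2 : (Wn : ℝ) ≤ J := by linarith
    exact_mod_cast h2
  have hlab : ∀ ω, A ω → ∀ l ≤ k + f,
      chE Gc k fb fn (ptr F J ω) l = lbE H k fb fn b w (slam F ⌊w * J⌋₊ ω) l := by
    intro ω hω l hl
    unfold chE lbE hyb hybH
    split_ifs with h1
    · have h2 := (W₀.ev (fb 0) (T.fbN 0 (Nat.zero_le _))).cls ω hω l (by omega)
      rw [upw_slam F (Nat.floor_le_floor (mj hbw)) hfwJ, h2, T.ob]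
    · have h2 := (W₀.ev (fn 0) (T.fnN 0 (Nat.zero_le _))).cls ω hω l (by omega)
      rw [upw_slam F le_rfl hfwJ, h2, T.ow0]
  have hdegH : ∀ s l, (lbE H k fb fn b w s l).totalDegree ≤ D := by
    intro s l
    unfold lbE hybH
    split_ifs
    · exact (W₀.ev (fb 0) (T.fbN 0 (Nat.zero_le _))).ball.degH _ l
    · exact (W₀.ev (fn 0) (T.fnN 0 (Nat.zero_le _))).ball.degH _ l
  -- two samples with the same condition
  have hcond : ∀ ω ν, A ω → A ν →
      (npP F c k sn b w (u + 100 * yE k φ) fb fn H ω,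
        (sdP F c k f K Km ns ym b w u fb fn (g₀ (fn 0)) H Wm mu ω, (cR F A (ow (fn n)) ω, F.W ω))) =
      (npP F c k sn b w (u + 100 * yE k φ) fb fn H ν,
        (sdP F c k f K Km ns ym b w u fb fn (g₀ (fn 0)) H Wm mu ν, (cR F A (ow (fn n)) ν, F.W ν))) →
      F.t ω = F.t ν ∧ (∀ l ≤ k + f, chE Gc k fb fn (ptr F J ω) l = chE Gc k fb fn (ptr F J ν) l) ∧
      (∀ l ≤ k + f, Gc (fn n) (ptr F J ω) l = Gc (fn n) (ptr F J ν) l) ∧
      npP F c k sn b w (u + 100 * yE k φ) fb fn H ω =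
        npP F c k sn b w (u + 100 * yE k φ) fb fn H ν ∧
      sdP F c k f K Km ns ym b w u fb fn (g₀ (fn 0)) H Wm mu ω =
        sdP F c k f K Km ns ym b w u fb fn (g₀ (fn 0)) H Wm mu ν := by
    intro ω ν hω hν e
    simp only [Prod.mk.injEq] at e
    obtain ⟨e1, e2, e3, e4⟩ := e
    refine ⟨?_, fun l hl => ?_, fun l hl => ?_, e1, e2⟩
    · have h1 : F.T ω = F.T ν := (Prod.ext_iff.mp e4).1
      unfold Fam.t
      rw [h1]
    · exact cR_of (z := fun ω => chE Gc k fb fn (ptr F J ω) l)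
        (cl2_cht (G := chE Gc k fb fn) (H := lbE H k fb fn b w) w1 hn1
          fun ω hω => hlab ω hω l hl) e3
    · exact cR_of (z := fun ω => Gc (fn n) (ptr F J ω) l)
        (cl2_cht (G := Gc (fn n)) (H := H (fn n)) (le_refl (ow (fn n))) hn1
          fun ω hω => (W₀.ev (fn n) (T.fnN n le_rfl)).cls ω hω l (by omega)) e3
  obtain ⟨γ, hγ⟩ : ∃ γ : ℕ → ℕ, γ = g₀ (fn 0) := ⟨_, rfl⟩
  have hγ1 : ∀ l ≤ k + f, (γ l : ℝ) ≤ sn l w * J := by
    intro l hl
    have h1 := (W₀.g_num (T.fnN 0 (Nat.zero_le _)) hl).2.2.2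
    rw [T.lv _ (T.fnN 0 (Nat.zero_le _)) l hl, T.ow0] at h1
    rw [hγ]
    exact h1
  have hsn1 : ∀ l ≤ k + f, sn l w ≤ 1 := by
    intro l hl
    have h1 := T.Eb l hl
    have h2 := W₀.Eb0
    linarith
  have hγJ : ∀ l ≤ k + f, γ l ≤ J := by
    intro l hl
    have h1 := mj (hsn1 l hl)
    have h2 : (γ l : ℝ) ≤ J := by linarith [hγ1 l hl]
    exact_mod_cast h2
  have hY₀J : Y₀ ≤ J := by
    have h1 : u / 8 * (J : ℝ) ≤ 1 / 8 * J := mj (by linarith)
    have h2 : (Y₀ : ℝ) ≤ J := by linarith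
    exact_mod_cast h2
  have hq2J : q ≤ 2 * J := by
    have h1 : u / 8 * (J : ℝ) ≤ 1 / 8 * J := mj (by linarith)
    have h2 : u * (J : ℝ) ≤ 1 * J := mj hu1
    have h3 : (q : ℝ) ≤ (2 * J : ℕ) := by
      push_cast
      linarith
    exact_mod_cast h3
  have hmain := ch_off hcl (fun ω => ⌊(tpP F c k f K Km ns ym b w u φ fb fn (g₀ (fn 0)) H Wm mu Wn
      ω).derivative.eval (rt F Wn ω)⌋)
    (fun ω => (npP F c k sn b w (u + 100 * yE k φ) fb fn H ω,
        (sdP F c k f K Km ns ym b w u fb fn (g₀ (fn 0)) H Wm mu ω,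
          (cR F A (ow (fn n)) ω, F.W ω)))) Fx
    (B := 2 ^ (5 * J + (k + f + 2 * K + 2 * Km + 6)) + 1) (D := 2 ^ (Cp * Y) + 1)
    (fun ω ν hω hν e => ?_) (by positivity) (fun ω ν hω hν hxω hxν e => ?_)
  · -- the total
    have hlog1 : Real.log (2 * ((2 : ℝ) ^ (5 * J + (k + f + 2 * K + 2 * Km + 6)) + 1) + 1) ≤
        6 * J := by
      have h1 : 2 * ((2 : ℝ) ^ (5 * J + (k + f + 2 * K + 2 * Km + 6)) + 1) + 1 ≤
          2 ^ (5 * J + (k + f + 2 * K + 2 * Km + 9)) := by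
        have e1 : (2 : ℝ) ^ (5 * J + (k + f + 2 * K + 2 * Km + 9)) =
          8 * 2 ^ (5 * J + (k + f + 2 * K + 2 * Km + 6)) := by
          rw [show 5 * J + (k + f + 2 * K + 2 * Km + 9) =
            3 + (5 * J + (k + f + 2 * K + 2 * Km + 6)) by ring, pow_add]
          norm_num
        have e2 : (1 : ℝ) ≤ 2 ^ (5 * J + (k + f + 2 * K + 2 * Km + 6)) :=
          one_le_pow₀ (by norm_num)
        rw [e1]
        linarith
      refine (Real.log_le_log (by positivity) h1).trans ?_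
      rw [Real.log_pow]
      have h2 : ((5 * J + (k + f + 2 * K + 2 * Km + 9) : ℕ) : ℝ) ≤ 6 * J := by
        have h3 : ((c₁ : ℕ) : ℝ) ≤ J := hj1
        rw [hc₁] at h3
        push_cast at h3 ⊢
        linarith
      have h3 := Real.log_two_lt_d9
      have h4 : 0 < Real.log 2 := Real.log_pos one_lt_two
      calc ((5 * J + (k + f + 2 * K + 2 * Km + 9) : ℕ) : ℝ) * Real.log 2 ≤ 6 * J * 1 :=
            mul_le_mul h2 (by linarith) h4.le (by positivity)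
        _ = 6 * J := mul_one _
    have hlog2 : Real.log (2 * ((2 : ℝ) ^ (Cp * Y) + 1) + 1) ≤ Cp * Y + 3 := by
      have h1 : 2 * ((2 : ℝ) ^ (Cp * Y) + 1) + 1 ≤ 2 ^ (Cp * Y + 3) := by
        have e1 : (2 : ℝ) ^ (Cp * Y + 3) = 8 * 2 ^ (Cp * Y) := by
          rw [pow_add]
          ring
        have e2 : (1 : ℝ) ≤ 2 ^ (Cp * Y) := one_le_pow₀ (by norm_num)
        rw [e1]
        linarith
      refine (Real.log_le_log (by positivity) h1).trans ?_
      rw [Real.log_pow]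
      have h3 := Real.log_two_lt_d9
      have h4 : 0 < Real.log 2 := Real.log_pos one_lt_two
      have h5 : ((Cp * Y + 3 : ℕ) : ℝ) = Cp * Y + 3 := by push_cast; ring
      rw [h5]
      calc ((Cp : ℝ) * Y + 3) * Real.log 2 ≤ (Cp * Y + 3) * 1 :=
            mul_le_mul_of_nonneg_left (by linarith) (by positivity)
        _ = _ := mul_one _
    have hYb : (Cp : ℝ) * Y ≤ Cp * (Cf * (K₁ * Er)) + Cp * (Cf * (c₂ + 1)) := by
      have h1 : (Y : ℝ) = Cf * Y₀ := by rw [hY]; push_cast; ring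
      rw [h1, ← mul_add, ← mul_add]
      exact mul_le_mul_of_nonneg_left (mul_le_mul_of_nonneg_left (by linarith) (by linarith))
        (by linarith)
    have hl2 := Real.log_two_lt_d9
    have hlogn : 0 ≤ Real.log (2 * ((2 : ℝ) ^ (5 * J + (k + f + 2 * K + 2 * Km + 6)) + 1) + 1) :=
      Real.log_nonneg (by
        have : (0 : ℝ) < 2 ^ (5 * J + (k + f + 2 * K + 2 * Km + 6)) := by positivity
        linarith)
    have h1 : Pb (Pool.Agent.H49.Ent.cond F.p A True) Fx * Real.log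
        (2 * ((2 : ℝ) ^ (5 * J + (k + f + 2 * K + 2 * Km + 6)) + 1) + 1) ≤ δ * u / 16 * J := by
      calc Pb (Pool.Agent.H49.Ent.cond F.p A True) Fx * Real.log
            (2 * ((2 : ℝ) ^ (5 * J + (k + f + 2 * K + 2 * Km + 6)) + 1) + 1) ≤
            κ' * (6 * J) := mul_le_mul hPb hlog1 hlogn hκ'0.le
        _ ≤ δ * u / 96 * (6 * J) := mul_le_mul_of_nonneg_right hκ'2 (by positivity)
        _ = _ := by ring
    have h2 : 0 ≤ δ * u * J := by positivity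
    refine hmain.trans ?_
    linarith
  · -- all samples
    have hAω : A ω := of_cond_pos hω
    have hAν : A ν := of_cond_pos hν
    obtain ⟨e1, -, -, -, e5⟩ := hcond ω ν hAω hAν e
    have h1 := nte_abs (F := F) (c := c) (k := k) (i := k + f) (q := q) (w := ⌊w * J⌋₊) (Wm := Wm)
      (W := Wn) (K := K) (Km := Km) (YM := ⌊ym * u * J⌋₊) (D := D) (Y := Y₀)
      (N := nlE J ns u (g₀ (fn 0))) (γ := g₀ (fn 0)) (H := lbE H k fb fn b w) (mu := mu)
      (G₀ := chE Gc k fb fn) (A := A) hwWn hWn1 hWnJ (by omega) hdegH hDK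
      (fun ω hω l _ hl => hlab ω hω l hl) (fun ω hω l h1 h2 a => by
        have h3 := hcf l h1 h2 ω hω a
        rw [one_mul, Real.rpow_natCast] at h3
        refine le_trans (le_of_eq ?_) h3
        congr 2
        unfold dv lbE hybH
        simp only [if_neg (not_lt.2 h1), upw_slam F le_rfl hfwJ]) (fun ω hω l h1 h2 => by
        have h3 := (W₀.ev (fn 0) (T.fnN 0 (Nat.zero_le _))).ball.pos ω hω l (by omega)
        unfold hgt chE hyb
        rw [if_neg (not_lt.2 h1)]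
        refine h3.trans ?_
        rw [div_le_one (by positivity)]
        exact one_le_pow₀ (by norm_num)) hmub hY₀J hq2J (fun l _ hl => by
        have := hγJ l hl
        rw [hγ] at this
        exact this) hAω hAν e1 e5
    have h2 := fl_abs
      ((tpP F c k f K Km ns ym b w u φ fb fn (g₀ (fn 0)) H Wm mu Wn ω).derivative.eval (rt F Wn ω))
      ((tpP F c k f K Km ns ym b w u φ fb fn (g₀ (fn 0)) H Wm mu Wn ν).derivative.eval (rt F Wn ν))
    refine h2.trans (add_le_add ?_ le_rfl)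
    rw [hq] at h1
    exact h1
  · -- good samples
    have hAω : A ω := of_cond_pos hω
    have hAν : A ν := of_cond_pos hν
    have hBω : Bg ω := by rw [hBg]; exact ⟨hAω, hxω⟩
    have hBν : Bg ν := by rw [hBg]; exact ⟨hAν, hxν⟩
    obtain ⟨e1, e2, e3, e4, e5⟩ := hcond ω ν hAω hAν e
    have hnear : ∀ j < k, _ := fun j hj => near_hv (c := c) (G₀ := chE Gc k fb fn) hfwJ
      (fun l hl => hlab ω hAω l (by omega)) (fun l hl => hlab ν hAν l (by omega)) e4 hj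
    have hyJd : (u + 100 * yE k φ) * (J : ℝ) = u * J + 100 * yJ := by rw [hyJ]; ring
    have hh : ∀ j < k, |hgt F c (chE Gc k fb fn) ω j - hgt F c (chE Gc k fb fn) ν j| ≤
        2 ^ Y / 2 ^ (g₀ (fn 0) j + q) := by
      intro j hj
      refine (hnear j hj).1.trans ?_
      rw [rp_inv]
      refine rp_le ?_
      push_cast
      have h1 := hγ1 j (by omega)
      rw [hγ] at h1
      have e6 : (sn j w + (u + 100 * yE k φ)) * (J : ℝ) = sn j w * J + (u * J + 100 * yJ) := by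
        rw [add_mul, hyJd]
      rw [e6]
      linarith
    have hv : ∀ j < k, |vel F c (chE Gc k fb fn) ω j - vel F c (chE Gc k fb fn) ν j| ≤
        2 ^ (⌊w * J⌋₊ + Y) / 2 ^ (g₀ (fn 0) j + q) := by
      intro j hj
      refine (hnear j hj).2.trans ?_
      rw [rp_inv]
      refine rp_le ?_
      push_cast
      have h1 := hγ1 j (by omega)
      rw [hγ] at h1
      have e6 : (sn j w - w + (u + 100 * yE k φ)) * (J : ℝ) =
        sn j w * J - w * J + (u * J + 100 * yJ) := by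
        rw [add_mul, hyJd, sub_mul]
      rw [e6]
      have h2 := (Nat.lt_floor_add_one (w * (J : ℝ))).le
      linarith
    have hke : ∀ l, k ≤ l → l < k + f →
        |gnh F c (k + f) (g₀ (fn 0)) (chE Gc k fb fn) (Gc (fn n)) ν l -
          (mu (slam F Wm ν) l).eval (rt F Wm ν)| ≤ 2 ^ Y / 2 ^ ⌊ym * u * J⌋₊ := by
      intro l h1 h2
      refine (hKE.near n le_rfl ν hAν l h1 h2).trans ?_
      refine rp_le ?_
      have h3 : (⌊ym * u * (J : ℝ)⌋₊ : ℝ) ≤ ym * u * J := Nat.floor_le (by positivity)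
      have h4 : ym * (u * J) ≤ (be - al) * (u * J) :=
        mul_le_mul_of_nonneg_right hya (by positivity)
      have h5 : (be - al) * ((u - φ) * J) ≤ (be - al) * ((ow (fn n) - w) * J) :=
        mul_le_mul_of_nonneg_left (mj (by linarith)) (by linarith)
      have e6 : -(((be - al) * (ow (fn n) - w) - eK * u) * (J : ℝ)) =
        -((be - al) * ((ow (fn n) - w) * J)) + eK * u * J := by ring
      have e7 : (be - al) * ((u - φ) * (J : ℝ)) = (be - al) * (u * J) - (be - al) * (φ * J) := by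
        ring
      have e8 : ym * u * (J : ℝ) = ym * (u * J) := by ring
      have h6 : (be - al) * (φ * J) ≤ (be + 4) * (φ * J) :=
        mul_le_mul_of_nonneg_right (by linarith) hφJ
      have h7 : (be + 4) * (2 * (φ * J)) ≤ (be + 4) * ((k + 2) * (φ * J)) :=
        mul_le_mul_of_nonneg_left hkφ (by linarith)
      have h8 : (be + 4) * (φ * J) + Er ≤ K₁ * Er + c₂ := by
        have a1 : Er ≤ 1 / 4 * (K₁ * Er) := by
          have a2 : 4 * Er ≤ K₁ * Er := mul_le_mul_of_nonneg_right (by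
            rw [hK₁]
            nlinarith) hEr0
          linarith
        have a3 : 0 ≤ (be + 4) * (φ * J) := mul_nonneg (by linarith) hφJ
        have a4 : 0 ≤ K₁ * Er := by positivity
        linarith
      rw [e6]
      rw [e7] at h5
      linarith
    have hqn : q ≤ ⌊ym * u * (J : ℝ)⌋₊ + ⌊ns * u * (J : ℝ)⌋₊ + Y := by
      have h1 := (Nat.lt_floor_add_one (ym * u * (J : ℝ))).le
      have h2 := (Nat.lt_floor_add_one (ns * u * (J : ℝ))).le
      have h3 : 1 * (u * J) ≤ (ns + ym) * (u * J) := mul_le_mul_of_nonneg_right hny (by positivity)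
      have h4 : (ns + ym) * (u * (J : ℝ)) = ns * u * J + ym * u * J := by ring
      have h5 : (q : ℝ) ≤ ((⌊ym * u * (J : ℝ)⌋₊ + ⌊ns * u * (J : ℝ)⌋₊ + Y : ℕ) : ℝ) := by
        push_cast
        linarith
      exact_mod_cast h5
    have hw2 : Wm ≤ ⌊w * (J : ℝ)⌋₊ + Y := by
      have h1 := hKE.w2
      have h2 := (Nat.lt_floor_add_one (w * (J : ℝ))).le
      have h3 : (w + φ / 2) * (J : ℝ) = w * J + φ * J / 2 := by ring
      have h4 : (Wm : ℝ) ≤ ((⌊w * (J : ℝ)⌋₊ + Y : ℕ) : ℝ) := by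
        push_cast
        linarith
      exact_mod_cast h4
    have hal2 : (al + 2) * (φ * J) ≤ (be + 2) * (φ * J) :=
      mul_le_mul_of_nonneg_right (by linarith) hφJ
    have hk2 : (be + 4) * (((k : ℝ) + 2) * (φ * J)) * 2001 ≤ K₁ * Er := by linarith
    have hkk : (al + 2) * (((k : ℝ) + 2) * (φ * J)) ≤ (be + 4) * ((k + 2) * (φ * J)) :=
      mul_le_mul_of_nonneg_right (by linarith) hkφ0
    have hq3 : (al + 2) * ((ow (fn n) - ow (fn 0)) * J) ≤ (al + 2) * q + Y := by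
      rw [how]
      have h1 : (al + 2) * ((ow (fn n) - w) * J) ≤ (al + 2) * ((u + φ) * J) :=
        mul_le_mul_of_nonneg_left (mj (by linarith)) (by linarith)
      have h2 : (al + 2) * (u * J + 500 * yJ) ≤ (al + 2) * (q + 1) :=
        mul_le_mul_of_nonneg_left hq2 (by linarith)
      have h3 : 0 ≤ (al + 2) * (500 * yJ) := by positivity
      have e6 : (al + 2) * ((u + φ) * (J : ℝ)) = (al + 2) * (u * J) + (al + 2) * (φ * J) := by ring
      have e7 : (al + 2) * (u * (J : ℝ) + 500 * yJ) = (al + 2) * (u * J) + (al + 2) * (500 * yJ) := by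
        ring
      have e8 : (al + 2) * ((q : ℝ) + 1) = (al + 2) * q + (al + 2) := by ring
      rw [e6] at h1
      rw [e7, e8] at h2
      have h4 : (be + 2) * (φ * J) ≤ (be + 4) * (φ * J) :=
        mul_le_mul_of_nonneg_right (by linarith) hφJ
      have h7 : (be + 4) * (2 * (φ * J)) ≤ (be + 4) * ((k + 2) * (φ * J)) :=
        mul_le_mul_of_nonneg_left hkφ (by linarith)
      have h9 : 0 ≤ (be + 4) * (φ * J) := mul_nonneg (by linarith) hφJ
      linarith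
    have hq4 : (al + 2) * q ≤ (al + 2) * ((ow (fn n) - ow (fn 0)) * J) + Y := by
      rw [how]
      have h1 : (al + 2) * ((u - φ) * J) ≤ (al + 2) * ((ow (fn n) - w) * J) :=
        mul_le_mul_of_nonneg_left (mj (by linarith)) (by linarith)
      have h2 : (al + 2) * q ≤ (al + 2) * (u * J + 500 * yJ) :=
        mul_le_mul_of_nonneg_left hq1 (by linarith)
      have e6 : (al + 2) * ((u - φ) * (J : ℝ)) = (al + 2) * (u * J) - (al + 2) * (φ * J) := by ring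
      have e7 : (al + 2) * (u * (J : ℝ) + 500 * yJ) = (al + 2) * (u * J) + (al + 2) * (500 * yJ) := by
        ring
      have e8 : (al + 2) * (500 * yJ) = 2000 * ((al + 2) * ((k + 2) * (φ * J))) := by
        rw [hyJe]
        ring
      rw [e6] at h1
      rw [e7] at h2
      have h7 : (al + 2) * (2 * (φ * J)) ≤ (al + 2) * ((k + 2) * (φ * J)) :=
        mul_le_mul_of_nonneg_left hkφ (by linarith)
      have h9 : 0 ≤ (al + 2) * (φ * J) := mul_nonneg (by linarith) hφJ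
      linarith
    have h1 := hpair W₁ (κ' := κf) (fb := fb) (fn := fn) (jj := jj) (n := n) (q := q) (Y := Y)
      (al := al) (be := be) T₁ B.lad.inj hDK (V.mono hYY) (hC0.trans hYYR) (by omega) hal hbe
      (fun a b hab hb l hl => (hV1 a b hab hb l hl).trans (by linarith)) hq3 hq4 hnv
      (Wm := Wm) (W := Wn) (YM := ⌊ym * u * J⌋₊) (Nn := ⌊ns * u * J⌋₊) (X₁ := ⌊ym * u * J⌋₊)
      (b := b) (w := w) (mu := mu) how (T.fnN 0 (Nat.zero_le _)) (T.fbN 0 (Nat.zero_le _)) hwWn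
      hWn1 hWnJ hw2 hKE.deg hmub' ω ν hBω hBν e1 e2 e3 hh hv e5 hke hqn hqn
    have h2 := fl_abs
      ((tpP F c k f K Km ns ym b w u φ fb fn (g₀ (fn 0)) H Wm mu Wn ω).derivative.eval (rt F Wn ω))
      ((tpP F c k f K Km ns ym b w u φ fb fn (g₀ (fn 0)) H Wm mu Wn ν).derivative.eval (rt F Wn ν))
    refine h2.trans (add_le_add ?_ le_rfl)
    rw [hq] at h1
    refine (le_trans (le_of_eq ?_) h1).trans ?_
    · rfl
    · rw [div_le_iff₀ (by positivity), ← pow_add]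
      exact pow_le_pow_right₀ (by norm_num) (by omega)

end Pool.EN91
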