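import Pool.Agent.H91.EN.Nvl
import Pool.Agent.H91.EN.Fw

/-!
# The derivative of the path of the target: two samples with the same near path

`near_hv`: near heights and velocities from the digits of the near path. `nte_pair`: the derivatives of
the path of the target at two samples with the same near path, side path and charts. `nte_abs`: a rough
bound.
-/

set_option autoImplicit false

namespace Pool.EN91

open Finset Real MvPolynomial
open Pool.Agent.H49.Ent Pool.Agent.H32.Dense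
open Pool.STK hiding pr2
open Pool.KA Pool.KSAT Pool.K2S Pool.PB Pool.S6C
open Pool.GEN Pool.CHT Pool.CHX Pool.ISO Pool.LA91 Pool.AVG71 Pool.AVG5 Pool.D2F2 Pool.AVG57
open Pool.AVG66 Pool.RCD Pool.AVG96 Pool.V0F Pool.V0S Pool.VW33
open Pool.T4C72 (WnT RadT)
open Pool.AJW (CfB)
open Pool.BFL (Pb)
open Pool.D2R (WinB hgt gnh dd hyb hybH)
open Pool.PB.Trl (rt rt_mem t_rt)

variable {m J : ℕ}

/-- A union bound. -/
theorem pe_un {Ω ι : Type} [Fintype Ω] {p : Ω → ℝ} (h0 : ∀ ω, 0 ≤ p ω) (A : Ω → Prop)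
    (s : Finset ι) (E : ι → Ω → Prop) {x : ℝ}
    (h : ∀ i ∈ s, Pe p (fun ω => A ω ∧ E i ω) ≤ x) :
    Pe p (fun ω => A ω ∧ ∃ i ∈ s, E i ω) ≤ s.card * x := by
  classical
  have h1 : Pe p (fun ω => A ω ∧ ∃ i ∈ s, E i ω) ≤ ∑ i ∈ s, Pe p (fun ω => A ω ∧ E i ω) := by
    rw [Pool.K2S.Pe_eq, Finset.sum_congr rfl fun i (_ : i ∈ s) =>
      Pool.K2S.Pe_eq p (fun ω => A ω ∧ E i ω), Finset.sum_comm]
    refine Finset.sum_le_sum fun ω _ => ?_
    split_ifs with h2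
    · obtain ⟨h3, i, hi, h4⟩ := h2
      have h5 := Finset.single_le_sum (f := fun i => if A ω ∧ E i ω then p ω else 0)
        (fun i _ => by
          show 0 ≤ if A ω ∧ E i ω then p ω else 0
          split_ifs
          · exact h0 ω
          · exact le_rfl) hi
      simp only [h3, h4, and_self, if_true] at h5
      refine h5.trans (le_of_eq ?_)
      exact Finset.sum_congr rfl fun j _ => by simp only [h3, true_and]
    · exact Finset.sum_nonneg fun i _ => by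
        split_ifs
        · exact h0 ω
        · exact le_rfl
  refine h1.trans ((Finset.sum_le_sum h).trans (le_of_eq ?_))
  rw [Finset.sum_const, nsmul_eq_mul]

/-- The velocity as a jet. -/
theorem vel_ojet {F : Fam m J} {c : ℕ → Fin m} {w l : ℕ}
    {H : LnT F → ℕ → MvPolynomial (Option (Fin m)) ℝ}
    {G₀ : PtT F → ℕ → MvPolynomial (Option (Fin m)) ℝ} {ω : F.Ω}
    (h : G₀ (ptr F J ω) l = H (slam F w ω) l) :
    vel F c G₀ ω l = ojet F (c l) 1 (H (slam F w ω) l) ω := by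
  classical
  unfold vel ojet
  rw [jet_sub, Pool.LA91.jet_one, Pool.LA91.jet_one, ← h]
  have e1 : ∑ o, bd F ω o * eval (bt F ω) (pderiv o (X (some (c l)))) = F.d ω (c l) := by
    rw [Finset.sum_eq_single (some (c l))]
    · rw [pderiv_X_self, map_one, mul_one]
      rfl
    · intro o _ ho
      rw [pderiv_X_of_ne (Ne.symm ho), map_zero, mul_zero]
    · intro h
      exact absurd (Finset.mem_univ _) h
  rw [e1]
  unfold dd
  congr 1
  exact Finset.sum_congr rfl fun o _ => mul_comm _ _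

/-- **Near heights and velocities** from the digits of the near path. -/
theorem near_hv {F : Fam m J} {c : ℕ → Fin m} {k : ℕ} {sn : ℕ → ℝ → ℝ} {w d : ℝ}
    {H : LnT F → ℕ → MvPolynomial (Option (Fin m)) ℝ}
    {G₀ : PtT F → ℕ → MvPolynomial (Option (Fin m)) ℝ} {ω ν : F.Ω} (hw : ⌊w * J⌋₊ ≤ J)
    (hω : ∀ l < k, G₀ (ptr F J ω) l = H (slam F ⌊w * J⌋₊ ω) l)
    (hν : ∀ l < k, G₀ (ptr F J ν) l = H (slam F ⌊w * J⌋₊ ν) l)
    (e : nrP F c k sn H w d ω = nrP F c k sn H w d ν) {l : ℕ} (hl : l < k) :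
    |hgt F c G₀ ω l - hgt F c G₀ ν l| ≤ 1 / 2 ^ ((sn l w + d) * J) ∧
    |vel F c G₀ ω l - vel F c G₀ ν l| ≤ 1 / 2 ^ ((sn l w - w + d) * J) := by
  unfold nrP at e
  obtain ⟨e1, e2⟩ := Prod.ext_iff.mp e
  constructor
  · have h1 := congrFun (congrFun e1 l) 0
    unfold jh at h1
    simp only [hl, and_self, if_true] at h1
    rw [← hgt_ojet hw (hω l hl), ← hgt_ojet hw (hν l hl)] at h1
    exact Pool.AVG5.of_fl (Real.rpow_pos_of_pos two_pos _) h1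
  · have h1 := congrFun e2 ⟨l, hl⟩
    unfold jv at h1
    simp only at h1
    rw [← vel_ojet (c := c) (hω l hl), ← vel_ojet (c := c) (hν l hl)] at h1
    exact Pool.AVG5.of_fl (Real.rpow_pos_of_pos two_pos _) h1

/-- **Two samples with the same near path.** -/
theorem nte_pair (D k f K Km : ℕ) : ∃ C : ℕ, 1 ≤ C ∧ ∀ {m J : ℕ} {F : Fam m J} {c : ℕ → Fin m}
    {Dr N M : ℕ} {C₀ a Eb ηm : ℝ} {ow η σ : ℕ → ℝ} {lv bb : ℕ → ℕ → ℝ}
    {κ : ℝ} {z : ℕ → ℕ → ℕ} {B : F.Ω → Prop} {g₀ : ℕ → ℕ → ℕ}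
    {Gc : ℕ → PtT F → ℕ → MvPolynomial (Option (Fin m)) ℝ}
    {H : ℕ → LnT F → ℕ → MvPolynomial (Option (Fin m)) ℝ}
    (_ : WinB F c (k + f) D Dr N M C₀ a Eb ηm ow η σ lv bb κ z B g₀ Gc H)
    {κ' : F.Ω → ℕ → ℝ} {fb fn jj : ℕ → ℕ} {n q Y : ℕ} {al be : ℝ},
    Frm F c k (k + f) D Y B (Gc (fn 0)) (g₀ (fn 0)) ⌊ow (fn 0) * J⌋₊ (chE Gc k fb fn) κ' →
    Set.InjOn c (Set.Iio (k + f + 1)) → D + 1 ≤ K →
    WDs ow lv z J N M fn jj n k (k + f) Y al be → C₀ * (ηm * J) ≤ Y → 3 ≤ Y → 1 ≤ al → 2 ≤ be →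
    (∀ a b, a ≤ b → b ≤ n → ∀ l < k,
      (lv (fn b) l - lv (fn a) l) * J ≤ (ow (fn b) - ow (fn a)) * J + Y) →
    (al + 2) * ((ow (fn n) - ow (fn 0)) * J) ≤ (al + 2) * q + Y →
    (al + 2) * q ≤ (al + 2) * ((ow (fn n) - ow (fn 0)) * J) + Y →
    (∀ ω, B ω → ∀ a ≤ n, ∀ l ≤ k + f,
      |vel F c (Gc (fn a)) ω l| ≤ 2 ^ (⌊ow (fn a) * J⌋₊ + Y) / 2 ^ g₀ (fn a) l) →
    ∀ {Wm W YM Nn X₁ : ℕ} {b w : ℝ} {mu : LnT F → ℕ → Polynomial ℝ}, ow (fn 0) = w →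
    fn 0 ≤ N → fb 0 ≤ N →
    ⌊w * J⌋₊ ≤ W → Wm ≤ W → W ≤ J →
    Wm ≤ ⌊w * J⌋₊ + Y → (∀ s l, (mu s l).natDegree ≤ Km) →
    (∀ s l a, |(mu s l).coeff a| ≤ 2 ^ Y) →
    ∀ ω ν, B ω → B ν → F.t ω = F.t ν →
    (∀ l ≤ k + f, chE Gc k fb fn (ptr F J ω) l = chE Gc k fb fn (ptr F J ν) l) →
    (∀ l ≤ k + f, Gc (fn n) (ptr F J ω) l = Gc (fn n) (ptr F J ν) l) →
    (∀ j < k, |hgt F c (chE Gc k fb fn) ω j - hgt F c (chE Gc k fb fn) ν j| ≤
      2 ^ Y / 2 ^ (g₀ (fn 0) j + q)) →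
    (∀ j < k, |vel F c (chE Gc k fb fn) ω j - vel F c (chE Gc k fb fn) ν j| ≤
      2 ^ (⌊w * J⌋₊ + Y) / 2 ^ (g₀ (fn 0) j + q)) →
    sdE F c k (k + f) ⌊w * J⌋₊ Wm K Km YM (fun l => g₀ (fn 0) l + Nn) (lbE H k fb fn b w) mu ω =
      sdE F c k (k + f) ⌊w * J⌋₊ Wm K Km YM (fun l => g₀ (fn 0) l + Nn)
        (lbE H k fb fn b w) mu ν →
    (∀ l, k ≤ l → l < k + f → |gnh F c (k + f) (g₀ (fn 0)) (chE Gc k fb fn) (Gc (fn n)) ν l -
      (mu (slam F Wm ν) l).eval (rt F Wm ν)| ≤ 2 ^ Y / 2 ^ X₁) →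
    q ≤ X₁ + Nn + Y → q ≤ YM + Nn + Y →
    |(tpE F c k (k + f) q ⌊w * J⌋₊ Wm K Km YM (fun l => g₀ (fn 0) l + Nn) (g₀ (fn 0))
        (lbE H k fb fn b w) mu W ω).derivative.eval (rt F W ω) -
      (tpE F c k (k + f) q ⌊w * J⌋₊ Wm K Km YM (fun l => g₀ (fn 0) l + Nn) (g₀ (fn 0))
        (lbE H k fb fn b w) mu W ν).derivative.eval (rt F W ν)| ≤
      2 ^ (⌊w * J⌋₊ + C * Y) / 2 ^ W := by
  obtain ⟨C₁, hC₁, hnat⟩ := tpe_nat D (k + f) Km
  refine ⟨C₁ + (2 * K + Km + 6), by omega, ?_⟩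
  intro m J F c Dr N M C₀ a Eb ηm ow η σ lv bb κ z B g₀ Gc H W₀ κ' fb fn jj n q Y al be T hc hDK V
    hY hY3 hal hbe hV1 hq1 hq2 hnv Wm W YM Nn X₁ b w mu how hfn hfb hwW hwm hW hWmY hmud
    hmub ω ν hω hν ht hG' hGn hh hv hsd hke hx1 hx2
  have hwJ : ⌊w * J⌋₊ ≤ J := hwW.trans hW
  -- the labels are closed
  have hcl : ∀ ω, B ω → ∀ l, k ≤ l → l ≤ k + f →
      chE Gc k fb fn (ptr F J ω) l = lbE H k fb fn b w (slam F ⌊w * J⌋₊ ω) l := by
    intro ω hω l h1 h2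
    unfold chE lbE hyb hybH
    rw [if_neg (not_lt.2 h1), if_neg (not_lt.2 h1), upw_slam F le_rfl hwJ]
    have h3 := (W₀.ev (fn 0) hfn).cls ω hω l (by omega)
    rw [how] at h3
    exact h3
  have hdH : ∀ s l, (lbE H k fb fn b w s l).totalDegree ≤ D := by
    intro s l
    unfold lbE hybH
    split_ifs
    · exact (W₀.ev (fb 0) hfb).ball.degH _ l
    · exact (W₀.ev (fn 0) hfn).ball.degH _ l
  obtain ⟨Z, hZ⟩ : ∃ Z : ℕ, Z = 2 * Y + (2 * K + Km + 3) := ⟨_, rfl⟩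
  -- the followers
  have hpr : ∀ l, k ≤ l → l < k + f →
      |gnh F c (k + f) (g₀ (fn 0)) (chE Gc k fb fn) (Gc (fn n)) ν l -
        (mcE F Wm Km YM mu l ν).eval (rt F Wm ν)| *
      |vel F c (chE Gc k fb fn) ω l - vel F c (chE Gc k fb fn) ν l| ≤
        2 ^ (⌊w * J⌋₊ + Z) / 2 ^ (g₀ (fn 0) l + q) := by
    intro l hkl hli
    have h1 : |gnh F c (k + f) (g₀ (fn 0)) (chE Gc k fb fn) (Gc (fn n)) ν l -
        (mcE F Wm Km YM mu l ν).eval (rt F Wm ν)| ≤ 2 ^ Y / 2 ^ X₁ + (Km + 1) * (1 / 2 ^ YM) := by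
      have h2 := hke l hkl hli
      have h3 : |(mu (slam F Wm ν) l).eval (rt F Wm ν) -
          (mcE F Wm Km YM mu l ν).eval (rt F Wm ν)| ≤ (Km + 1) * (1 / 2 ^ YM) :=
        rnd_eval (hmud _ _) (rt_mem F Wm ν)
      have e1 : gnh F c (k + f) (g₀ (fn 0)) (chE Gc k fb fn) (Gc (fn n)) ν l -
        (mcE F Wm Km YM mu l ν).eval (rt F Wm ν) =
        (gnh F c (k + f) (g₀ (fn 0)) (chE Gc k fb fn) (Gc (fn n)) ν l -
          (mu (slam F Wm ν) l).eval (rt F Wm ν)) + ((mu (slam F Wm ν) l).eval (rt F Wm ν) -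
          (mcE F Wm Km YM mu l ν).eval (rt F Wm ν)) := by ring
      rw [e1]
      exact (abs_add_le _ _).trans (add_le_add h2 h3)
    have h2 : |vel F c (chE Gc k fb fn) ω l - vel F c (chE Gc k fb fn) ν l| ≤
        2 ^ ⌊w * J⌋₊ * ((K + 1) ^ 2 * (1 / 2 ^ (g₀ (fn 0) l + Nn))) := by
      refine vel_cod hwJ hdH hDK ht (hcl ω hω l hkl hli.le) (hcl ν hν l hkl hli.le) ?_
      obtain ⟨e1, -⟩ := Prod.ext_iff.mp hsd
      have e3 := congrFun e1 l
      unfold sdE at e3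
      simp only [hkl, hli, and_self, if_true] at e3
      funext a
      exact congrFun e3 a
    refine (mul_le_mul h1 h2 (abs_nonneg _) (by positivity)).trans ?_
    -- the numbers
    have hK1 : ((K : ℝ) + 1) ^ 2 ≤ 2 ^ (2 * K) := by
      have h7 : ((K : ℝ) + 1) ≤ 2 ^ K := by
        have : K + 1 ≤ 2 ^ K := K.lt_two_pow_self
        exact_mod_cast this
      calc ((K : ℝ) + 1) ^ 2 ≤ (2 ^ K) ^ 2 := pow_le_pow_left₀ (by positivity) h7 2
        _ = _ := by rw [← pow_mul, mul_comm]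
    have hKm : ((Km : ℝ) + 1) ≤ 2 ^ Km := by
      have : Km + 1 ≤ 2 ^ Km := Km.lt_two_pow_self
      exact_mod_cast this
    have p1 : (2 : ℝ) ^ Y / 2 ^ X₁ ≤ 2 ^ (2 * Y + Nn) / 2 ^ q := by
      rw [div_le_div_iff₀ (by positivity) (by positivity), ← pow_add, ← pow_add]
      exact pow_le_pow_right₀ (by norm_num) (by omega)
    have p2 : ((Km : ℝ) + 1) * (1 / 2 ^ YM) ≤ 2 ^ (2 * Y + Nn + Km) / 2 ^ q := by
      rw [mul_one_div, div_le_div_iff₀ (by positivity) (by positivity)]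
      calc ((Km : ℝ) + 1) * 2 ^ q ≤ 2 ^ Km * 2 ^ q :=
            mul_le_mul_of_nonneg_right hKm (by positivity)
        _ = 2 ^ (Km + q) := (pow_add _ _ _).symm
        _ ≤ 2 ^ ((2 * Y + Nn + Km) + YM) := pow_le_pow_right₀ (by norm_num) (by omega)
        _ = _ := pow_add _ _ _
    have p3 : (2 : ℝ) ^ (2 * Y + Nn) / 2 ^ q ≤ 2 ^ (2 * Y + Nn + Km) / 2 ^ q :=
      div_le_div_of_nonneg_right (pow_le_pow_right₀ (by norm_num) (by omega)) (by positivity)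
    have p4 : (2 : ℝ) ^ Y / 2 ^ X₁ + (Km + 1) * (1 / 2 ^ YM) ≤
        2 ^ (2 * Y + Nn + Km + 1) / 2 ^ q := by
      rw [pow_succ _ (2 * Y + Nn + Km), mul_div_right_comm]
      linarith
    have p5 : (2 : ℝ) ^ ⌊w * (J : ℝ)⌋₊ * ((K + 1) ^ 2 * (1 / 2 ^ (g₀ (fn 0) l + Nn))) ≤
        2 ^ (⌊w * J⌋₊ + 2 * K) / 2 ^ (g₀ (fn 0) l + Nn) := by
      rw [pow_add _ ⌊w * (J : ℝ)⌋₊, mul_div_assoc]
      refine mul_le_mul_of_nonneg_left ?_ (by positivity)
      rw [mul_one_div]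
      exact div_le_div_of_nonneg_right hK1 (by positivity)
    refine (mul_le_mul p4 p5 (by positivity) (by positivity)).trans ?_
    rw [div_mul_div_comm, ← pow_add, ← pow_add,
      div_le_div_iff₀ (by positivity) (by positivity), ← pow_add, ← pow_add]
    refine pow_le_pow_right₀ (by norm_num) ?_
    omega
  have hmain := hnat W₀ (G' := chE Gc k fb fn) (κ' := κ') (f := fn) (jj := jj) (n := n) (k := k)
    (i := k + f) (q := q) (u := ⌈(max 2 al - al) * q⌉₊) (Y := Y) (s := al) (σ' := be) T hc le_rfl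
    (by omega) V hY hY3 hal hbe hV1 hq1 hq2 (Nat.le_ceil _) hnv (Wm := Wm) (W := W) (K := K)
    (YM := YM) (Nl := fun l => g₀ (fn 0) l + Nn) (H' := lbE H k fb fn b w) (mu := mu)
    (by rw [how]; exact hwW) hwm hW (by rw [how]; exact hWmY) (fun ω _ l a => hmub _ l a)
    (fun ω hω l h1 h2 => by rw [how]; exact hcl ω hω l h1 h2) ω ν hω hν ht hG' hGn hh
    (by rw [how]; exact hv) (by rw [how]; exact hsd) Z (by rw [how]; exact hpr)
  rw [how] at hmain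
  refine hmain.trans (div_le_div_of_nonneg_right (pow_le_pow_right₀ (by norm_num) ?_)
    (by positivity))
  have e1 : (C₁ + (2 * K + Km + 6)) * Y = C₁ * Y + (2 * K + Km + 3) * Y + 3 * Y := by ring
  have e2 : 2 * K + Km + 3 ≤ (2 * K + Km + 3) * Y := Nat.le_mul_of_pos_right _ (by omega)
  rw [hZ, e1]
  omega

/-- **A rough bound** for all samples. -/
theorem nte_abs {F : Fam m J} {c : ℕ → Fin m} {k i q w Wm W K Km YM D Y : ℕ} {N γ : ℕ → ℕ}
    {H : LnT F → ℕ → MvPolynomial (Option (Fin m)) ℝ} {mu : LnT F → ℕ → Polynomial ℝ}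
    {G₀ : PtT F → ℕ → MvPolynomial (Option (Fin m)) ℝ} {A : F.Ω → Prop} (hw : w ≤ W)
    (hwm : Wm ≤ W) (hW : W ≤ J) (hki : k ≤ i) (hH : ∀ s l, (H s l).totalDegree ≤ D)
    (hK : D + 1 ≤ K) (hcl : ∀ ω, A ω → ∀ l, k ≤ l → l ≤ i → G₀ (ptr F J ω) l = H (slam F w ω) l)
    (hcf : ∀ ω, A ω → ∀ l, k ≤ l → l ≤ i → ∀ a : ℕ,
      |(dv w (fun s (_ : Fin m) => H s l) (c l) (slam F w ω)).coeff a| ≤ 2 ^ J)
    (hht : ∀ ω, A ω → ∀ l, k ≤ l → l ≤ i → |hgt F c G₀ ω l| ≤ 1)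
    (hmub : ∀ s l a, |(mu s l).coeff a| ≤ 2 ^ Y) (hYJ : Y ≤ J) (hq : q ≤ 2 * J)
    (hγ : ∀ l, k ≤ l → l ≤ i → γ l ≤ J) {ω ν : F.Ω} (hω : A ω) (hν : A ν) (ht : F.t ω = F.t ν)
    (e : sdE F c k i w Wm K Km YM N H mu ω = sdE F c k i w Wm K Km YM N H mu ν) :
    |(tpE F c k i q w Wm K Km YM N γ H mu W ω).derivative.eval (rt F W ω) -
      (tpE F c k i q w Wm K Km YM N γ H mu W ν).derivative.eval (rt F W ν)| ≤
      2 ^ (5 * J + (i + 2 * K + 2 * Km + 6)) := by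
  have hK1 : ((K : ℝ) + 1) ^ 2 ≤ 2 ^ (2 * K) := by
    have h7 : ((K : ℝ) + 1) ≤ 2 ^ K := by
      have : K + 1 ≤ 2 ^ K := K.lt_two_pow_self
      exact_mod_cast this
    calc ((K : ℝ) + 1) ^ 2 ≤ (2 ^ K) ^ 2 := pow_le_pow_left₀ (by positivity) h7 2
      _ = _ := by rw [← pow_mul, mul_comm]
  have hKm : ((Km : ℝ) + 1) ≤ 2 ^ Km := by
    have : Km + 1 ≤ 2 ^ Km := Km.lt_two_pow_self
    exact_mod_cast this
  have hKm2 : ((Km : ℝ) + 1) ^ 2 ≤ 2 ^ (2 * Km) := by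
    calc ((Km : ℝ) + 1) ^ 2 ≤ (2 ^ Km) ^ 2 := pow_le_pow_left₀ (by positivity) hKm 2
      _ = _ := by rw [← pow_mul, mul_comm]
  have hY1 : (2 : ℝ) ^ Y + 1 ≤ 2 ^ (J + 1) := by
    have h1 : (1 : ℝ) ≤ 2 ^ Y := one_le_pow₀ (by norm_num)
    have h2 : (2 : ℝ) ^ Y ≤ 2 ^ J := pow_le_pow_right₀ (by norm_num) hYJ
    rw [pow_succ]
    linarith
  have hwJ := hw.trans hW
  -- the velocities
  have hv : ∀ ω, A ω → ∀ l, k ≤ l → l ≤ i → |vel F c G₀ ω l| ≤ 2 ^ (w + 2 * K + J) := by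
    intro ω hω l h1 h2
    have h3 := der_le (P := dv w (fun s (_ : Fin m) => H s l) (c l) (slam F w ω)) (K := K)
      ((natDegree_dv w (fun s _ => hH _ _) _ _).trans hK) (rt_mem F w ω)
      (fun a => hcf ω hω l h1 h2 a)
    have h4 : (dv w (fun s (_ : Fin m) => H s l) (c l) (slam F w ω)).derivative.eval
        (rt F w ω) = 1 / 2 ^ w * vel F c G₀ ω l := by
      show (dv w (fun s (_ : Fin m) => H s l) (c l) (slam F w ω)).derivative.eval (rt F w ω) = _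
      rw [der_dv F hwJ (fun s (_ : Fin m) => H s l) ω (c l), ← hcl ω hω l h1 h2]
      unfold vel dd
      congr 2
      exact Finset.sum_congr rfl fun o _ => mul_comm _ _
    rw [h4, abs_mul, abs_of_pos (by positivity : (0 : ℝ) < 1 / 2 ^ w), one_div,
      inv_mul_le_iff₀ (by positivity)] at h3
    refine h3.trans ?_
    rw [pow_add, pow_add, mul_assoc]
    exact mul_le_mul_of_nonneg_left (mul_le_mul_of_nonneg_right hK1 (by positivity))
      (by positivity)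
  have hdv : ∀ l, k ≤ l → l ≤ i → |vel F c G₀ ω l - vel F c G₀ ν l| ≤
      2 ^ (w + 2 * K + J + 1) := by
    intro l h1 h2
    refine (abs_sub _ _).trans ((add_le_add (hv ω hω l h1 h2) (hv ν hν l h1 h2)).trans
      (le_of_eq ?_))
    rw [pow_succ]
    ring
  have hdh : ∀ l, k ≤ l → l ≤ i → |hgt F c G₀ ω l - hgt F c G₀ ν l| ≤ 2 := by
    intro l h1 h2
    refine (abs_sub _ _).trans ((add_le_add (hht ω hω l h1 h2) (hht ν hν l h1 h2)).trans
      (le_of_eq ?_))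
    norm_num
  rw [tpE_der_sub hw hwm hW hki ht (hcl ω hω) (hcl ν hν) e]
  have hm0 : ∀ l, |(mcE F Wm Km YM mu l ω).eval (rt F Wm ω)| ≤ 2 ^ (Km + (J + 1)) := by
    intro l
    have h1 := eval_le_of (K := Km) (rnd_deg (N := YM) (K := Km) (P := mu (slam F Wm ω) l))
      (rt_mem F Wm ω) (rnd_abs (N := YM) (K := Km) (fun a => hmub (slam F Wm ω) l a))
    refine h1.trans ?_
    rw [pow_add]
    exact mul_le_mul hKm hY1 (by positivity) (by positivity)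
  have hm1 : ∀ l, |(mcE F Wm Km YM mu l ω).derivative.eval (rt F Wm ω)| ≤
      2 ^ (2 * Km + (J + 1)) := by
    intro l
    have h1 := der_le (K := Km) (rnd_deg (N := YM) (K := Km) (P := mu (slam F Wm ω) l))
      (rt_mem F Wm ω) (rnd_abs (N := YM) (K := Km) (fun a => hmub (slam F Wm ω) l a))
    refine h1.trans ?_
    rw [pow_add]
    exact mul_le_mul hKm2 hY1 (by positivity) (by positivity)
  have hcard : ((i - k : ℕ) : ℝ) ≤ 2 ^ i := by
    have := Nat.lt_two_pow_self (n := i)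
    exact_mod_cast (show i - k ≤ 2 ^ i by omega)
  -- the three terms
  have t1 : |2 ^ (γ i + q) / 2 ^ W * (vel F c G₀ ω i - vel F c G₀ ν i)| ≤
      2 ^ (5 * J + (2 * K + 1)) := by
    rw [abs_mul, abs_of_pos (by positivity : (0 : ℝ) < 2 ^ (γ i + q) / 2 ^ W)]
    refine (mul_le_mul_of_nonneg_left (hdv i hki le_rfl) (by positivity)).trans ?_
    rw [div_mul_eq_mul_div, div_le_iff₀ (by positivity), ← pow_add, ← pow_add]
    refine pow_le_pow_right₀ (by norm_num) ?_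
    have := hγ i hki le_rfl
    omega
  have t2 : |2 ^ (γ i + q) / 2 ^ W * ∑ l ∈ Finset.Ico k i, 2 ^ γ l / 2 ^ γ i *
      (mcE F Wm Km YM mu l ω).eval (rt F Wm ω) * (vel F c G₀ ω l - vel F c G₀ ν l)| ≤
      2 ^ (5 * J + (i + 2 * K + Km + 2)) := by
    rw [Finset.mul_sum]
    refine (Finset.abs_sum_le_sum_abs _ _).trans ?_
    have h1 : ∀ l ∈ Finset.Ico k i, |2 ^ (γ i + q) / 2 ^ W * (2 ^ γ l / 2 ^ γ i *
        (mcE F Wm Km YM mu l ω).eval (rt F Wm ω) * (vel F c G₀ ω l - vel F c G₀ ν l))| ≤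
        2 ^ (5 * J + (2 * K + Km + 2)) := by
      intro l hl
      rw [Finset.mem_Ico] at hl
      have e1 : 2 ^ (γ i + q) / 2 ^ W * (2 ^ γ l / 2 ^ γ i *
          (mcE F Wm Km YM mu l ω).eval (rt F Wm ω) * (vel F c G₀ ω l - vel F c G₀ ν l)) =
          2 ^ (γ l + q) / 2 ^ W * ((mcE F Wm Km YM mu l ω).eval (rt F Wm ω) *
            (vel F c G₀ ω l - vel F c G₀ ν l)) := by
        rw [pow_add, pow_add]
        field_simp
      rw [e1, abs_mul, abs_mul, abs_of_pos (by positivity : (0 : ℝ) < 2 ^ (γ l + q) / 2 ^ W)]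
      refine (mul_le_mul_of_nonneg_left (mul_le_mul (hm0 l) (hdv l hl.1 hl.2.le) (abs_nonneg _)
        (by positivity)) (by positivity)).trans ?_
      rw [div_mul_eq_mul_div, div_le_iff₀ (by positivity), ← pow_add, ← pow_add, ← pow_add]
      refine pow_le_pow_right₀ (by norm_num) ?_
      have := hγ l hl.1 hl.2.le
      omega
    refine (Finset.sum_le_sum h1).trans ?_
    rw [Finset.sum_const, Nat.card_Ico, nsmul_eq_mul]
    refine (mul_le_mul_of_nonneg_right hcard (by positivity)).trans ?_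
    rw [← pow_add]
    exact pow_le_pow_right₀ (by norm_num) (by omega)
  have t3 : |∑ l ∈ Finset.Ico k i, 1 / 2 ^ (W - Wm) *
      (mcE F Wm Km YM mu l ω).derivative.eval (rt F Wm ω) *
        (2 ^ (γ l + q) * (hgt F c G₀ ω l - hgt F c G₀ ν l))| ≤
      2 ^ (5 * J + (i + 2 * Km + 2)) := by
    refine (Finset.abs_sum_le_sum_abs _ _).trans ?_
    have h1 : ∀ l ∈ Finset.Ico k i, |1 / 2 ^ (W - Wm) *
        (mcE F Wm Km YM mu l ω).derivative.eval (rt F Wm ω) *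
          (2 ^ (γ l + q) * (hgt F c G₀ ω l - hgt F c G₀ ν l))| ≤
        2 ^ (5 * J + (2 * Km + 2)) := by
      intro l hl
      rw [Finset.mem_Ico] at hl
      rw [abs_mul, abs_mul, abs_mul, abs_of_pos (by positivity : (0 : ℝ) < 1 / 2 ^ (W - Wm)),
        abs_of_pos (by positivity : (0 : ℝ) < 2 ^ (γ l + q))]
      have h2 : (1 : ℝ) / 2 ^ (W - Wm) ≤ 1 := by
        rw [div_le_one (by positivity)]
        exact one_le_pow₀ (by norm_num)
      refine (mul_le_mul (mul_le_mul h2 (hm1 l) (abs_nonneg _) zero_le_one)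
        (mul_le_mul_of_nonneg_left (hdh l hl.1 hl.2.le) (by positivity)) (by positivity)
        (by positivity)).trans ?_
      rw [one_mul, ← pow_succ, ← pow_add]
      refine pow_le_pow_right₀ (by norm_num) ?_
      have := hγ l hl.1 hl.2.le
      omega
    refine (Finset.sum_le_sum h1).trans ?_
    rw [Finset.sum_const, Nat.card_Ico, nsmul_eq_mul]
    refine (mul_le_mul_of_nonneg_right hcard (by positivity)).trans ?_
    rw [← pow_add]
    exact pow_le_pow_right₀ (by norm_num) (by omega)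
  obtain ⟨E, hE⟩ : ∃ E : ℕ, E = 5 * J + (i + 2 * K + 2 * Km + 2) := ⟨_, rfl⟩
  have g1 : (2 : ℝ) ^ (5 * J + (2 * K + 1)) ≤ 2 ^ E := pow_le_pow_right₀ (by norm_num) (by omega)
  have g2 : (2 : ℝ) ^ (5 * J + (i + 2 * K + Km + 2)) ≤ 2 ^ E :=
    pow_le_pow_right₀ (by norm_num) (by omega)
  have g3 : (2 : ℝ) ^ (5 * J + (i + 2 * Km + 2)) ≤ 2 ^ E :=
    pow_le_pow_right₀ (by norm_num) (by omega)
  have g4 : (2 : ℝ) ^ (E + 2) ≤ 2 ^ (5 * J + (i + 2 * K + 2 * Km + 6)) :=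
    pow_le_pow_right₀ (by norm_num) (by omega)
  have g5 : (2 : ℝ) ^ (E + 2) = 4 * 2 ^ E := by rw [pow_add]; ring
  have g6 : (0 : ℝ) < 2 ^ E := by positivity
  rw [mul_sub]
  refine (abs_sub _ _).trans ((add_le_add ((abs_sub _ _).trans (add_le_add t1 t2)) t3).trans ?_)
  linarith

end Pool.EN91
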