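import Pool.Agent.H91.EN.Nte
import Pool.Agent.H33.VW.T2

/-!
# The derivative of the path of the target: the provider

`nte_clsX`: `NtP` from the box and the closed gradients over the followers, in the form `ClsX`.
-/

set_option autoImplicit false

namespace Pool.EN91

open Finset Real MvPolynomial
open Pool.Agent.H49.Ent Pool.Agent.H32.Dense
open Pool.STK hiding pr2
open Pool.KA Pool.KSAT Pool.K2S Pool.PB Pool.S6C
open Pool.GEN Pool.CHT Pool.CHX Pool.ISO Pool.LA91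
open Pool.RCD Pool.V0F Pool.V0S Pool.VW33
open Pool.T4C72 (WnT RadT)
open Pool.AJW (CfB)
open Pool.D2R (WinB)

/-- **(NtE)** as a provider: `2 ≤ be`, `1 ≤ ns + ym`, `ym ≤ be - al`. -/
theorem nte_clsX (k f : ℕ) {al be h ns ym : ℝ} (hal : 1 ≤ al) (hbe : 2 ≤ be) (hym : 0 ≤ ym)
    (hny : 1 ≤ ns + ym) (hya : ym ≤ be - al) (Fd : ∀ m : ℕ, ℝ → ℝ → Evp m) :
    ClsX k f al be h Fd (fun _ Hp x => KInP k f al be Hp (NtP k f ns ym) x) := by
  intro D hD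
  refine ⟨0, fun Km _ pm δ _ hδ => ⟨0, 1, 0, one_pos, fun T _ => ?_⟩⟩
  obtain ⟨φs, hφs, H⟩ := nte_cls D (D + 1) Km k f le_rfl hal hbe hym hny hya hδ
  refine ⟨φs, hφs, fun eK heK0 heK => ⟨2, φs, 0, by norm_num, hφs, fun φ hφ0 hφ => ⟨1, one_pos,
    ?_⟩⟩⟩
  intro m S c sn sp Gs b o w u e lam w₁ B _ _ _ _ y hy
  refine ⟨1, 1, one_pos, one_pos, fun p₁ hp₁ => ⟨1, one_pos, ?_⟩⟩
  have h1 := H B le_rfl (mul_le_mul_of_nonneg_right hφ B.u0.le) heK0.le heK (Dr := y.Dr)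
    (M := y.M) (a := y.a) (η := y.η) (σ := y.σ) (bb := y.bb) hy.2
  refine (bas_prt h1 hp₁).mono 0 ?_
  rintro J - F A g κ z g₀ Gc Hc Wm mu hκ hW _ hK
  refine ⟨A, fun _ h => h, by rw [one_mul], fun B' hB' hP' => ?_⟩
  have hW' := hW.sub (κ' := |κ| / p₁) (by positivity) hB' hP' (by
    rw [div_mul_cancel₀ _ hp₁.ne']
    exact le_abs_self κ)
  exact g B' hB' hP' hW'.win hW'.rad hW'.cfn (hK.sub hB')

end Pool.EN91
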