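import Pool.Agent.H91.EN.Nat1
import Pool.Agent.H71.GEN.Vel
import Pool.Agent.H45.EXA.Zlb
import Pool.Agent.H2.GEN.AttG
import Pool.Agent.H44.V0F.Vcl

/-!
# Natural velocities off a small event

`nat_vel`: in a class with small time deficits, if a polynomial graph which is a function of the line
and of the window contains the samples of an event, the lines are tangent to it off a small part of the
event. `ch_off`: the entropy of an integer which is near a function of the condition off an event.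
`cR_of`: two samples with the same canonical record have the same closed functions.
-/

set_option autoImplicit false

namespace Pool.EN91

open Finset Real MvPolynomial
open Pool.Agent.H49.Ent Pool.Agent.H32.Dense
open Pool.STK hiding pr2
open Pool.KA Pool.KSAT Pool.K2S Pool.PB Pool.S6C
open Pool.GEN Pool.CHT Pool.CHX Pool.ISO Pool.ZLC Pool.V0F Pool.RCD
open Pool.FLF (Fam.sub)
open Pool.BFL (Pb)

variable {m : ℕ}

/-- **Natural velocities** off a small event. -/
theorem nat_vel {S : PCl m} {C₀ : ℝ} (htm : TmC S C₀) (D : ℕ) {wm : ℝ} (hwm : wm < 1) {δ κ : ℝ}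
    (hδ : 0 < δ) (hκ : 0 < κ) :
    Bas S (fun J F A => ∀ (w : ℕ), (w : ℝ) ≤ wm * J →
      ∀ (H : LnT F → MvPolynomial (Option (Fin m)) ℝ) (k : Fin m) (g : ℕ),
      (∀ s, (H s).totalDegree ≤ D) →
      (∀ ω, A ω → |F.x ω k - eval (bt F ω) (H (slam F w ω))| ≤ 1 / 2 ^ g) →
      Pe F.p (fun ω => A ω ∧ 2 ^ (w + ⌊δ * J⌋₊) / 2 ^ g <
        |F.d ω k - ∑ o, bd F ω o * eval (bt F ω) (pderiv o (H (slam F w ω)))|) ≤
        κ * Pe F.p A) := by
  classical
  obtain ⟨C, hC, hvel⟩ := vel_of_pos m (max D 1)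
  have hl2 : 0 < Real.log 2 := Real.log_pos one_lt_two
  have hC0 : 0 < C := by linarith
  -- a good sample
  have key : Bas S (fun J F A => ∀ (w : ℕ), (w : ℝ) ≤ wm * J →
      ∀ (H : LnT F → MvPolynomial (Option (Fin m)) ℝ) (k : Fin m) (g : ℕ),
      (∀ s, (H s).totalDegree ≤ D) →
      (∀ ω, A ω → |F.x ω k - eval (bt F ω) (H (slam F w ω))| ≤ 1 / 2 ^ g) →
      ∃ ω, A ω ∧ |F.d ω k - ∑ o, bd F ω o * eval (bt F ω) (pderiv o (H (slam F w ω)))| ≤
        2 ^ (w + ⌊δ * J⌋₊) / 2 ^ g) := by
    obtain ⟨y, hy⟩ : ∃ y : ℝ, y = min (δ / 2) (1 - wm) := ⟨_, rfl⟩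
    have hy0 : 0 < y := by rw [hy]; exact lt_min (by linarith) (by linarith)
    have hyδ : y ≤ δ / 2 := by rw [hy]; exact min_le_left _ _
    have hyw : y ≤ 1 - wm := by rw [hy]; exact min_le_right _ _
    obtain ⟨ψ, hψ⟩ : ∃ ψ : ℝ, ψ = y * Real.log 2 / (2 * C) := ⟨_, rfl⟩
    have hψ0 : 0 < ψ := by rw [hψ]; positivity
    obtain ⟨J₁, hJ₁⟩ := exists_nat_gt (max (2 * C / (y * Real.log 2)) (2 / δ))
    refine ⟨ψ / (|C₀| + 1), by positivity, J₁ + 1, fun J hJ F A hA w hw H k g hH hpos => ?_⟩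
    have hτ : 0 < ψ / (|C₀| + 1) := by positivity
    have hJr : (0 : ℝ) ≤ J := Nat.cast_nonneg J
    have hJ2 : (J₁ : ℝ) ≤ J := by
      have : J₁ ≤ J := by omega
      exact_mod_cast this
    have hj1 : C ≤ y * Real.log 2 / 2 * J := by
      have h1 := ((le_max_left _ _).trans_lt hJ₁).le.trans hJ2
      rw [div_le_iff₀ (by positivity)] at h1
      linarith
    have hj2 : 1 ≤ δ / 2 * J := by
      have h1 := ((le_max_right _ _).trans_lt hJ₁).le.trans hJ2
      rw [div_le_iff₀ hδ] at h1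
      linarith
    obtain ⟨hB, -⟩ := htm _ J F A hτ hA
    have hTm0 := htm.sub hτ le_rfl hA (fun _ h => h) (by
      rw [zero_mul, neg_zero, Real.exp_zero, one_mul]) hB
    rw [add_zero] at hTm0
    have hcψ : C₀ * (ψ / (|C₀| + 1)) ≤ ψ := by
      rw [mul_div_assoc', div_le_iff₀ (by positivity)]
      have h1 := le_abs_self C₀
      nlinarith
    have hTm : (Fam.sub F A hB).Tm (ψ * J) := by
      unfold Fam.Tm at hTm0 ⊢
      have h1 := mul_le_mul_of_nonneg_right hcψ hJr
      linarith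
    have hψC : C * (ψ * J + 1) ≤ y * Real.log 2 * J := by
      have e1 : C * (ψ * J + 1) = C * ψ * J + C := by ring
      have e2 : C * ψ = y * Real.log 2 / 2 := by
        rw [hψ]
        field_simp
      rw [e1, e2]
      linarith
    have hwJ : w ≤ J := by
      have h1 : wm * (J : ℝ) ≤ 1 * J := mul_le_mul_of_nonneg_right hwm.le hJr
      have h2 : (w : ℝ) ≤ J := by linarith
      exact_mod_cast h2
    obtain ⟨B₁, hB₁, hPB₁, hv⟩ := hvel J F A hB w
      (fun s j => if j = k then H s else X (some j)) (1 / 2 ^ g) (ψ * J) hwJ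
      (fun s j => by
        split_ifs
        · exact (hH _).trans (le_max_left _ _)
        · rw [totalDegree_X]
          exact le_max_right _ _) (by positivity) (by positivity) hTm (by
        refine hψC.trans ?_
        have h1 : y * (J : ℝ) ≤ J - w := by
          have h2 := mul_le_mul_of_nonneg_right hyw hJr
          have e1 : (1 - wm) * (J : ℝ) = J - wm * J := by ring
          linarith
        have h2 := mul_le_mul_of_nonneg_right h1 hl2.le
        linarith) (fun ω hω j => by
        by_cases hj : j = k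
        · subst hj
          rw [if_pos rfl]
          exact hpos ω hω
        · rw [if_neg hj, eval_X]
          show |F.x ω j - F.x ω j| ≤ _
          rw [sub_self, abs_zero]
          positivity)
    have hne : 0 < Pe F.p B₁ := by linarith
    obtain ⟨ω, hω⟩ : ∃ ω, B₁ ω := by
      by_contra hcon
      push Not at hcon
      have h1 : Pe F.p B₁ = 0 := by
        unfold Pe
        refine Finset.sum_eq_zero fun ω _ => ?_
        rw [if_neg (by simpa using hcon ω)]
      linarith
    refine ⟨ω, hB₁ ω hω, ?_⟩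
    have h1 := hv ω hω k
    rw [if_pos rfl] at h1
    refine h1.trans ?_
    have h2 : Real.exp (C * (ψ * J + 1)) ≤ 2 ^ ⌊δ * (J : ℝ)⌋₊ := by
      have h3 : Real.exp (C * (ψ * J + 1)) ≤
          Real.exp ((⌊δ * (J : ℝ)⌋₊ : ℝ) * Real.log 2) := by
        refine Real.exp_le_exp.2 (hψC.trans ?_)
        have h4 := (Nat.lt_floor_add_one (δ * (J : ℝ))).le
        have h5 : y * (J : ℝ) ≤ (⌊δ * (J : ℝ)⌋₊ : ℝ) := by
          have := mul_le_mul_of_nonneg_right hyδ hJr
          linarith
        have h6 := mul_le_mul_of_nonneg_right h5 hl2.le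
        linarith
      refine h3.trans (le_of_eq ?_)
      rw [mul_comm, Real.exp_mul, Real.exp_log two_pos, Real.rpow_natCast]
    calc Real.exp (C * (ψ * J + 1)) * 2 ^ w * (1 / 2 ^ g) ≤
          2 ^ ⌊δ * (J : ℝ)⌋₊ * 2 ^ w * (1 / 2 ^ g) := by
          refine mul_le_mul_of_nonneg_right (mul_le_mul_of_nonneg_right h2 (by positivity))
            (by positivity)
      _ = _ := by
          rw [pow_add]
          ring
  refine Bas.mono 0 (Pool.CHT.bas_ev key hκ) fun J _ F A h w hw H k g hH hpos => ?_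
  by_contra hcon
  push Not at hcon
  obtain ⟨ω, ⟨-, hω1⟩, hω2⟩ := h (fun ω => A ω ∧ 2 ^ (w + ⌊δ * J⌋₊) / 2 ^ g <
        |F.d ω k - ∑ o, bd F ω o * eval (bt F ω) (pderiv o (H (slam F w ω)))|)
    (fun ω hω => hω.1) hcon.le w hw H k g hH (fun ω hω => hpos ω hω.1)
  exact absurd hω2 (not_le.2 hω1)

/-- **The entropy of an integer** which is near a function of the condition off an event. -/
theorem ch_off {Ω 𝓦 : Type} [Fintype Ω] {p : Ω → ℝ} (hp : IsLaw p) (X : Ω → ℤ) (W : Ω → 𝓦)
    (F : Ω → Prop) {B D : ℝ}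
    (hX : ∀ ω ν, 0 < p ω → 0 < p ν → W ω = W ν → |(X ω : ℝ) - X ν| ≤ B) (hD : 0 ≤ D)
    (h : ∀ ω ν, 0 < p ω → 0 < p ν → ¬ F ω → ¬ F ν → W ω = W ν → |(X ω : ℝ) - X ν| ≤ D) :
    CH p X W ≤ Real.log 2 + (Pb p F * Real.log (2 * B + 1) + Real.log (2 * D + 1)) := by
  classical
  have h0 := hp.nonneg
  have e1 := CH_le_add h0 X (fun ω => decide (F ω)) W
  have e3 : CH p (fun ω => decide (F ω)) W ≤ Real.log 2 := by
    have k := CH_le_card hp.nonneg hp.sum_one (fun ω => decide (F ω)) W
      (fun _ => Finset.univ) (fun ω _ => Finset.mem_univ _)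
    rw [Ex_const hp.sum_one] at k
    simpa using k
  have e4 : CH p (fun ω (_ : Fin 1) => X ω) (fun ω => (decide (F ω), W ω)) ≤
      ((1 : ℕ) : ℝ) * Ex p (fun ω => Real.log (2 * (if F ω then B else D) + 1)) := by
    refine CH_le_vec h0 hp.sum_one _ _ _ fun ω ω' a b e i => ?_
    simp only [Prod.mk.injEq, decide_eq_decide] at e
    by_cases hF : F ω
    · rw [if_pos hF]
      push_cast
      exact hX ω ω' a b e.2
    · have hF' : ¬ F ω' := fun h' => hF (e.1.2 h')
      rw [if_neg hF]
      push_cast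
      exact h ω ω' a b hF hF' e.2
  have e5 : Ex p (fun ω => Real.log (2 * (if F ω then B else D) + 1)) =
      Pb p F * Real.log (2 * B + 1) + Pb p (fun ω => ¬ F ω) * Real.log (2 * D + 1) := by
    unfold Ex Pb
    rw [Finset.sum_mul, Finset.sum_mul, ← Finset.sum_add_distrib]
    refine Finset.sum_congr rfl fun ω _ => ?_
    beta_reduce
    by_cases hF : F ω
    · rw [if_pos hF, if_pos hF, if_neg (not_not.mpr hF)]
      ring
    · rw [if_neg hF, if_neg hF, if_pos hF]
      ring
  have e6 : CH p X (fun ω => (decide (F ω), W ω)) ≤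
      CH p (fun ω (_ : Fin 1) => X ω) (fun ω => (decide (F ω), W ω)) :=
    CH_mono_left h0 fun ω ν _ _ e => congrFun (Prod.ext_iff.mp e).1 0
  have e7 : Pb p (fun ω => ¬ F ω) ≤ 1 := by
    have h1 := hp.sum_one
    rw [← h1]
    unfold Pb
    refine Finset.sum_le_sum fun ω _ => ?_
    split_ifs
    · exact le_rfl
    · exact h0 ω
  have e8 : Pb p (fun ω => ¬ F ω) * Real.log (2 * D + 1) ≤ 1 * Real.log (2 * D + 1) :=
    mul_le_mul_of_nonneg_right e7 (Real.log_nonneg (by linarith))
  rw [e5] at e4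
  push_cast at e4
  linarith

/-- **Two samples with the same canonical record** have the same closed functions of a coarser
window. -/
theorem cR_of {J : ℕ} {F : Fam m J} {A : F.Ω → Prop} {a : ℝ} {V : Type} {z : F.Ω → V}
    (hz : Cl2 (ptr F J) (vg a J F) A z) {ω ν : F.Ω} (e : cR F A a ω = cR F A a ν) :
    z ω = z ν := by
  have h1 := congrFun e ⟨fun ν => z ν = z ω, hz.comp fun v => v = z ω⟩
  have h2 : (z ω = z ω) = (z ν = z ω) := h1
  exact (h2.mp rfl).symm

end Pool.EN91
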