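import Pool.Agent.H91.EN.Two

/-!
# Two near points in a chain of charts

`ChP`: a chain of charts. `near_rec`: the heights of two points over all charts of the chain are near,
if the heights of the places `< k₀` are near over the first chart and the heights of the other places
are natural over the last one. `vel_rec`: the derivatives of the differences of the charts at two near
points, in the directions of two vectors with the same natural components over the first chart.
-/

set_option autoImplicit false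

namespace Pool.EN91

open Finset Real MvPolynomial
open Pool.Agent.H49.Ent Pool.Agent.H32.Dense Pool.STK Pool.KA Pool.KSAT Pool.K2S Pool.PB Pool.S6C
open Pool.GEN Pool.CHT Pool.CHX Pool.ISO Pool.D2R

/-- **A chain of charts** `ψ 0, …, ψ N`. -/
structure ChP {m : ℕ} (c : ℕ → Fin m) (r D N P : ℕ)
    (ψ Q : ℕ → ℕ → MvPolynomial (Option (Fin m)) ℝ) (g : ℕ → ℕ → ℕ) (a : ℕ → ℕ) (κ : ℕ → ℕ → ℝ)
    (x : Option (Fin m) → ℝ) : Prop where
  inj : Set.InjOn c (Set.Iio (r + 1))
  dψ : ∀ k l, (ψ k l).totalDegree ≤ D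
  pψ : ∀ k l, DepC c l (ψ k l)
  dQ : ∀ k l, (Q k l).totalDegree ≤ D
  pQ : ∀ k l, DepC c l (Q k l)
  eq : ∀ k < N, ∀ l ≤ r, Q k l = ψ k l - ψ (k + 1) l + MvPolynomial.C (κ k l)
  box : ∀ k < N, ∀ l ≤ r, ∀ b, NBx c (ψ (k + 1)) (g (k + 1)) (a (k + 1)) (x none) l b →
    |eval b (Q k l)| ≤ 2 ^ P / 2 ^ g (k + 1) l
  pos : ∀ k < N, ∀ l < r, |x (some (c l)) - eval x (ψ (k + 1) l)| ≤ 2 ^ P / 2 ^ g (k + 1) l
  nP : (N : ℝ) ≤ 2 ^ P

section

variable {m : ℕ} {c : ℕ → Fin m} {r D N P : ℕ}
  {ψ Q : ℕ → ℕ → MvPolynomial (Option (Fin m)) ℝ} {g : ℕ → ℕ → ℕ} {a : ℕ → ℕ} {κ : ℕ → ℕ → ℝ}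
  {x : Option (Fin m) → ℝ}

theorem ChP.sum_le (H : ChP c r D N P ψ Q g a κ x) {f : ℕ → ℝ} {B : ℝ} (hB : 0 ≤ B)
    {S : Finset ℕ} (hS : ∀ k ∈ S, k < N) (hf : ∀ k ∈ S, |f k| ≤ B) :
    |∑ k ∈ S, f k| ≤ 2 ^ P * B := by
  refine (Finset.abs_sum_le_sum_abs _ _).trans ((Finset.sum_le_sum hf).trans ?_)
  rw [Finset.sum_const, nsmul_eq_mul]
  refine mul_le_mul_of_nonneg_right (le_trans ?_ H.nP) hB
  have h1 : S ⊆ range N := fun k hk => Finset.mem_range.2 (hS k hk)
  have h2 := Finset.card_le_card h1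
  rw [Finset.card_range] at h2
  exact_mod_cast h2

/-- The heights over the charts. -/
theorem ChP.hgt_eq (H : ChP c r D N P ψ Q g a κ x) {l : ℕ} (hl : l ≤ r)
    (y : Option (Fin m) → ℝ) {k k' : ℕ} (hk : k ≤ k') (hk' : k' ≤ N) :
    (y (some (c l)) - eval y (ψ k' l)) - (x (some (c l)) - eval x (ψ k' l)) =
      (y (some (c l)) - eval y (ψ k l)) - (x (some (c l)) - eval x (ψ k l)) +
        ∑ j ∈ Finset.Ico k k', (eval y (Q j l) - eval x (Q j l)) := by
  induction k', hk using Nat.le_induction with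
  | base => rw [Finset.Ico_self, Finset.sum_empty, add_zero]
  | succ k' hk ih =>
    rw [Finset.sum_Ico_succ_top hk, ← add_assoc, ← ih (by omega), H.eq k' (by omega) l hl]
    simp only [map_add, map_sub, eval_C]
    ring

/-- The derivatives of the charts. -/
theorem ChP.dd_eq (H : ChP c r D N P ψ Q g a κ x) {l : ℕ} (hl : l ≤ r)
    (y V : Option (Fin m) → ℝ) {k k' : ℕ} (hk : k ≤ k') (hk' : k' ≤ N) :
    dd (ψ k l) y V - dd (ψ k' l) y V = ∑ j ∈ Finset.Ico k k', dd (Q j l) y V := by
  induction k', hk using Nat.le_induction with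
  | base => rw [Finset.Ico_self, Finset.sum_empty, sub_self]
  | succ k' hk ih =>
    rw [Finset.sum_Ico_succ_top hk, ← ih (by omega), H.eq k' (by omega) l hl, dd_padd, dd_C,
      add_zero, dd_sub]
    ring

end

theorem sh {u X Y P : ℕ} (h : X ≤ Y + P) : (2 : ℝ) ^ u / 2 ^ Y ≤ 2 ^ (u + P) / 2 ^ X := by
  rw [div_le_div_iff₀ (by positivity) (by positivity), ← pow_add, ← pow_add]
  exact pow_le_pow_right₀ (by norm_num) (by omega)

/-- **Near heights over all charts of a chain.** -/
theorem near_rec (D r : ℕ) : ∃ C : ℕ, 1 ≤ C ∧ ∀ {m : ℕ} {c : ℕ → Fin m} {N P k₀ q : ℕ}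
    {ψ Q : ℕ → ℕ → MvPolynomial (Option (Fin m)) ℝ} {g : ℕ → ℕ → ℕ} {a d γ : ℕ → ℕ}
    {κ : ℕ → ℕ → ℝ} {x y : Option (Fin m) → ℝ}, ChP c r D N P ψ Q g a κ x → y none = x none →
    (∀ l < r, l < k₀ → |(y (some (c l)) - eval y (ψ 0 l)) - (x (some (c l)) - eval x (ψ 0 l))| ≤
      2 ^ P / 2 ^ (γ l + q)) →
    (∀ l < r, l < k₀ → ∀ k < N, g (k + 1) l + d (k + 1) ≤ γ l + q + P) →
    (∀ l < r, l < k₀ → ∀ k < N, ∀ k' ≤ k,
      g (k + 1) l + d (k + 1) ≤ g (k' + 1) l + d (k' + 1) + P) →
    (∀ l < r, k₀ ≤ l → |y (some (c l)) - eval y (ψ N l)| ≤ 2 ^ P / 2 ^ g N l) →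
    (∀ l < r, k₀ ≤ l → ∀ k < N, g (k + 1) l + d (k + 1) ≤ g N l + P) →
    (∀ l < r, k₀ ≤ l → ∀ k' < N, ∀ k ≤ k',
      g (k + 1) l + d (k + 1) ≤ g (k' + 1) l + d (k' + 1) + P) →
    ∀ l < r, ∀ k < N, |(y (some (c l)) - eval y (ψ (k + 1) l)) -
      (x (some (c l)) - eval x (ψ (k + 1) l))| ≤
        2 ^ (C * (P + 1)) / 2 ^ (g (k + 1) l + d (k + 1)) := by
  classical
  have hgt' := fun l : ℕ => two_pt D l
  choose Cg hCg1 hCg using hgt'
  obtain ⟨C₂, hC₂⟩ : ∃ C₂ : ℕ, C₂ = ∑ l ∈ range (r + 1), Cg l := ⟨_, rfl⟩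
  obtain ⟨A, hA⟩ : ∃ A : ℕ, A = 3 * C₂ + 7 := ⟨_, rfl⟩
  have hA1 : 1 ≤ A := by omega
  refine ⟨A ^ r, Nat.one_le_pow _ _ hA1, ?_⟩
  intro m c N P k₀ q ψ Q g a d γ κ x y H hyx hV n1 n2 hF n3 n4
  have key : ∀ l ≤ r, ∀ j < l, ∀ k < N, |(y (some (c j)) - eval y (ψ (k + 1) j)) -
      (x (some (c j)) - eval x (ψ (k + 1) j))| ≤
        2 ^ (A ^ l * (P + 1)) / 2 ^ (g (k + 1) j + d (k + 1)) := by
    intro l
    induction l with
    | zero => exact fun _ j hj => absurd hj (Nat.not_lt_zero j)
    | succ l ih =>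
      intro hl j hj k hk
      have hAl2 : A ^ l ≤ A ^ (l + 1) := Nat.pow_le_pow_right hA1 (Nat.le_succ l)
      rcases Nat.lt_or_ge j l with hjl | hjl
      · exact (ih (by omega) j hjl k hk).trans (div_le_div_of_nonneg_right (pow_le_pow_right₀
          (by norm_num) (Nat.mul_le_mul_right _ hAl2)) (by positivity))
      have hjl' : j = l := by omega
      subst hjl'
      obtain ⟨E, hE⟩ : ∃ E : ℕ, E = A ^ j * (P + 1) := ⟨_, rfl⟩
      have hPE : P + 1 ≤ E := by
        rw [hE]
        exact Nat.le_mul_of_pos_left _ (Nat.pos_of_ne_zero (by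
          have := Nat.one_le_pow j A hA1
          omega))
      have hE' : A ^ (j + 1) * (P + 1) = A * E := by rw [hE, pow_succ]; ring
      have ih' : ∀ k < N, ∀ i < j, |(y (some (c i)) - eval y (ψ (k + 1) i)) -
          (x (some (c i)) - eval x (ψ (k + 1) i))| ≤ 2 ^ E / 2 ^ (g (k + 1) i + d (k + 1)) := by
        rw [hE]
        exact fun k hk i hi => ih (by omega) i hi k hk
      rw [hE']
      have hCl : Cg j ≤ C₂ := by
        rw [hC₂]
        exact Finset.single_le_sum (f := Cg) (fun _ _ => Nat.zero_le _)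
          (Finset.mem_range.2 (by omega))
      -- one step
      have hone : ∀ k < N, |eval y (Q k j) - eval x (Q k j)| ≤
          2 ^ (C₂ * (E + 2) + P + E) / 2 ^ (g (k + 1) j + d (k + 1)) := by
        intro k hk
        have h1 := (hCg j (c := c) (ψ := ψ (k + 1)) (Q := Q k j) (g := g (k + 1))
          (a := a (k + 1)) (n := E + 1) (M := 2 ^ P / 2 ^ g (k + 1) j)
          (δ := 2 ^ E / 2 ^ d (k + 1)) (x := x) (y := y) (V := 0) (V' := 0)
          (H.inj.mono fun z hz => by rw [Set.mem_Iio] at hz ⊢; omega) (H.dψ _) (H.pψ _) (H.dQ _ _)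
          (H.pQ _ _) (by positivity) (fun b hb => H.box k hk j (by omega) b hb) hyx
          (fun i hi => (H.pos k hk i (by omega)).trans (div_le_div_of_nonneg_right
            (pow_le_pow_right₀ (by norm_num) (by omega)) (by positivity)))
          (fun i hi => by
            have h2 := H.pos k hk i (by omega)
            have h3 := ih' k hk i hi
            have h4 : (2 : ℝ) ^ E / 2 ^ (g (k + 1) i + d (k + 1)) ≤ 2 ^ E / 2 ^ g (k + 1) i :=
              div_le_div_of_nonneg_left (by positivity) (by positivity)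
                (pow_le_pow_right₀ (by norm_num) (by omega))
            have h5 : (2 : ℝ) ^ P / 2 ^ g (k + 1) i ≤ 2 ^ E / 2 ^ g (k + 1) i :=
              div_le_div_of_nonneg_right (pow_le_pow_right₀ (by norm_num) (by omega))
                (by positivity)
            have e1 : y (some (c i)) - eval y (ψ (k + 1) i) =
                ((y (some (c i)) - eval y (ψ (k + 1) i)) -
                  (x (some (c i)) - eval x (ψ (k + 1) i))) +
                (x (some (c i)) - eval x (ψ (k + 1) i)) := by ring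
            rw [e1]
            refine (abs_add_le _ _).trans ((add_le_add (h3.trans h4) (h2.trans h5)).trans
              (le_of_eq ?_))
            rw [pow_succ]
            ring)
          (by positivity)
          (fun i hi => (ih' k hk i hi).trans (le_of_eq (by rw [pow_add]; field_simp)))).1
        refine h1.trans ?_
        calc (2 : ℝ) ^ (Cg j * (E + 1 + 1)) * (2 ^ P / 2 ^ g (k + 1) j) * (2 ^ E / 2 ^ d (k + 1)) ≤
            2 ^ (C₂ * (E + 2)) * (2 ^ P / 2 ^ g (k + 1) j) * (2 ^ E / 2 ^ d (k + 1)) := by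
              refine mul_le_mul_of_nonneg_right (mul_le_mul_of_nonneg_right
                (pow_le_pow_right₀ (by norm_num) ?_) (by positivity)) (by positivity)
              exact Nat.mul_le_mul_right _ hCl
          _ = _ := by
              rw [pow_add _ (C₂ * (E + 2) + P) E, pow_add _ (C₂ * (E + 2)) P,
                pow_add _ (g (k + 1) j)]
              field_simp
      have hexp : C₂ * (E + 2) + P + E + P + P + 2 ≤ A * E := by
        rw [hA]
        have e1 : (3 * C₂ + 7) * E = C₂ * E + 2 * C₂ * E + 7 * E := by ring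
        have e2 : C₂ * (E + 2) = C₂ * E + 2 * C₂ := by ring
        have e3 : 2 * C₂ ≤ 2 * C₂ * E := Nat.le_mul_of_pos_right _ (by omega)
        omega
      obtain ⟨U, hU⟩ : ∃ U : ℕ, U = C₂ * (E + 2) + P + E + P + P := ⟨_, rfl⟩
      have hfin : ∀ X : ℕ, (2 : ℝ) ^ U / 2 ^ X + 2 ^ U / 2 ^ X ≤ 2 ^ (A * E) / 2 ^ X := by
        intro X
        rw [← add_div]
        refine div_le_div_of_nonneg_right ?_ (by positivity)
        rw [← two_mul, ← pow_succ']
        exact pow_le_pow_right₀ (by norm_num) (by omega)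
      rcases Nat.lt_or_ge j k₀ with hj0 | hj0
      · -- a place of the first chart
        rw [H.hgt_eq (by omega) y (Nat.zero_le (k + 1)) (by omega)]
        have h1 := (hV j (by omega) hj0).trans (sh (n1 j (by omega) hj0 k hk))
        have h2 := H.sum_le (S := Finset.Ico 0 (k + 1))
          (f := fun k' => eval y (Q k' j) - eval x (Q k' j))
          (B := 2 ^ (C₂ * (E + 2) + P + E + P) / 2 ^ (g (k + 1) j + d (k + 1))) (by positivity)
          (fun k' hk' => by rw [Finset.mem_Ico] at hk'; omega) (fun k' hk' => by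
            rw [Finset.mem_Ico] at hk'
            exact (hone k' (by omega)).trans (sh (n2 j (by omega) hj0 k hk k' (by omega))))
        refine (abs_add_le _ _).trans ((add_le_add h1 h2).trans (le_trans (add_le_add ?_ ?_)
          (hfin _)))
        · exact div_le_div_of_nonneg_right (pow_le_pow_right₀ (by norm_num) (by omega))
            (by positivity)
        · rw [← mul_div_assoc, ← pow_add]
          exact div_le_div_of_nonneg_right (pow_le_pow_right₀ (by norm_num) (by omega))
            (by positivity)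
      · -- a follower
        have h0 := H.hgt_eq (l := j) (by omega) y (k := k + 1) (k' := N) (by omega) le_rfl
        have e1 : (y (some (c j)) - eval y (ψ (k + 1) j)) -
            (x (some (c j)) - eval x (ψ (k + 1) j)) = ((y (some (c j)) - eval y (ψ N j)) -
            (x (some (c j)) - eval x (ψ N j))) -
            ∑ k' ∈ Finset.Ico (k + 1) N, (eval y (Q k' j) - eval x (Q k' j)) := by
          rw [h0]
          ring
        rw [e1]
        have h1 := hF j (by omega) hj0
        have h1' : |x (some (c j)) - eval x (ψ N j)| ≤ 2 ^ P / 2 ^ g N j := by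
          have h2 := H.pos (N - 1) (by omega) j (by omega)
          rw [show N - 1 + 1 = N by omega] at h2
          exact h2
        have h3 : (2 : ℝ) ^ P / 2 ^ g N j ≤ 2 ^ (P + P) / 2 ^ (g (k + 1) j + d (k + 1)) :=
          sh (n3 j (by omega) hj0 k hk)
        have h2 := H.sum_le (S := Finset.Ico (k + 1) N)
          (f := fun k' => eval y (Q k' j) - eval x (Q k' j))
          (B := 2 ^ (C₂ * (E + 2) + P + E + P) / 2 ^ (g (k + 1) j + d (k + 1))) (by positivity)
          (fun k' hk' => by rw [Finset.mem_Ico] at hk'; omega) (fun k' hk' => by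
            rw [Finset.mem_Ico] at hk'
            exact (hone k' hk'.2).trans (sh (n4 j (by omega) hj0 k' hk'.2 k (by omega))))
        refine (abs_sub _ _).trans ((add_le_add ((abs_sub _ _).trans (add_le_add (h1.trans h3)
          (h1'.trans h3))) h2).trans (le_trans (add_le_add ?_ ?_) (hfin _)))
        · rw [← add_div]
          refine div_le_div_of_nonneg_right ?_ (by positivity)
          rw [← two_mul, ← pow_succ']
          exact pow_le_pow_right₀ (by norm_num) (by omega)
        · rw [← mul_div_assoc, ← pow_add]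
          exact div_le_div_of_nonneg_right (pow_le_pow_right₀ (by norm_num) (by omega))
            (by positivity)
  intro l hl k hk
  refine (key r le_rfl l hl k hk).trans (le_of_eq rfl)

/-- **The derivatives of the differences of the charts at two near points.** The vector `V'` at `y`
has the natural components of the vector `V` at `x` over the first chart. -/
theorem vel_rec (D r : ℕ) : ∃ C : ℕ, 1 ≤ C ∧ ∀ {m : ℕ} {c : ℕ → Fin m} {N P E q : ℕ}
    {ψ Q : ℕ → ℕ → MvPolynomial (Option (Fin m)) ℝ} {g : ℕ → ℕ → ℕ} {a d v : ℕ → ℕ}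
    {κ : ℕ → ℕ → ℝ} {x y V V' : Option (Fin m) → ℝ}, ChP c r D N P ψ Q g a κ x → y none = x none →
    P ≤ E → (∀ l < r, ∀ k < N, |(y (some (c l)) - eval y (ψ (k + 1) l)) -
      (x (some (c l)) - eval x (ψ (k + 1) l))| ≤ 2 ^ E / 2 ^ (g (k + 1) l + d (k + 1))) →
    V' none = V none →
    (∀ l < r, V' (some (c l)) - dd (ψ 0 l) y V' = V (some (c l)) - dd (ψ 0 l) x V) →
    (∀ k < N, nrm c (ψ (k + 1)) (g (k + 1)) (a (k + 1)) r x V ≤ 2 ^ (a (k + 1) + P)) →
    (∀ k < N, a (k + 1) + q ≤ d (k + 1) + v (k + 1) + P) →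
    (∀ l < r, ∀ k < N, ∀ k' ≤ k, v (k' + 1) + g (k + 1) l ≤ v (k + 1) + g (k' + 1) l + P) →
    ∀ l ≤ r, ∀ (γ vs : ℕ), (∀ k < N, v (k + 1) + γ ≤ vs + g (k + 1) l + P) →
      |(dd (ψ 0 l) y V' - dd (ψ N l) y V') - (dd (ψ 0 l) x V - dd (ψ N l) x V)| ≤
        2 ^ (C * (E + 1)) * (2 ^ vs / 2 ^ (γ + q)) := by
  classical
  have hgt' := fun l : ℕ => two_pt D l
  choose Cg hCg1 hCg using hgt'
  obtain ⟨C₂, hC₂⟩ : ∃ C₂ : ℕ, C₂ = ∑ l ∈ range (r + 1), Cg l := ⟨_, rfl⟩
  obtain ⟨A, hA⟩ : ∃ A : ℕ, A = 3 * C₂ + r + 9 := ⟨_, rfl⟩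
  have hA1 : 1 ≤ A := by omega
  refine ⟨A ^ (r + 1), Nat.one_le_pow _ _ hA1, ?_⟩
  intro m c N P E q ψ Q g a d v κ x y V V' H hyx hPE hne hV0 hVf hnat n1 n2
  -- one step from the velocities of the places below
  have hone : ∀ l ≤ r, ∀ G : ℕ, E + 1 ≤ G → ∀ k < N, (∀ j < l,
      |(V' (some (c j)) - dd (ψ (k + 1) j) y V') - (V (some (c j)) - dd (ψ (k + 1) j) x V)| ≤
        2 ^ G * (2 ^ v (k + 1) / 2 ^ (g (k + 1) j + q))) →
      |dd (Q k l) y V' - dd (Q k l) x V| ≤
        2 ^ (C₂ * (G + 2) + P + G + 2 * P + r + 1) * (2 ^ v (k + 1) / 2 ^ (g (k + 1) l + q)) := by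
    intro l hl G hEG k hk hW
    have hCl : Cg l ≤ C₂ := by
      rw [hC₂]
      exact Finset.single_le_sum (f := Cg) (fun _ _ => Nat.zero_le _)
        (Finset.mem_range.2 (by omega))
    have h1 := (hCg l (c := c) (ψ := ψ (k + 1)) (Q := Q k l) (g := g (k + 1))
      (a := a (k + 1)) (n := G + 1) (M := 2 ^ P / 2 ^ g (k + 1) l)
      (δ := 2 ^ E / 2 ^ d (k + 1)) (x := x) (y := y) (V := V) (V' := V')
      (H.inj.mono fun z hz => by rw [Set.mem_Iio] at hz ⊢; omega) (H.dψ _) (H.pψ _) (H.dQ _ _)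
      (H.pQ _ _) (by positivity) (fun b hb => H.box k hk l hl b hb) hyx
      (fun i hi => (H.pos k hk i (by omega)).trans (div_le_div_of_nonneg_right
        (pow_le_pow_right₀ (by norm_num) (by omega)) (by positivity)))
      (fun i hi => by
        have h2 := H.pos k hk i (by omega)
        have h3 := hne i (by omega) k hk
        have h4 : (2 : ℝ) ^ E / 2 ^ (g (k + 1) i + d (k + 1)) ≤ 2 ^ G / 2 ^ g (k + 1) i :=
          (div_le_div_of_nonneg_left (by positivity) (by positivity)
            (pow_le_pow_right₀ (by norm_num) (by omega))).trans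
          (div_le_div_of_nonneg_right (pow_le_pow_right₀ (by norm_num) (by omega))
            (by positivity))
        have h5 : (2 : ℝ) ^ P / 2 ^ g (k + 1) i ≤ 2 ^ G / 2 ^ g (k + 1) i :=
          div_le_div_of_nonneg_right (pow_le_pow_right₀ (by norm_num) (by omega))
            (by positivity)
        have e1 : y (some (c i)) - eval y (ψ (k + 1) i) =
            ((y (some (c i)) - eval y (ψ (k + 1) i)) -
              (x (some (c i)) - eval x (ψ (k + 1) i))) +
            (x (some (c i)) - eval x (ψ (k + 1) i)) := by ring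
        rw [e1]
        refine (abs_add_le _ _).trans ((add_le_add (h3.trans h4) (h2.trans h5)).trans
          (le_of_eq ?_))
        rw [pow_succ]
        ring)
      (by positivity)
      (fun i hi => (hne i (by omega) k hk).trans (le_of_eq (by rw [pow_add]; field_simp)))).2 hV0
    refine h1.trans ?_
    have h2 : 2 ^ E / 2 ^ d (k + 1) * nrm c (ψ (k + 1)) (g (k + 1)) (a (k + 1)) l x V ≤
        2 ^ (G + 2 * P) * (2 ^ v (k + 1) / 2 ^ q) := by
      calc 2 ^ E / 2 ^ d (k + 1) * nrm c (ψ (k + 1)) (g (k + 1)) (a (k + 1)) l x V ≤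
          2 ^ E / 2 ^ d (k + 1) * 2 ^ (a (k + 1) + P) :=
            mul_le_mul_of_nonneg_left ((nrm_mono hl x V).trans (hnat k hk)) (by positivity)
        _ ≤ _ := by
            rw [div_mul_eq_mul_div, ← mul_div_assoc, div_le_div_iff₀ (by positivity)
              (by positivity), ← pow_add, ← pow_add, ← pow_add, ← pow_add]
            refine pow_le_pow_right₀ (by norm_num) ?_
            have := n1 k hk
            omega
    have h3 : ∑ j ∈ range l, 2 ^ g (k + 1) j * |(V' (some (c j)) - dd (ψ (k + 1) j) y V') -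
        (V (some (c j)) - dd (ψ (k + 1) j) x V)| ≤
        2 ^ (G + 2 * P + r) * (2 ^ v (k + 1) / 2 ^ q) := by
      calc ∑ j ∈ range l, 2 ^ g (k + 1) j * |(V' (some (c j)) - dd (ψ (k + 1) j) y V') -
          (V (some (c j)) - dd (ψ (k + 1) j) x V)| ≤
          ∑ _j ∈ range l, 2 ^ G * (2 ^ v (k + 1) / 2 ^ q) := by
            refine Finset.sum_le_sum fun j hj => ?_
            have h4 := hW j (Finset.mem_range.1 hj)
            calc _ ≤ 2 ^ g (k + 1) j * (2 ^ G * (2 ^ v (k + 1) / 2 ^ (g (k + 1) j + q))) :=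
                  mul_le_mul_of_nonneg_left h4 (by positivity)
              _ = _ := by
                  rw [pow_add _ (g (k + 1) j)]
                  field_simp
        _ = l * (2 ^ G * (2 ^ v (k + 1) / 2 ^ q)) := by
            rw [Finset.sum_const, Finset.card_range, nsmul_eq_mul]
        _ ≤ 2 ^ r * (2 ^ (G + 2 * P) * (2 ^ v (k + 1) / 2 ^ q)) := by
            refine mul_le_mul ?_ ?_ (by positivity) (by positivity)
            · have h5 := Nat.lt_two_pow_self (n := r)
              exact_mod_cast hl.trans h5.le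
            · exact mul_le_mul_of_nonneg_right (pow_le_pow_right₀ (by norm_num) (by omega))
                (by positivity)
        _ = _ := by
            rw [pow_add _ (G + 2 * P) r]
            ring
    calc _ ≤ (2 : ℝ) ^ (C₂ * (G + 2)) * (2 ^ P / 2 ^ g (k + 1) l) *
          (2 ^ (G + 2 * P) * (2 ^ v (k + 1) / 2 ^ q) +
            2 ^ (G + 2 * P + r) * (2 ^ v (k + 1) / 2 ^ q)) := by
          refine mul_le_mul (mul_le_mul_of_nonneg_right (pow_le_pow_right₀ (by norm_num)
            (Nat.mul_le_mul_right _ hCl)) (by positivity)) (add_le_add h2 h3)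
            (add_nonneg (mul_nonneg (by positivity) (nrm_nonneg _ _ _ _ _ _ _))
              (Finset.sum_nonneg fun _ _ => by positivity)) (by positivity)
      _ ≤ 2 ^ (C₂ * (G + 2)) * (2 ^ P / 2 ^ g (k + 1) l) *
          (2 ^ (G + 2 * P + r + 1) * (2 ^ v (k + 1) / 2 ^ q)) := by
          refine mul_le_mul_of_nonneg_left ?_ (by positivity)
          rw [← add_mul]
          refine mul_le_mul_of_nonneg_right ?_ (by positivity)
          have h5 : (2 : ℝ) ^ (G + 2 * P) ≤ 2 ^ (G + 2 * P + r) :=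
            pow_le_pow_right₀ (by norm_num) (by omega)
          rw [pow_succ _ (G + 2 * P + r)]
          linarith
      _ = _ := by
          have e : C₂ * (G + 2) + P + G + 2 * P + r + 1 =
            C₂ * (G + 2) + (P + (G + 2 * P + r + 1)) := by ring
          rw [e, pow_add _ (C₂ * (G + 2)), pow_add _ P, pow_add _ (g (k + 1) l)]
          field_simp
  -- the velocities at all windows
  have key : ∀ l ≤ r, ∀ j < l, ∀ k < N,
      |(V' (some (c j)) - dd (ψ (k + 1) j) y V') - (V (some (c j)) - dd (ψ (k + 1) j) x V)| ≤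
        2 ^ (A ^ l * (E + 1)) * (2 ^ v (k + 1) / 2 ^ (g (k + 1) j + q)) := by
    intro l
    induction l with
    | zero => exact fun _ j hj => absurd hj (Nat.not_lt_zero j)
    | succ l ih =>
      intro hl j hj k hk
      have hAl2 : A ^ l ≤ A ^ (l + 1) := Nat.pow_le_pow_right hA1 (Nat.le_succ l)
      rcases Nat.lt_or_ge j l with hjl | hjl
      · exact (ih (by omega) j hjl k hk).trans (mul_le_mul_of_nonneg_right (pow_le_pow_right₀
          (by norm_num) (Nat.mul_le_mul_right _ hAl2)) (by positivity))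
      have hjl' : j = l := by omega
      subst hjl'
      obtain ⟨G, hG⟩ : ∃ G : ℕ, G = A ^ j * (E + 1) := ⟨_, rfl⟩
      have hEG : E + 1 ≤ G := by
        rw [hG]
        exact Nat.le_mul_of_pos_left _ (Nat.pos_of_ne_zero (by
          have := Nat.one_le_pow j A hA1
          omega))
      have hE' : A ^ (j + 1) * (E + 1) = A * G := by rw [hG, pow_succ]; ring
      rw [hE']
      have h0 := hVf j (by omega)
      have h1 := H.dd_eq (l := j) (by omega) y V' (Nat.zero_le (k + 1)) (by omega)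
      have h2 := H.dd_eq (l := j) (by omega) x V (Nat.zero_le (k + 1)) (by omega)
      have e1 : (V' (some (c j)) - dd (ψ (k + 1) j) y V') -
          (V (some (c j)) - dd (ψ (k + 1) j) x V) =
          ∑ k' ∈ Finset.Ico 0 (k + 1), (dd (Q k' j) y V' - dd (Q k' j) x V) := by
        rw [Finset.sum_sub_distrib, ← h1, ← h2]
        linarith
      rw [e1]
      have h3 := H.sum_le (S := Finset.Ico 0 (k + 1))
        (f := fun k' => dd (Q k' j) y V' - dd (Q k' j) x V)
        (B := 2 ^ (C₂ * (G + 2) + P + G + 2 * P + r + 1 + P) *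
          (2 ^ v (k + 1) / 2 ^ (g (k + 1) j + q))) (by positivity)
        (fun k' hk' => by rw [Finset.mem_Ico] at hk'; omega) (fun k' hk' => by
          rw [Finset.mem_Ico] at hk'
          refine (hone j (by omega) G hEG k' (by omega) (fun i hi => by
            rw [hG]
            exact ih (by omega) i hi k' (by omega))).trans ?_
          have h4 := n2 j (by omega) k hk k' (by omega)
          rw [← mul_div_assoc, ← mul_div_assoc, div_le_div_iff₀ (by positivity) (by positivity),
            ← pow_add, ← pow_add, ← pow_add, ← pow_add]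
          exact pow_le_pow_right₀ (by norm_num) (by omega))
      refine h3.trans ?_
      rw [← mul_assoc, ← pow_add]
      refine mul_le_mul_of_nonneg_right (pow_le_pow_right₀ (by norm_num) ?_) (by positivity)
      rw [hA]
      have e2 : (3 * C₂ + r + 9) * G = C₂ * G + 2 * C₂ * G + r * G + 9 * G := by ring
      have e3 : C₂ * (G + 2) = C₂ * G + 2 * C₂ := by ring
      have e4 : 2 * C₂ ≤ 2 * C₂ * G := Nat.le_mul_of_pos_right _ (by omega)
      have e5 : r ≤ r * G := Nat.le_mul_of_pos_right _ (by omega)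
      omega
  intro l hl γ vs hvs
  obtain ⟨G, hG⟩ : ∃ G : ℕ, G = A ^ r * (E + 1) := ⟨_, rfl⟩
  have hEG : E + 1 ≤ G := by
    rw [hG]
    exact Nat.le_mul_of_pos_left _ (Nat.pos_of_ne_zero (by
      have := Nat.one_le_pow r A hA1
      omega))
  have hE' : A ^ (r + 1) * (E + 1) = A * G := by rw [hG, pow_succ]; ring
  rw [hE', H.dd_eq hl y V' (Nat.zero_le N) le_rfl, H.dd_eq hl x V (Nat.zero_le N) le_rfl,
    ← Finset.sum_sub_distrib]
  have h3 := H.sum_le (S := Finset.Ico 0 N)
    (f := fun k' => dd (Q k' l) y V' - dd (Q k' l) x V)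
    (B := 2 ^ (C₂ * (G + 2) + P + G + 2 * P + r + 1 + P) * (2 ^ vs / 2 ^ (γ + q))) (by positivity)
    (fun k' hk' => by rw [Finset.mem_Ico] at hk'; omega) (fun k' hk' => by
      rw [Finset.mem_Ico] at hk'
      refine (hone l hl G hEG k' hk'.2 (fun i hi => by
        rw [hG]
        exact key r le_rfl i (by omega) k' hk'.2)).trans ?_
      have h4 := hvs k' hk'.2
      rw [← mul_div_assoc, ← mul_div_assoc, div_le_div_iff₀ (by positivity) (by positivity),
        ← pow_add, ← pow_add, ← pow_add, ← pow_add]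
      exact pow_le_pow_right₀ (by norm_num) (by omega))
  refine h3.trans ?_
  rw [← mul_assoc, ← pow_add]
  refine mul_le_mul_of_nonneg_right (pow_le_pow_right₀ (by norm_num) ?_) (by positivity)
  rw [hA]
  have e2 : (3 * C₂ + r + 9) * G = C₂ * G + 2 * C₂ * G + r * G + 9 * G := by ring
  have e3 : C₂ * (G + 2) = C₂ * G + 2 * C₂ := by ring
  have e4 : 2 * C₂ ≤ 2 * C₂ * G := Nat.le_mul_of_pos_right _ (by omega)
  have e5 : r ≤ r * G := Nat.le_mul_of_pos_right _ (by omega)
  omega

end Pool.EN91
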