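import Pool.Agent.H23.D2.Fbx

/-!
# A polynomial which is bounded on a natural box, at two near points

`fbt`: the coordinates in the heights over the charts `ψ` (the time is a coordinate). `two_pt`: the
value and the first derivative at two points with the same time and near heights, in the directions of
two vectors with near natural components.
-/

set_option autoImplicit false

namespace Pool.EN91

open Finset Real MvPolynomial
open Pool.Agent.H49.Ent Pool.Agent.H32.Dense Pool.STK Pool.KA Pool.KSAT Pool.K2S Pool.PB Pool.S6C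
open Pool.GEN Pool.CHT Pool.CHX Pool.ISO Pool.D2R

variable {m : ℕ}

/-- **The coordinates in the heights** over `ψ`, in the unit `s`. -/
noncomputable def fbt (c : ℕ → Fin m) (ψ : ℕ → MvPolynomial (Option (Fin m)) ℝ) (s : ℝ) :
    ℕ → Option (Fin m) → MvPolynomial (Option (Fin m)) ℝ
  | 0 => fun o => X o
  | k + 1 => Function.update (fbt c ψ s k) (some (c k))
      (bind₁ (fbt c ψ s k) (ψ k) + C s * X (some (c k)))

theorem dd_Xo (o : Option (Fin m)) (x W : Option (Fin m) → ℝ) :
    dd (X o : MvPolynomial (Option (Fin m)) ℝ) x W = W o := by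
  classical
  unfold dd
  rw [Finset.sum_eq_single o]
  · rw [pderiv_X_self, map_one, one_mul]
  · intro o' _ ho
    rw [pderiv_X_of_ne (Ne.symm ho), map_zero, zero_mul]
  · intro h
    exact absurd (Finset.mem_univ _) h

section

variable {c : ℕ → Fin m} {ψ : ℕ → MvPolynomial (Option (Fin m)) ℝ} {s : ℝ}

theorem fbt_none (k : ℕ) : fbt c ψ s k none = X none := by
  induction k with
  | zero => rfl
  | succ k ih =>
    show Function.update (fbt c ψ s k) (some (c k)) _ none = _
    rw [Function.update_of_ne (by simp)]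
    exact ih

theorem fbt_lt {r : ℕ} (hc : Set.InjOn c (Set.Iio r)) {l : ℕ} (k : ℕ) (hl : l < k) (hk : k ≤ r) :
    fbt c ψ s k (some (c l)) = bind₁ (fbt c ψ s l) (ψ l) + C s * X (some (c l)) := by
  induction k with
  | zero => exact absurd hl (Nat.not_lt_zero l)
  | succ k ih =>
    show Function.update (fbt c ψ s k) (some (c k)) _ (some (c l)) = _
    rcases Nat.lt_or_ge l k with h | h
    · rw [Function.update_of_ne]
      · exact ih h (by omega)
      · intro h'
        have := hc (show l < r by omega) (show k < r by omega) (Option.some_injective _ h')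
        omega
    · have : l = k := by omega
      subst this
      rw [Function.update_self]

theorem fbt_deg {K : ℕ} (hψ : ∀ l, (ψ l).totalDegree ≤ K) (k : ℕ) (o : Option (Fin m)) :
    (fbt c ψ s k o).totalDegree ≤ (K + 1) ^ k := by
  induction k generalizing o with
  | zero =>
    show (X o : MvPolynomial (Option (Fin m)) ℝ).totalDegree ≤ _
    rw [totalDegree_X, pow_zero]
  | succ k ih =>
    show (Function.update (fbt c ψ s k) (some (c k)) _ o).totalDegree ≤ _
    have h1 : (1 : ℕ) ≤ (K + 1) ^ k := Nat.one_le_pow _ _ (Nat.succ_pos K)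
    have h2 : (K + 1) ^ k ≤ (K + 1) ^ (k + 1) := Nat.pow_le_pow_right (Nat.succ_pos K)
      (Nat.le_succ k)
    by_cases ho : o = some (c k)
    · subst ho
      rw [Function.update_self]
      refine (totalDegree_add _ _).trans (max_le ?_ ?_)
      · refine (deg_bind ih (hψ k)).trans ?_
        rw [pow_succ, mul_comm]
        exact Nat.mul_le_mul_left _ (Nat.le_succ K)
      · refine (totalDegree_mul _ _).trans ?_
        rw [totalDegree_C, totalDegree_X, zero_add]
        exact h1.trans h2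
    · rw [Function.update_of_ne ho]
      exact (ih o).trans h2

/-- The point with the heights `e`. -/
noncomputable def ept (c : ℕ → Fin m) (ψ : ℕ → MvPolynomial (Option (Fin m)) ℝ) (s : ℝ) (r : ℕ)
    (e : Option (Fin m) → ℝ) : Option (Fin m) → ℝ := fun o => eval e (fbt c ψ s r o)

theorem ept_none (r : ℕ) (e : Option (Fin m) → ℝ) : ept c ψ s r e none = e none := by
  unfold ept
  rw [fbt_none, eval_X]

theorem ept_lt {r : ℕ} (hc : Set.InjOn c (Set.Iio r)) (hdep : ∀ l, DepC c l (ψ l))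
    (e : Option (Fin m) → ℝ) {l : ℕ} (hl : l < r) :
    ept c ψ s r e (some (c l)) = eval (ept c ψ s r e) (ψ l) + s * e (some (c l)) := by
  have h1 : ept c ψ s r e (some (c l)) =
      eval e (bind₁ (fbt c ψ s l) (ψ l)) + s * e (some (c l)) := by
    unfold ept
    rw [fbt_lt hc r hl le_rfl, map_add, map_mul, eval_C, eval_X]
  rw [h1, ev_bind]
  congr 1
  refine hdep l _ _ ?_ fun j hj => ?_
  · unfold ept
    rw [fbt_none, fbt_none]
  · unfold ept
    rw [fbt_lt hc l hj hl.le, fbt_lt hc r (hj.trans hl) le_rfl]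

/-- The first coordinates only depend on the first heights. -/
theorem ept_dep {r : ℕ} (hc : Set.InjOn c (Set.Iio r)) (hdep : ∀ l, DepC c l (ψ l))
    {e e' : Option (Fin m) → ℝ} (h0 : e none = e' none)
    (h : ∀ j < r, e (some (c j)) = e' (some (c j))) :
    ∀ j < r, ept c ψ s r e (some (c j)) = ept c ψ s r e' (some (c j)) := by
  intro j
  induction j using Nat.strong_induction_on with
  | _ j ih =>
    intro hj
    rw [ept_lt hc hdep e hj, ept_lt hc hdep e' hj, h j hj]
    congr 1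
    exact hdep j _ _ (by rw [ept_none, ept_none, h0]) fun j' hj' => ih j' hj' (by omega)

theorem fbt_depC {r : ℕ} (hc : Set.InjOn c (Set.Iio r)) (hdep : ∀ l, DepC c l (ψ l))
    {Q : MvPolynomial (Option (Fin m)) ℝ} (hQ : DepC c r Q) :
    DepC c r (bind₁ (fbt c ψ s r) Q) := by
  intro e e' h0 h
  rw [ev_bind, ev_bind]
  refine hQ _ _ ?_ fun j hj => ept_dep hc hdep h0 h j hj
  show eval e (fbt c ψ s r none) = eval e' (fbt c ψ s r none)
  rw [fbt_none, eval_X, eval_X, h0]

/-- Every point has heights. -/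
theorem ept_inv {r : ℕ} (hc : Set.InjOn c (Set.Iio r)) (hdep : ∀ l, DepC c l (ψ l))
    {y e : Option (Fin m) → ℝ} (h0 : e none = y none)
    (he : ∀ l < r, s * e (some (c l)) = y (some (c l)) - eval y (ψ l)) :
    ∀ l < r, ept c ψ s r e (some (c l)) = y (some (c l)) := by
  intro l
  induction l using Nat.strong_induction_on with
  | _ l ih =>
    intro hl
    rw [ept_lt hc hdep e hl, he l hl, hdep l _ y (by rw [ept_none, h0])
      fun j hj => ih j hj (hj.trans hl)]
    ring

/-- The derivative of the coordinates. -/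
noncomputable def edv (c : ℕ → Fin m) (ψ : ℕ → MvPolynomial (Option (Fin m)) ℝ) (s : ℝ) (r : ℕ)
    (e V : Option (Fin m) → ℝ) : Option (Fin m) → ℝ := fun o => dd (fbt c ψ s r o) e V

theorem edv_none (r : ℕ) (e V : Option (Fin m) → ℝ) : edv c ψ s r e V none = V none := by
  unfold edv
  rw [fbt_none, dd_Xo]

theorem edv_lt {r : ℕ} (hc : Set.InjOn c (Set.Iio r)) (hdep : ∀ l, DepC c l (ψ l))
    (e V : Option (Fin m) → ℝ) {l : ℕ} (hl : l < r) :
    edv c ψ s r e V (some (c l)) =
      dd (ψ l) (ept c ψ s r e) (edv c ψ s r e V) + s * V (some (c l)) := by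
  have h1 : edv c ψ s r e V (some (c l)) =
      dd (bind₁ (fbt c ψ s l) (ψ l)) e V + s * V (some (c l)) := by
    unfold edv
    rw [fbt_lt hc r hl le_rfl, dd_padd, dd_mul, dd_C, dd_Xo, eval_C]
    ring
  have hf : ∀ j < l, fbt c ψ s l (some (c j)) = fbt c ψ s r (some (c j)) := fun j hj => by
    rw [fbt_lt hc l hj hl.le, fbt_lt hc r (hj.trans hl) le_rfl]
  rw [h1, dd_bind]
  congr 1
  have h2 : dd (ψ l) (fun o => eval e (fbt c ψ s l o)) (fun o => dd (fbt c ψ s l o) e V) =
      dd (ψ l) (fun o => eval e (fbt c ψ s l o)) (edv c ψ s r e V) :=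
    dd_congr (hdep l) _ (by
      show dd (fbt c ψ s l none) e V = _
      rw [edv_none, fbt_none, dd_Xo]) fun j hj => by
      show dd (fbt c ψ s l (some (c j))) e V = _
      rw [hf j hj]
      rfl
  rw [h2]
  exact dd_congr_pt (hdep l) _ (by
    show eval e (fbt c ψ s l none) = _
    rw [ept_none, fbt_none, eval_X]) fun j hj => by
    show eval e (fbt c ψ s l (some (c j))) = _
    rw [hf j hj]
    rfl

/-- Every vector has natural components. -/
theorem edv_inv {r : ℕ} (hc : Set.InjOn c (Set.Iio r)) (hdep : ∀ l, DepC c l (ψ l))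
    {y e V W : Option (Fin m) → ℝ} (h0 : e none = y none)
    (he : ∀ l < r, s * e (some (c l)) = y (some (c l)) - eval y (ψ l)) (hW0 : W none = V none)
    (hW : ∀ l < r, s * W (some (c l)) = V (some (c l)) - dd (ψ l) y V) :
    ∀ l < r, edv c ψ s r e W (some (c l)) = V (some (c l)) := by
  have hp := ept_inv (s := s) hc hdep h0 he
  intro l
  induction l using Nat.strong_induction_on with
  | _ l ih =>
    intro hl
    rw [edv_lt hc hdep e W hl, hW l hl]
    have h1 : dd (ψ l) (ept c ψ s r e) (edv c ψ s r e W) = dd (ψ l) y V := by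
      rw [dd_congr_pt (hdep l) (x := ept c ψ s r e) (y := y) _ (by rw [ept_none, h0])
        fun j hj => hp j (hj.trans hl)]
      exact dd_congr (hdep l) _ (by rw [edv_none, hW0]) fun j hj => ih j hj (hj.trans hl)
    rw [h1]
    ring

end

/-- **The value and the first derivative at two near points** of a natural box. -/
theorem two_pt (D r : ℕ) : ∃ C : ℕ, 1 ≤ C ∧ ∀ {m : ℕ} {c : ℕ → Fin m}
    {ψ : ℕ → MvPolynomial (Option (Fin m)) ℝ} {Q : MvPolynomial (Option (Fin m)) ℝ}
    {g : ℕ → ℕ} {a n : ℕ} {M δ : ℝ} {x y V V' : Option (Fin m) → ℝ}, Set.InjOn c (Set.Iio r) →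
    (∀ l, (ψ l).totalDegree ≤ D) → (∀ l, DepC c l (ψ l)) → Q.totalDegree ≤ D → DepC c r Q →
    0 ≤ M → (∀ b, NBx c ψ g a (x none) r b → |eval b Q| ≤ M) → y none = x none →
    (∀ l < r, |x (some (c l)) - eval x (ψ l)| ≤ 2 ^ n / 2 ^ g l) →
    (∀ l < r, |y (some (c l)) - eval y (ψ l)| ≤ 2 ^ n / 2 ^ g l) → 0 ≤ δ →
    (∀ l < r, |(y (some (c l)) - eval y (ψ l)) - (x (some (c l)) - eval x (ψ l))| ≤
      δ / 2 ^ g l) →
    |eval y Q - eval x Q| ≤ 2 ^ (C * (n + 1)) * M * δ ∧
    (V' none = V none → |dd Q y V' - dd Q x V| ≤ 2 ^ (C * (n + 1)) * M *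
      (δ * nrm c ψ g a r x V + ∑ l ∈ range r, 2 ^ g l *
        |(V' (some (c l)) - dd (ψ l) y V') - (V (some (c l)) - dd (ψ l) x V)|)) := by
  classical
  obtain ⟨C₁, hC₁, hbx⟩ := box_all r 0 (D * (D + 1) ^ r)
  obtain ⟨c₀, D₁, hD₁, hdil⟩ := nbx_dil (r + 1) (fun _ => D)
  obtain ⟨c₁, hc₁⟩ := pow_unbounded_of_one_lt C₁ (one_lt_two (α := ℝ))
  refine ⟨c₀ + D₁ + c₁ + r + 1, by omega, ?_⟩
  intro m c ψ Q g a n M δ x y V V' hc hψ hdep hQd hQ hM hbox hyx hx hy hδ hxy
  obtain ⟨s, hsn⟩ : ∃ s : ℝ, s = 2 ^ n := ⟨_, rfl⟩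
  have hs1 : 1 ≤ s := by rw [hsn]; exact one_le_pow₀ (by norm_num)
  have hs0 : 0 < s := by linarith
  -- vectors with given coordinates
  have hvec : ∀ (t : ℝ) (u : ℕ → ℝ), ∃ e : Option (Fin m) → ℝ, e none = t ∧
      ∀ l < r, s * e (some (c l)) = u l := by
    intro t u
    obtain ⟨e, h0, h1⟩ := vec_adapt (c := c) (i := r) hc (G := fun _ => 0)
      (fun l b b' _ _ => by simp) x t (fun l => u l / s) r le_rfl
    refine ⟨e, h0, fun l hl => ?_⟩
    have h2 := h1 l hl
    have h3 : dd (0 : MvPolynomial (Option (Fin m)) ℝ) x e = 0 := by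
      unfold dd
      simp
    rw [h3, sub_zero] at h2
    rw [h2]
    field_simp
  obtain ⟨ex, ex0, ex1⟩ := hvec (x none) fun l => x (some (c l)) - eval x (ψ l)
  obtain ⟨ey, ey0, ey1⟩ := hvec (y none) fun l => y (some (c l)) - eval y (ψ l)
  obtain ⟨W, W0, W1⟩ := hvec (V none) fun l => V (some (c l)) - dd (ψ l) x V
  obtain ⟨W', W'0, W'1⟩ := hvec (V' none) fun l => V' (some (c l)) - dd (ψ l) y V'
  obtain ⟨η, hη⟩ : ∃ η : Option (Fin m) → ℝ, η = fun o => ey o - ex o := ⟨_, rfl⟩
  obtain ⟨z, hz⟩ : ∃ z : ℕ → MvPolynomial (Option (Fin m)) ℝ, z = fun _ => 0 := ⟨_, rfl⟩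
  obtain ⟨F, hF⟩ : ∃ F : MvPolynomial (Option (Fin m)) ℝ, F = bind₁ (fbt c ψ s r) Q := ⟨_, rfl⟩
  obtain ⟨M', hM'⟩ : ∃ M' : ℝ, M' = 2 ^ (c₀ + n * D₁) * M := ⟨_, rfl⟩
  have hM'0 : 0 ≤ M' := by rw [hM']; positivity
  have hCM : 0 ≤ C₁ * M' := by positivity
  have hFe : ∀ e, eval e F = eval (ept c ψ s r e) Q := fun e => by
    rw [hF, ev_bind]
    rfl
  have hFd : ∀ e U, dd F e U = dd Q (ept c ψ s r e) (edv c ψ s r e U) := fun e U => by
    rw [hF, dd_bind]
    rfl
  have hηn : η none = 0 := by rw [hη]; show ey none - ex none = 0; rw [ey0, ex0, hyx, sub_self]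
  have hηl : ∀ l < r, 2 ^ g l * |η (some (c l))| ≤ δ := by
    intro l hl
    have h1 : s * η (some (c l)) = (y (some (c l)) - eval y (ψ l)) -
        (x (some (c l)) - eval x (ψ l)) := by
      rw [hη]
      show s * (ey (some (c l)) - ex (some (c l))) = _
      rw [mul_sub, ex1 l hl, ey1 l hl]
    have h2 := hxy l hl
    rw [← h1, abs_mul, abs_of_pos hs0, le_div_iff₀ (by positivity)] at h2
    have h3 : |η (some (c l))| * 2 ^ g l ≤ s * |η (some (c l))| * 2 ^ g l :=
      mul_le_mul_of_nonneg_right (le_mul_of_one_le_left (abs_nonneg _) hs1) (by positivity)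
    linarith
  -- the norm
  have hnr : ∀ e U : Option (Fin m) → ℝ, nrm c z g a r e U =
      2 ^ a * |U none| + ∑ l ∈ range r, 2 ^ g l * |U (some (c l))| := by
    intro e U
    unfold nrm
    congr 1
    refine Finset.sum_congr rfl fun l _ => ?_
    have h3 : dd (z l) e U = 0 := by
      rw [hz]
      unfold dd
      simp
    rw [h3, sub_zero]
  have hnz : ∀ e U U' : Option (Fin m) → ℝ, nrz c z g a r e U U' 0 = 0 := by
    intro e U U'
    unfold nrz
    rw [Pi.zero_apply, abs_zero, mul_zero, zero_add]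
    refine Finset.sum_eq_zero fun l _ => ?_
    have h3 : dd (z l) e 0 = 0 := by unfold dd; simp
    have h4 : hs (z l) e U U' = 0 := by
      rw [hz]
      unfold hs dd
      simp
    rw [h3, h4, Pi.zero_apply, sub_zero, sub_zero, abs_zero, mul_zero]
  have hd0 : ∀ e : Option (Fin m) → ℝ, dd F e 0 = 0 := by
    intro e
    unfold dd
    simp
  have hall : ∀ e : Option (Fin m) → ℝ, e none = x none →
      (∀ l < r, |e (some (c l))| ≤ 1 / 2 ^ g l) →
      (∀ U, |dd F e U| ≤ C₁ * M' * nrm c z g a r e U) ∧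
      ∀ U U', |hs F e U U'| ≤ C₁ * M' * (nrm c z g a r e U * nrm c z g a r e U') := by
    intro e he0 he
    obtain ⟨k1, k2⟩ := hbx (c := c) (ψ := z) (Q := F) (g := g) (a := a) (M := M') (x := e) hc
      (fun l => by rw [hz]; simp) (fun l b b' _ _ => by rw [hz]; simp)
      (by rw [hF]; exact fbt_depC hc hdep hQ) (by
        rw [hF]
        exact deg_bind (fbt_deg hψ r) hQd) hM'0 (fun b hb => by
        rw [hFe, hM']
        refine hdil (c := c) (i := r) (G := ψ) (Q := Q) (g := g) (a := a) (t := x none) n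
          (Nat.lt_succ_self r) hc hψ hdep hQ hQd hM hbox _ ?_ fun l hl => ?_
        · rw [ept_none]
          have := hb.1
          rwa [he0] at this
        · rw [ept_lt hc hdep b hl, add_sub_cancel_left, abs_mul, abs_of_pos hs0, ← hsn]
          have h2 := hb.2 l hl
          have h3 : eval b (z l) = 0 := by rw [hz]; simp
          rw [h3, sub_zero] at h2
          calc s * |b (some (c l))| ≤ s * (1 / 2 ^ g l) := mul_le_mul_of_nonneg_left h2 hs0.le
            _ = _ := by rw [mul_one_div])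
      (fun l hl => by
        have h3 : eval e (z l) = 0 := by rw [hz]; simp
        rw [h3, sub_zero]
        exact he l hl)
    refine ⟨k1, fun U U' => ?_⟩
    have h3 := k2 U U' 0
    rw [hnz, add_zero, hd0, add_zero] at h3
    exact h3
  have hexl : ∀ l < r, |ex (some (c l))| ≤ 1 / 2 ^ g l := by
    intro l hl
    have h2 := hx l hl
    rw [← ex1 l hl, abs_mul, abs_of_pos hs0, ← hsn] at h2
    rw [div_eq_mul_one_div] at h2
    exact le_of_mul_le_mul_left h2 hs0
  have heyl : ∀ l < r, |ey (some (c l))| ≤ 1 / 2 ^ g l := by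
    intro l hl
    have h2 := hy l hl
    rw [← ey1 l hl, abs_mul, abs_of_pos hs0, ← hsn] at h2
    rw [div_eq_mul_one_div] at h2
    exact le_of_mul_le_mul_left h2 hs0
  have hseg : ∀ u ∈ Set.Icc (0 : ℝ) 1, (fun o => ex o + u * η o) none = x none ∧
      ∀ l < r, |(fun o => ex o + u * η o) (some (c l))| ≤ 1 / 2 ^ g l := by
    intro u hu
    refine ⟨?_, fun l hl => ?_⟩
    · show ex none + u * η none = _
      rw [hηn, mul_zero, add_zero, ex0]
    · show |ex (some (c l)) + u * η (some (c l))| ≤ _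
      have e1 : ex (some (c l)) + u * η (some (c l)) =
          (1 - u) * ex (some (c l)) + u * ey (some (c l)) := by
        rw [hη]
        ring
      rw [e1]
      refine (abs_add_le _ _).trans ?_
      rw [abs_mul, abs_mul, abs_of_nonneg hu.1, abs_of_nonneg (by linarith [hu.2] : 0 ≤ 1 - u)]
      have h2 := mul_le_mul_of_nonneg_left (hexl l hl) (by linarith [hu.2] : 0 ≤ 1 - u)
      have h3 := mul_le_mul_of_nonneg_left (heyl l hl) hu.1
      calc _ ≤ (1 - u) * (1 / 2 ^ g l) + u * (1 / 2 ^ g l) := add_le_add h2 h3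
        _ = _ := by ring
  have e1 : (fun o => ex o + 1 * η o) = ey := by
    rw [hη]
    funext o
    ring
  have hηN : ∀ e, nrm c z g a r e η ≤ r * δ := by
    intro e
    rw [hnr, hηn, abs_zero, mul_zero, zero_add]
    calc ∑ l ∈ range r, 2 ^ g l * |η (some (c l))| ≤ ∑ _l ∈ range r, δ :=
          Finset.sum_le_sum fun l hl => hηl l (Finset.mem_range.1 hl)
      _ = _ := by rw [Finset.sum_const, Finset.card_range, nsmul_eq_mul]
  -- the constants
  have hr0 : (0 : ℝ) ≤ r := Nat.cast_nonneg r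
  have hrr : (r : ℝ) ≤ 2 ^ r := by
    have := Nat.lt_two_pow_self (n := r)
    exact_mod_cast this.le
  have hK : C₁ * M' * (r + 1) ≤ 2 ^ ((c₀ + D₁ + c₁ + r + 1) * (n + 1)) * M := by
    have h1 : (r : ℝ) + 1 ≤ 2 ^ (r + 1) := by
      have : (1 : ℝ) ≤ 2 ^ r := one_le_pow₀ (by norm_num)
      rw [pow_succ]
      linarith
    have h2 : C₁ * 2 ^ (c₀ + n * D₁) * (r + 1) ≤ 2 ^ ((c₀ + D₁ + c₁ + r + 1) * (n + 1)) := by
      calc C₁ * 2 ^ (c₀ + n * D₁) * (r + 1) ≤ 2 ^ c₁ * 2 ^ (c₀ + n * D₁) * 2 ^ (r + 1) :=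
            mul_le_mul (mul_le_mul_of_nonneg_right hc₁.le (by positivity)) h1 (by positivity)
              (by positivity)
        _ = 2 ^ (c₁ + (c₀ + n * D₁) + (r + 1)) := by rw [pow_add _ (c₁ + _), pow_add _ c₁]
        _ ≤ _ := by
            refine pow_le_pow_right₀ (by norm_num) ?_
            have e : (c₀ + D₁ + c₁ + r + 1) * (n + 1) = c₁ + (c₀ + n * D₁) + (r + 1) +
              (c₀ * n + D₁ + c₁ * n + r * n + n) := by ring
            rw [e]
            exact Nat.le_add_right _ _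
    calc C₁ * M' * (r + 1) = C₁ * 2 ^ (c₀ + n * D₁) * (r + 1) * M := by rw [hM']; ring
      _ ≤ _ := mul_le_mul_of_nonneg_right h2 hM
  have hQx : eval ex F = eval x Q := by
    rw [hFe]
    exact hQ _ _ (by rw [ept_none, ex0]) (ept_inv hc hdep ex0 ex1)
  have hQy : eval ey F = eval y Q := by
    rw [hFe]
    exact hQ _ _ (by rw [ept_none, ey0]) (ept_inv hc hdep ey0 ey1)
  refine ⟨?_, fun hVV => ?_⟩
  · have h2 := mv_seg F ex η (M := C₁ * M' * (r * δ)) (fun u hu =>
      ((hall _ (hseg u hu).1 (hseg u hu).2).1 η).trans (mul_le_mul_of_nonneg_left (hηN _) hCM)) 1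
      ⟨zero_le_one, le_rfl⟩
    rw [e1, hQx, hQy] at h2
    refine h2.trans ?_
    calc C₁ * M' * (r * δ) = C₁ * M' * r * δ := by ring
      _ ≤ C₁ * M' * (r + 1) * δ := mul_le_mul_of_nonneg_right
          (mul_le_mul_of_nonneg_left (by linarith) hCM) hδ
      _ ≤ _ := mul_le_mul_of_nonneg_right hK hδ
  · have hdx : dd F ex W = dd Q x V := by
      rw [hFd, dd_congr_pt hQ (x := ept c ψ s r ex) (y := x) _ (by rw [ept_none, ex0])
        (ept_inv hc hdep ex0 ex1)]
      exact dd_congr hQ _ (by rw [edv_none, W0]) (edv_inv hc hdep ex0 ex1 W0 W1)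
    have hdy : dd F ey W' = dd Q y V' := by
      rw [hFd, dd_congr_pt hQ (x := ept c ψ s r ey) (y := y) _ (by rw [ept_none, ey0])
        (ept_inv hc hdep ey0 ey1)]
      exact dd_congr hQ _ (by rw [edv_none, W'0]) (edv_inv hc hdep ey0 ey1 W'0 W'1)
    obtain ⟨N, hN⟩ : ∃ N : ℝ, N = nrm c ψ g a r x V := ⟨_, rfl⟩
    have hN0 : 0 ≤ N := by rw [hN]; exact nrm_nonneg _ _ _ _ _ _ _
    have hWN : ∀ e, nrm c z g a r e W ≤ N := by
      intro e
      rw [hnr, hN]
      unfold nrm
      rw [W0]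
      refine add_le_add le_rfl (Finset.sum_le_sum fun l hl => ?_)
      refine mul_le_mul_of_nonneg_left ?_ (by positivity)
      rw [← W1 l (Finset.mem_range.1 hl), abs_mul, abs_of_pos hs0]
      exact le_mul_of_one_le_left (abs_nonneg _) hs1
    obtain ⟨A, hA⟩ : ∃ A : ℝ, A = ∑ l ∈ range r, 2 ^ g l *
        |(V' (some (c l)) - dd (ψ l) y V') - (V (some (c l)) - dd (ψ l) x V)| := ⟨_, rfl⟩
    have hA0 : 0 ≤ A := by rw [hA]; exact Finset.sum_nonneg fun _ _ => by positivity
    rw [← hA, ← hN]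
    have h1 : |dd F ey W - dd F ex W| ≤ C₁ * M' * (r * δ * N) := by
      have h2 := mv_two F ex η W (M := C₁ * M' * (r * δ * N)) (fun u hu => by
        rw [dd_dP]
        refine ((hall _ (hseg u hu).1 (hseg u hu).2).2 W η).trans
          (mul_le_mul_of_nonneg_left ?_ hCM)
        rw [mul_comm (r * δ)]
        refine mul_le_mul (hWN _) (hηN _) (nrm_nonneg _ _ _ _ _ _ _) hN0) 1
        ⟨zero_le_one, le_rfl⟩
      rw [e1] at h2
      exact h2
    have h3 : |dd F ey W' - dd F ey W| ≤ C₁ * M' * A := by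
      have h4 := (hall ey (by rw [ey0, hyx]) heyl).1 (W' - W)
      have h5 : dd F ey (W' - W) = dd F ey W' - dd F ey W := by
        unfold dd
        rw [← Finset.sum_sub_distrib]
        exact Finset.sum_congr rfl fun o _ => by rw [Pi.sub_apply]; ring
      rw [h5] at h4
      refine h4.trans (mul_le_mul_of_nonneg_left ?_ hCM)
      rw [hnr, Pi.sub_apply, W'0, W0, hVV, sub_self, abs_zero, mul_zero, zero_add, hA]
      refine Finset.sum_le_sum fun l hl => ?_
      refine mul_le_mul_of_nonneg_left ?_ (by positivity)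
      have hl' := Finset.mem_range.1 hl
      rw [Pi.sub_apply, ← W1 l hl', ← W'1 l hl', ← mul_sub, abs_mul, abs_of_pos hs0]
      exact le_mul_of_one_le_left (abs_nonneg _) hs1
    rw [← hdx, ← hdy]
    have e2 : dd F ey W' - dd F ex W = (dd F ey W' - dd F ey W) + (dd F ey W - dd F ex W) := by
      ring
    rw [e2]
    refine (abs_add_le _ _).trans ((add_le_add h3 h1).trans ?_)
    have h6 : 0 ≤ δ * N := mul_nonneg hδ hN0
    calc C₁ * M' * A + C₁ * M' * (r * δ * N) ≤ C₁ * M' * ((r + 1) * A) +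
          C₁ * M' * ((r + 1) * (δ * N)) := by
          refine add_le_add (mul_le_mul_of_nonneg_left (le_mul_of_one_le_left hA0 (by linarith)) hCM)
            (mul_le_mul_of_nonneg_left ?_ hCM)
          nlinarith
      _ = C₁ * M' * (r + 1) * (δ * N + A) := by ring
      _ ≤ _ := mul_le_mul_of_nonneg_right hK (by linarith)

end Pool.EN91
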