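import Pool.Agent.H91.EN.Chn

/-!
# The velocities of two samples with near paths below

`vel_near`: two samples with the same time, frame and last charts (`q` digits later), with near heights
and velocities of the places `< k`: the heights and the velocities of the followers `k ≤ l < i`, and the
velocity of the target `i` minus the gradients times the velocities of the followers.
-/

set_option autoImplicit false

namespace Pool.EN91

open Finset Real MvPolynomial
open Pool.Agent.H49.Ent Pool.Agent.H32.Dense Pool.STK Pool.KA Pool.KSAT Pool.K2S Pool.PB Pool.S6C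
open Pool.GEN Pool.CHT Pool.CHX Pool.ISO Pool.D2R Pool.V0S

/-- **The velocities of two samples with near paths below.** -/
theorem vel_near (D r : ℕ) : ∃ C : ℕ, 1 ≤ C ∧ ∀ {m J : ℕ} {F : Fam m J} {c : ℕ → Fin m}
    {Dr N M : ℕ} {C₀ a Eb ηm : ℝ} {o η σ : ℕ → ℝ} {lv b : ℕ → ℕ → ℝ}
    {κ : ℝ} {z : ℕ → ℕ → ℕ} {B : F.Ω → Prop} {g₀ : ℕ → ℕ → ℕ}
    {G : ℕ → PtT F → ℕ → MvPolynomial (Option (Fin m)) ℝ}
    {H : ℕ → LnT F → ℕ → MvPolynomial (Option (Fin m)) ℝ}
    (_ : WinB F c r D Dr N M C₀ a Eb ηm o η σ lv b κ z B g₀ G H)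
    {G' : PtT F → ℕ → MvPolynomial (Option (Fin m)) ℝ} {κ' : F.Ω → ℕ → ℝ}
    {f jj : ℕ → ℕ} {n k i q u Y : ℕ} {s σ' : ℝ},
    Frm F c k i D Y B (G (f 0)) (g₀ (f 0)) ⌊o (f 0) * J⌋₊ G' κ' →
    Set.InjOn c (Set.Iio (r + 1)) → i ≤ r → k ≤ i → WDs o lv z J N M f jj n k i Y s σ' →
    C₀ * (ηm * J) ≤ Y → 3 ≤ Y → 1 ≤ s → 2 ≤ σ' →
    (∀ a b, a ≤ b → b ≤ n → ∀ l < k,
      (lv (f b) l - lv (f a) l) * J ≤ (o (f b) - o (f a)) * J + Y) →
    (s + 2) * ((o (f n) - o (f 0)) * J) ≤ (s + 2) * q + Y →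
    (s + 2) * q ≤ (s + 2) * ((o (f n) - o (f 0)) * J) + Y → (max 2 s - s) * q ≤ u →
    (∀ ω, B ω → ∀ a ≤ n, ∀ l ≤ i,
      |vel F c (G (f a)) ω l| ≤ 2 ^ (⌊o (f a) * J⌋₊ + Y) / 2 ^ g₀ (f a) l) →
    ∀ ω ν, B ω → B ν → F.t ω = F.t ν →
    (∀ l ≤ i, G' (ptr F J ω) l = G' (ptr F J ν) l) →
    (∀ l ≤ i, G (f n) (ptr F J ω) l = G (f n) (ptr F J ν) l) →
    (∀ j < k, |hgt F c G' ω j - hgt F c G' ν j| ≤ 2 ^ Y / 2 ^ (g₀ (f 0) j + q)) →
    (∀ j < k, |vel F c G' ω j - vel F c G' ν j| ≤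
      2 ^ (⌊o (f 0) * J⌋₊ + Y) / 2 ^ (g₀ (f 0) j + q)) →
    (∀ l < i, |hgt F c G' ω l - hgt F c G' ν l| ≤ 2 ^ (C * Y) / 2 ^ (g₀ (f 0) l + q)) ∧
    (∀ l < i, |vel F c G' ω l - vel F c G' ν l| ≤
      2 ^ (⌊o (f 0) * J⌋₊ + C * Y + u) / 2 ^ (g₀ (f 0) l + q)) ∧
    ∀ (mm : ℕ → ℝ) (Z : ℕ), (∀ l, k ≤ l → l < i →
      |gnh F c i (g₀ (f 0)) G' (G (f n)) ν l - mm l| * |vel F c G' ω l - vel F c G' ν l| ≤
        2 ^ (⌊o (f 0) * J⌋₊ + Z) / 2 ^ (g₀ (f 0) l + q)) →
      |(vel F c G' ω i - vel F c G' ν i) - ∑ l ∈ Finset.Ico k i,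
        2 ^ g₀ (f 0) l / 2 ^ g₀ (f 0) i * mm l * (vel F c G' ω l - vel F c G' ν l)| ≤
        2 ^ (⌊o (f 0) * J⌋₊ + C * Y + Z) / 2 ^ (g₀ (f 0) i + q) := by
  classical
  have hn1 := fun i : ℕ => near_rec D i
  choose Cn hCn1 hCn using hn1
  have hn2 := fun i : ℕ => vel_rec D i
  choose Cv hCv1 hCv using hn2
  obtain ⟨Cp, hCp1, hpt⟩ := pt_tg D r
  obtain ⟨C₁, hC₁⟩ : ∃ C₁ : ℕ, C₁ = ∑ i ∈ range (r + 1), Cn i := ⟨_, rfl⟩
  obtain ⟨C₂, hC₂⟩ : ∃ C₂ : ℕ, C₂ = ∑ i ∈ range (r + 1), Cv i := ⟨_, rfl⟩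
  -- `P = 12 Y + r + 1`, `E = (C₁ + 1) (P + 1)`, `K = C₂ (E + 1)`
  obtain ⟨e₁, he₁⟩ : ∃ e₁ : ℕ, e₁ = (C₁ + 1) * (r + 14) := ⟨_, rfl⟩
  obtain ⟨e₂, he₂⟩ : ∃ e₂ : ℕ, e₂ = C₂ * (e₁ + 1) + 12 := ⟨_, rfl⟩
  obtain ⟨A, hA⟩ : ∃ A : ℕ, A = e₁ + e₂ + Cp + r + 20 := ⟨_, rfl⟩
  have hA1 : 1 ≤ A := by omega
  refine ⟨A ^ (r + 2), Nat.one_le_pow _ _ hA1, ?_⟩
  intro m J F c Dr N M C₀ a Eb ηm o η σ lv b κ z B g₀ G H W G' κ' f jj n k i q u Y s σ' T hc hi hki
    V hY hY3 hs1 hσ2 hV1 hq1 hq2 hu hnat ω ν hω hν ht hG' hGn hh hv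
  have hJ : (0 : ℝ) ≤ J := Nat.cast_nonneg J
  have hY3R : (3 : ℝ) ≤ Y := by exact_mod_cast hY3
  have hY1 : 1 ≤ Y := by omega
  have hηm0 : 0 ≤ ηm := (W.hη (f 0) (V.fN 0 (Nat.zero_le n))).1.trans
    (W.hη (f 0) (V.fN 0 (Nat.zero_le n))).2
  have hηY : ηm * J ≤ Y := by
    have h1 : ηm * J ≤ C₀ * (ηm * J) := le_mul_of_one_le_left (mul_nonneg hηm0 hJ) W.C1
    linarith
  have hCni : Cn i ≤ C₁ := by
    rw [hC₁]
    exact Finset.single_le_sum (f := Cn) (fun _ _ => Nat.zero_le _)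
      (Finset.mem_range.2 (by omega))
  have hCvi : Cv i ≤ C₂ := by
    rw [hC₂]
    exact Finset.single_le_sum (f := Cv) (fun _ _ => Nat.zero_le _)
      (Finset.mem_range.2 (by omega))
  -- the numbers
  obtain ⟨w, hw⟩ : ∃ w : ℕ, w = ⌊o (f 0) * J⌋₊ := ⟨_, rfl⟩
  obtain ⟨t, ht'⟩ : ∃ t : ℕ → ℝ, t = fun a => (o (f a) - o (f 0)) * J := ⟨_, rfl⟩
  obtain ⟨S, hS⟩ : ∃ S : ℝ, S = max 2 s := ⟨_, rfl⟩
  have hS2 : 2 ≤ S := by rw [hS]; exact le_max_left _ _
  have hSs : s ≤ S := by rw [hS]; exact le_max_right _ _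
  have hSs2 : S ≤ s + 2 := by rw [hS]; exact max_le (by linarith) (by linarith)
  have hSσ : S ≤ σ' := by rw [hS]; exact max_le hσ2 V.sσ
  have ht0 : t 0 = 0 := by rw [ht']; show (o (f 0) - o (f 0)) * (J : ℝ) = 0; ring
  have htd : ∀ a b, (o (f b) - o (f a)) * J = t b - t a := by
    intro a b
    rw [ht']
    show _ = (o (f b) - o (f 0)) * (J : ℝ) - (o (f a) - o (f 0)) * J
    ring
  have htm : ∀ a b, a ≤ b → b ≤ n → t a ≤ t b := by
    intro a b hab hb
    have := V.toWDt.omeJ hab hb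
    rw [htd] at this
    linarith
  have htn : ∀ a ≤ n, 0 ≤ t a := fun a ha => by
    rw [← ht0]
    exact htm 0 a (Nat.zero_le a) ha
  rw [htd, ht0, sub_zero] at hq1 hq2
  have hmul : ∀ x : ℝ, 0 ≤ x → x ≤ s + 2 → x * (t n - q) ≤ Y ∧ x * (q - t n) ≤ Y := by
    intro x hx0 hx
    constructor
    · rcases le_or_gt (t n - q) 0 with h | h
      · have := mul_nonneg_of_nonpos_of_nonpos (neg_nonpos.2 hx0) h
        nlinarith
      · nlinarith [mul_le_mul_of_nonneg_right hx h.le]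
    · rcases le_or_gt ((q : ℝ) - t n) 0 with h | h
      · have := mul_nonneg_of_nonpos_of_nonpos (neg_nonpos.2 hx0) h
        nlinarith
      · nlinarith [mul_le_mul_of_nonneg_right hx h.le]
  obtain ⟨hq3, hq4⟩ := hmul 1 zero_le_one (by linarith)
  obtain ⟨L, hL⟩ : ∃ L : ℕ → ℕ → ℝ, L = fun k l => lv (f k) l * J := ⟨_, rfl⟩
  have hLd : ∀ k k' l, (lv (f k') l - lv (f k) l) * J = L k' l - L k l := by
    intro k k' l
    rw [hL]
    show _ = lv (f k') l * (J : ℝ) - lv (f k) l * J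
    ring
  have hg : ∀ k ≤ n, ∀ l ≤ i, L k l - Y ≤ (g₀ (f k) l : ℝ) ∧ (g₀ (f k) l : ℝ) ≤ L k l := by
    intro k hk l hl
    obtain ⟨-, -, a1, a2⟩ := W.g_num (V.fN k hk) (show l ≤ r by omega)
    rw [hL]
    exact ⟨by
      show lv (f k) l * (J : ℝ) - Y ≤ _
      linarith, a2⟩
  -- the slopes
  have hup : ∀ a b, a ≤ b → b ≤ n → ∀ l < i, L b l - L a l ≤ s * (t b - t a) + Y := by
    intro a b hab hb l hl
    have := V.sS a b hab hb l hl
    rwa [hLd, htd] at this
  have hup1 : ∀ a b, a ≤ b → b ≤ n → ∀ l < k, L b l - L a l ≤ (t b - t a) + Y := by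
    intro a b hab hb l hl
    have := hV1 a b hab hb l hl
    rwa [hLd, htd] at this
  have hlo : ∀ a b, a ≤ b → b ≤ n → ∀ l, k ≤ l → l < i → s * (t b - t a) - 2 * Y ≤ L b l - L a l := by
    intro a b hab hb l hkl hl
    have h1 := V.sf b hb l hkl hl
    have h2 := hup 0 a (Nat.zero_le a) (by omega) l hl
    rw [hLd, htd, ht0, sub_zero] at h1
    rw [ht0, sub_zero] at h2
    nlinarith
  have hlo1 : ∀ a b, a ≤ b → b ≤ n → ∀ l, k ≤ l → l < i → (t b - t a) - 2 * Y ≤ L b l - L a l := by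
    intro a b hab hb l hkl hl
    have h1 := hlo a b hab hb l hkl hl
    have h2 := htm a b hab hb
    nlinarith
  have htg : ∀ b ≤ n, S * t b ≤ L b i - L 0 i + Y := by
    intro b hb
    have h1 := V.sb b hb
    rw [hLd, htd, ht0, sub_zero] at h1
    exact (mul_le_mul_of_nonneg_right hSσ (htn b hb)).trans h1
  -- the exponents of the chain
  obtain ⟨d, hd⟩ : ∃ d : ℕ → ℕ, d = fun k => q - ⌊t (k - 1)⌋₊ := ⟨_, rfl⟩
  obtain ⟨v, hv'⟩ : ∃ v : ℕ → ℕ, v = fun k => w + ⌈S * t (k - 1)⌉₊ := ⟨_, rfl⟩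
  have hd1 : ∀ k ≤ n, q - t k ≤ (d (k + 1) : ℝ) ∧ (d (k + 1) : ℝ) + t k ≤ q + Y + 1 := by
    intro k hk
    have h1 : d (k + 1) = q - ⌊t k⌋₊ := by rw [hd]; rfl
    have h2 := Nat.floor_le (htn k hk)
    have h3 := Nat.lt_floor_add_one (t k)
    have h4 := htm k n hk le_rfl
    rw [h1]
    rcases le_or_gt ⌊t k⌋₊ q with h | h
    · rw [Nat.cast_sub h]
      constructor <;> linarith
    · rw [Nat.sub_eq_zero_of_le h.le]
      have h5 : (q : ℝ) < ⌊t k⌋₊ := by exact_mod_cast h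
      push_cast
      constructor <;> linarith
  have hv1 : ∀ k ≤ n, w + S * t k ≤ (v (k + 1) : ℝ) ∧ (v (k + 1) : ℝ) ≤ w + S * t k + 1 := by
    intro k hk
    have h1 : v (k + 1) = w + ⌈S * t k⌉₊ := by rw [hv']; rfl
    have h2 := Nat.le_ceil (S * t k)
    have h3 := (Nat.ceil_lt_add_one (mul_nonneg (by linarith) (htn k hk) : 0 ≤ S * t k)).le
    rw [h1]
    push_cast
    constructor <;> linarith
  have hwo : (w : ℝ) ≤ o (f 0) * J ∧ o (f 0) * J < w + 1 := by
    have h1 : 0 ≤ o (f 0) * J := mul_nonneg (W.ho (f 0) (V.fN 0 (Nat.zero_le n))).1 hJ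
    rw [hw]
    exact ⟨Nat.floor_le h1, Nat.lt_floor_add_one _⟩
  have hoa : ∀ k ≤ n, (⌊o (f k) * J⌋₊ : ℝ) ≤ w + t k + 1 := by
    intro k hk
    have h1 : 0 ≤ o (f k) * J := mul_nonneg (W.ho (f k) (V.fN k hk)).1 hJ
    have h2 : o (f k) * J = o (f 0) * J + t k := by
      rw [ht']
      show _ = o (f 0) * J + (o (f k) - o (f 0)) * (J : ℝ)
      ring
    linarith [Nat.floor_le h1, hwo.2]
  -- the chain
  obtain ⟨P, hP⟩ : ∃ P : ℕ, P = 12 * Y + r + 1 := ⟨_, rfl⟩
  have hPR : (P : ℝ) = 12 * Y + r + 1 := by rw [hP]; push_cast; ring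
  have hr0 : (0 : ℝ) ≤ r := Nat.cast_nonneg r
  obtain ⟨ψ, Q, gg, aa, kk, Hc, c1, c2, c3, c4⟩ := chp_of (P := P) W T hc hi hki V.toWDt hY hY3
    (by omega) hω
  have hxn : bt F ν none = bt F ω none := ht.symm
  have hGx : ∀ l ≤ i, ψ 0 l = G' (ptr F J ν) l := fun l hl => by rw [c1, hG' l hl]
  have hψn : ∀ l ≤ i, ψ (n + 1) l = G (f n) (ptr F J ν) l := fun l hl => by
    rw [c2 n le_rfl, hGn l hl]
  have hxω : ∀ l ≤ i, bt F ω (some (c l)) - eval (bt F ω) (ψ 0 l) = hgt F c G' ω l := fun l _ => by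
    rw [c1]
    rfl
  have hxν : ∀ l ≤ i, bt F ν (some (c l)) - eval (bt F ν) (ψ 0 l) = hgt F c G' ν l := fun l hl => by
    rw [hGx l hl]
    rfl
  have hcast : ∀ {a b : ℕ}, (a : ℝ) ≤ b → a ≤ b := fun h => by exact_mod_cast h
  have hnear := hCn i (q := q) (k₀ := k) (d := d) (γ := g₀ (f 0)) Hc hxn (fun l hl hlk => by
      rw [hxω l hl.le, hxν l hl.le, abs_sub_comm]
      exact (hh l hlk).trans (div_le_div_of_nonneg_right (pow_le_pow_right₀ (by norm_num)
        (by omega)) (by positivity)))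
    (fun l hl hlk k' hk' => hcast (by
      rw [c3 k' (by omega)]
      have h1 := (hg k' (by omega) l hl.le).2
      have h2 := (hg 0 (Nat.zero_le n) l hl.le).1
      have h3 := hup1 0 k' (Nat.zero_le k') (by omega) l hlk
      have h4 := (hd1 k' (by omega)).2
      rw [ht0, sub_zero] at h3
      push_cast
      linarith))
    (fun l hl hlk k₁ hk₁ k₂ hk₂ => hcast (by
      rw [c3 k₁ (by omega), c3 k₂ (by omega)]
      have h1 := (hg k₁ (by omega) l hl.le).2
      have h2 := (hg k₂ (by omega) l hl.le).1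
      have h3 := hup1 k₂ k₁ hk₂ (by omega) l hlk
      have h4 := (hd1 k₁ (by omega)).2
      have h5 := (hd1 k₂ (by omega)).1
      push_cast
      linarith))
    (fun l hl hlk => by
      rw [hψn l hl.le, c3 n le_rfl]
      have h1 := (W.ev (f n) (V.fN n le_rfl)).ball.pos ν hν l (by omega)
      exact h1.trans (div_le_div_of_nonneg_right (one_le_pow₀ (by norm_num)) (by positivity)))
    (fun l hl hlk k' hk' => hcast (by
      rw [c3 k' (by omega), c3 n le_rfl]
      have h1 := (hg k' (by omega) l hl.le).2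
      have h2 := (hg n le_rfl l hl.le).1
      have h3 := hlo1 k' n (by omega) le_rfl l hlk hl
      have h4 := (hd1 k' (by omega)).2
      push_cast
      linarith))
    (fun l hl hlk k₂ hk₂ k₁ hk₁ => hcast (by
      rw [c3 k₁ (by omega), c3 k₂ (by omega)]
      have h1 := (hg k₁ (by omega) l hl.le).2
      have h2 := (hg k₂ (by omega) l hl.le).1
      have h3 := hlo1 k₁ k₂ hk₁ (by omega) l hlk hl
      have h4 := (hd1 k₁ (by omega)).2
      have h5 := (hd1 k₂ (by omega)).1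
      push_cast
      linarith))
  obtain ⟨E, hE⟩ : ∃ E : ℕ, E = (C₁ + 1) * (P + 1) := ⟨_, rfl⟩
  have hPE : P ≤ E := by
    rw [hE]
    nlinarith
  have hEY : E ≤ e₁ * Y := by
    rw [hE, hP, he₁, mul_assoc]
    refine Nat.mul_le_mul_left _ ?_
    have : r ≤ r * Y := Nat.le_mul_of_pos_right _ hY1
    nlinarith
  have hnear' : ∀ l < i, ∀ k' < n + 1, |(bt F ν (some (c l)) - eval (bt F ν) (ψ (k' + 1) l)) -
      (bt F ω (some (c l)) - eval (bt F ω) (ψ (k' + 1) l))| ≤
        2 ^ E / 2 ^ (gg (k' + 1) l + d (k' + 1)) := fun l hl k' hk' =>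
    (hnear l hl k' hk').trans (div_le_div_of_nonneg_right (pow_le_pow_right₀ (by norm_num) (by
      rw [hE]
      exact Nat.mul_le_mul_right _ (by omega))) (by positivity))
  -- the vector at the second sample
  have hci : Set.InjOn c (Set.Iio i) := hc.mono fun y hy => by
    rw [Set.mem_Iio] at hy ⊢
    omega
  obtain ⟨V', hV'0, hV'⟩ := vec_adapt hci (T.dep (ptr F J ν)) (bt F ν) 1
    (fun l => vel F c G' ω l) i le_rfl
  have hvω : ∀ l ≤ i, F.d ω (c l) - dd (ψ 0 l) (bt F ω) (bd F ω) = vel F c G' ω l := fun l _ => by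
    rw [c1]
    rfl
  have hvν : ∀ l ≤ i, F.d ν (c l) - dd (ψ 0 l) (bt F ν) (bd F ν) = vel F c G' ν l := fun l hl => by
    rw [hGx l hl]
    rfl
  have hrec := hCv i (q := q) (d := d) (v := v) (V := bd F ω) (V' := V') Hc hxn hPE hnear'
    (by rw [hV'0]; rfl) (fun l hl => by
      have h1 := hV' l hl
      refine Eq.trans ?_ (hvω l hl.le).symm
      rw [hGx l hl.le]
      exact h1)
    (fun k' hk' => by
      rw [c4 k' (by omega)]
      unfold nrm
      have e0 : |bd F ω none| = 1 := abs_one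
      rw [e0, mul_one]
      have h1 : ∀ l ∈ range i, 2 ^ gg (k' + 1) l * |bd F ω (some (c l)) -
          dd (ψ (k' + 1) l) (bt F ω) (bd F ω)| ≤ 2 ^ (⌊o (f k') * J⌋₊ + Y) := by
        intro l hl
        rw [Finset.mem_range] at hl
        have h2 := hnat ω hω k' (by omega) l hl.le
        rw [c2 k' (by omega), c3 k' (by omega)]
        rw [le_div_iff₀ (by positivity), mul_comm] at h2
        exact h2
      have h3 := Finset.sum_le_sum h1
      rw [Finset.sum_const, Finset.card_range, nsmul_eq_mul] at h3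
      have h4 : (i : ℝ) ≤ 2 ^ r := by
        have := Nat.lt_two_pow_self (n := r)
        exact_mod_cast hi.trans this.le
      have h5 : (2 : ℝ) ^ ⌊o (f k') * J⌋₊ ≤ 2 ^ (⌊o (f k') * J⌋₊ + Y + r) :=
        pow_le_pow_right₀ (by norm_num) (by omega)
      have h6 : (i : ℝ) * 2 ^ (⌊o (f k') * J⌋₊ + Y) ≤ 2 ^ (⌊o (f k') * J⌋₊ + Y + r) := by
        rw [pow_add _ _ r, mul_comm]
        exact mul_le_mul_of_nonneg_left h4 (by positivity)
      have h7 : (2 : ℝ) ^ (⌊o (f k') * J⌋₊ + Y + r) + 2 ^ (⌊o (f k') * J⌋₊ + Y + r) ≤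
          2 ^ (⌊o (f k') * J⌋₊ + P) := by
        rw [← two_mul, ← pow_succ']
        exact pow_le_pow_right₀ (by norm_num) (by omega)
      linarith)
    (fun k' hk' => hcast (by
      rw [c4 k' (by omega)]
      have h1 := hoa k' (by omega)
      have h2 := (hd1 k' (by omega)).1
      have h3 := (hv1 k' (by omega)).1
      have h4 : 2 * t k' ≤ S * t k' := mul_le_mul_of_nonneg_right hS2 (htn k' (by omega))
      push_cast
      linarith))
    (fun l hl k₁ hk₁ k₂ hk₂ => hcast (by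
      rw [c3 k₁ (by omega), c3 k₂ (by omega)]
      have h1 := (hg k₁ (by omega) l hl.le).2
      have h2 := (hg k₂ (by omega) l hl.le).1
      have h3 := hup k₂ k₁ hk₂ (by omega) l hl
      have h4 := (hv1 k₁ (by omega)).1
      have h5 := (hv1 k₂ (by omega)).2
      have h6 := htm k₂ k₁ hk₂ (by omega)
      have h7 : s * (t k₁ - t k₂) ≤ S * (t k₁ - t k₂) :=
        mul_le_mul_of_nonneg_right hSs (by linarith)
      push_cast
      linarith))
  -- one target
  obtain ⟨R, hR⟩ : ∃ R : ℕ → ℝ, R = fun l => (dd (ψ 0 l) (bt F ν) V' - dd (ψ (n + 1) l) (bt F ν) V') -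
    (dd (ψ 0 l) (bt F ω) (bd F ω) - dd (ψ (n + 1) l) (bt F ω) (bd F ω)) := ⟨_, rfl⟩
  obtain ⟨nc, hnc⟩ : ∃ nc : ℕ → ℕ → ℝ, nc = fun l j => ncp c l (G' (ptr F J ν))
    (G (f n) (ptr F J ν) l - G' (ptr F J ν) l) (bt F ν) j := ⟨_, rfl⟩
  have hid : ∀ l ≤ i, vel F c G' ω l - vel F c G' ν l = (vel F c (G (f n)) ω l -
      vel F c (G (f n)) ν l) + R l + ∑ j ∈ range l, nc l j *
        (vel F c G' ω j - vel F c G' ν j) := by
    intro l hl
    have h1 := ncp_sum (r := l) (hci.mono fun y hy => by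
      rw [Set.mem_Iio] at hy ⊢
      omega) (T.dep (ptr F J ν)) (Q := G (f n) (ptr F J ν) l - G' (ptr F J ν) l) (fun b b' g1 g2 => by
      rw [map_sub, map_sub, (W.ev (f n) (V.fN n le_rfl)).ball.depG _ l b b' g1 g2,
        T.dep _ l b b' g1 g2]) (x := bt F ν) (V := V' - bd F ν) (by
      rw [Pi.sub_apply, hV'0]
      exact sub_self 1)
    have hds : ∀ R : MvPolynomial (Option (Fin m)) ℝ, dd R (bt F ν) (V' - bd F ν) =
        dd R (bt F ν) V' - dd R (bt F ν) (bd F ν) := by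
      intro R
      unfold dd
      rw [← Finset.sum_sub_distrib]
      exact Finset.sum_congr rfl fun o _ => by rw [Pi.sub_apply]; ring
    have h2 : ∑ j ∈ range l, nc l j * (vel F c G' ω j - vel F c G' ν j) =
        dd (G (f n) (ptr F J ν) l - G' (ptr F J ν) l) (bt F ν) (V' - bd F ν) := by
      rw [h1, hnc]
      refine Finset.sum_congr rfl fun j hj => ?_
      rw [Finset.mem_range] at hj
      congr 1
      rw [hds, Pi.sub_apply, ← hV' j (by omega)]
      show _ = V' (some (c j)) - F.d ν (c j) - _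
      have h3 : vel F c G' ν j = F.d ν (c j) - dd (G' (ptr F J ν) j) (bt F ν) (bd F ν) := rfl
      rw [h3]
      ring
    rw [h2, hds, dd_sub, dd_sub, hR]
    show _ = _ + ((dd (ψ 0 l) (bt F ν) V' - dd (ψ (n + 1) l) (bt F ν) V') -
      (dd (ψ 0 l) (bt F ω) (bd F ω) - dd (ψ (n + 1) l) (bt F ω) (bd F ω))) + _
    have h4 : vel F c (G (f n)) ω l = F.d ω (c l) - dd (ψ (n + 1) l) (bt F ω) (bd F ω) := by
      rw [c2 n le_rfl]
      rfl
    have h5 : vel F c (G (f n)) ν l = F.d ν (c l) - dd (ψ (n + 1) l) (bt F ν) (bd F ν) := by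
      rw [hψn l hl]
      rfl
    rw [h4, h5, ← hvω l hl, ← hvν l hl, ← hGx l hl, ← hψn l hl]
    ring
  -- the gradients
  have hncb : ∀ l, k ≤ l → l ≤ i → ∀ j < l,
      |nc l j| ≤ 2 ^ (Cp * Y) * (2 ^ g₀ (f 0) j / 2 ^ g₀ (f 0) l) := by
    intro l hkl hli j hj
    obtain ⟨qb, hqb⟩ : ∃ qb : ℕ, qb = ⌈s * t n⌉₊ + 2 := ⟨_, rfl⟩
    have hqb1 : s * t n ≤ (qb : ℝ) := by
      rw [hqb]
      push_cast
      linarith [Nat.le_ceil (s * t n)]
    have hst : 0 ≤ s * t n := mul_nonneg (by linarith) (htn n le_rfl)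
    have hY0 : (0 : ℝ) ≤ Y := by linarith
    rcases lt_or_eq_of_le hli with hli' | hli'
    · have h1 := (hpt W (G' := G') (κ' := κ') (f := f) (jj := jj) (n := n) (k := k) (i := i)
        (l := l) (q := qb) (X := 0) (Y := Y) (S := s) (b' := s) T hc hi hkl hli
        (V.fol hkl hli') hY hY3 V.s0 le_rfl (by omega) (by rw [htd, ht0, sub_zero]; linarith)
        (by push_cast; linarith) (by
          rw [htd, ht0, sub_zero]
          push_cast
          nlinarith) ν hν (bt F ν) rfl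
        (fun j' _ => by rw [sub_self, abs_zero]; positivity)).1 j hj
      rw [hnc]
      exact h1
    · subst hli'
      have h1 := (hpt W (G' := G') (κ' := κ') (f := f) (jj := jj) (n := n) (k := k) (i := l)
        (l := l) (q := qb) (X := 0) (Y := Y) (S := s) (b' := σ') T hc hi hkl hli
        V.toWDt hY hY3 V.s0 V.sσ (by omega) (by rw [htd, ht0, sub_zero]; linarith)
        (by push_cast; linarith) (by
          rw [htd, ht0, sub_zero]
          push_cast
          have h2 : s * t n ≤ σ' * t n := mul_le_mul_of_nonneg_right V.sσ (htn n le_rfl)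
          nlinarith) ν hν (bt F ν) rfl
        (fun j' _ => by rw [sub_self, abs_zero]; positivity)).1 j hj
      rw [hnc]
      exact h1
  -- the exponents
  have hKY : Cv i * (E + 1) ≤ e₂ * Y := by
    calc Cv i * (E + 1) ≤ C₂ * ((e₁ + 1) * Y) := Nat.mul_le_mul hCvi (by nlinarith)
      _ ≤ _ := by
          rw [he₂]
          nlinarith
  have h12 : 12 * Y ≤ e₂ * Y := Nat.mul_le_mul_right _ (by omega)
  have hRl : ∀ l ≤ i, ∀ vs : ℕ, (∀ k' < n + 1, v (k' + 1) + g₀ (f 0) l ≤ vs + gg (k' + 1) l + P) →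
      |R l| ≤ 2 ^ (vs + e₂ * Y) / 2 ^ (g₀ (f 0) l + q) := by
    intro l hl vs hvs
    have h1 := hrec l hl (g₀ (f 0) l) vs hvs
    rw [hR]
    refine h1.trans ?_
    rw [pow_add _ vs, mul_comm ((2 : ℝ) ^ vs), mul_div_assoc]
    exact mul_le_mul_of_nonneg_right (pow_le_pow_right₀ (by norm_num) hKY) (by positivity)
  have hRf : ∀ l, k ≤ l → l < i → |R l| ≤ 2 ^ (w + u + e₂ * Y) / 2 ^ (g₀ (f 0) l + q) := by
    intro l hkl hli
    refine hRl l hli.le (w + u) fun k' hk' => hcast ?_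
    rw [c3 k' (by omega)]
    have h1 := (hg 0 (Nat.zero_le n) l hli.le).2
    have h2 := (hg k' (by omega) l hli.le).1
    have h3 := hlo 0 k' (Nat.zero_le k') (by omega) l hkl hli
    rw [ht0, sub_zero] at h3
    have h4 := (hv1 k' (by omega)).2
    have h5 : (S - s) * t k' ≤ (S - s) * t n :=
      mul_le_mul_of_nonneg_left (htm k' n (by omega) le_rfl) (by linarith)
    have h6 := (hmul (S - s) (by linarith) (by linarith)).1
    have h7 : (S - s) * q ≤ u := by rw [hS]; exact hu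
    push_cast
    nlinarith
  have hRi : |R i| ≤ 2 ^ (w + e₂ * Y) / 2 ^ (g₀ (f 0) i + q) := by
    refine hRl i le_rfl w fun k' hk' => hcast ?_
    rw [c3 k' (by omega)]
    have h1 := (hg 0 (Nat.zero_le n) i le_rfl).2
    have h2 := (hg k' (by omega) i le_rfl).1
    have h3 := htg k' (by omega)
    have h4 := (hv1 k' (by omega)).2
    push_cast
    linarith
  -- the velocities over the last charts
  have hNf : ∀ l, k ≤ l → l < i → ∀ ω, B ω → |vel F c (G (f n)) ω l| ≤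
      2 ^ (w + u + e₂ * Y) / 2 ^ (g₀ (f 0) l + q) := by
    intro l hkl hli ω hω
    refine (hnat ω hω n le_rfl l hli.le).trans ?_
    rw [div_le_div_iff₀ (by positivity) (by positivity), ← pow_add, ← pow_add]
    refine pow_le_pow_right₀ (by norm_num) (le_trans (hcast (b := w + u + 12 * Y + g₀ (f n) l) ?_)
      (by omega))
    have h1 := (hg 0 (Nat.zero_le n) l hli.le).2
    have h2 := (hg n le_rfl l hli.le).1
    have h3 := hlo 0 n (Nat.zero_le n) le_rfl l hkl hli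
    rw [ht0, sub_zero] at h3
    have h4 := hoa n le_rfl
    have h5 := (hmul (s - 1) (by linarith) (by linarith)).2
    have h6 : (2 - s) * q ≤ u := by
      refine le_trans (mul_le_mul_of_nonneg_right ?_ (Nat.cast_nonneg q)) hu
      linarith [le_max_left 2 s]
    push_cast
    nlinarith
  have hNi : ∀ ω, B ω → |vel F c (G (f n)) ω i| ≤
      2 ^ (w + e₂ * Y) / 2 ^ (g₀ (f 0) i + q) := by
    intro ω hω
    refine (hnat ω hω n le_rfl i le_rfl).trans ?_
    rw [div_le_div_iff₀ (by positivity) (by positivity), ← pow_add, ← pow_add]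
    refine pow_le_pow_right₀ (by norm_num) (le_trans (hcast (b := w + 12 * Y + g₀ (f n) i) ?_)
      (by omega))
    have h1 := (hg 0 (Nat.zero_le n) i le_rfl).2
    have h2 := (hg n le_rfl i le_rfl).1
    have h3 := htg n le_rfl
    have h4 := hoa n le_rfl
    have h5 : 2 * t n ≤ S * t n := mul_le_mul_of_nonneg_right hS2 (htn n le_rfl)
    push_cast
    linarith
  -- the followers
  have key : ∀ l ≤ i, ∀ j < l, |vel F c G' ω j - vel F c G' ν j| ≤
      2 ^ (w + A ^ l * Y + u) / 2 ^ (g₀ (f 0) j + q) := by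
    intro l
    induction l with
    | zero => exact fun _ j hj => absurd hj (Nat.not_lt_zero j)
    | succ l ih =>
      intro hl j hj
      have hAl2 : A ^ l ≤ A ^ (l + 1) := Nat.pow_le_pow_right hA1 (Nat.le_succ l)
      have hAl1 : 1 ≤ A ^ l := Nat.one_le_pow _ _ hA1
      have hAY : A ^ l * Y ≤ A ^ (l + 1) * Y := Nat.mul_le_mul_right _ hAl2
      have hAY1 : Y ≤ A ^ l * Y := Nat.le_mul_of_pos_left _ (by omega)
      rcases Nat.lt_or_ge j l with hjl | hjl
      · exact (ih (by omega) j hjl).trans (div_le_div_of_nonneg_right (pow_le_pow_right₀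
          (by norm_num) (by omega)) (by positivity))
      have hjl' : j = l := by omega
      subst hjl'
      rcases Nat.lt_or_ge j k with hjk | hjk
      · refine (hv j hjk).trans (div_le_div_of_nonneg_right (pow_le_pow_right₀ (by norm_num) ?_)
          (by positivity))
        rw [← hw]
        omega
      rw [hid j (by omega)]
      have h1 := hNf j hjk (by omega) ω hω
      have h2 := hNf j hjk (by omega) ν hν
      have h3 := hRf j hjk (by omega)
      have h4 : |∑ j' ∈ range j, nc j j' * (vel F c G' ω j' - vel F c G' ν j')| ≤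
          2 ^ (w + u + (r + Cp * Y + A ^ j * Y)) / 2 ^ (g₀ (f 0) j + q) := by
        refine (Finset.abs_sum_le_sum_abs _ _).trans ?_
        calc ∑ j' ∈ range j, |nc j j' * (vel F c G' ω j' - vel F c G' ν j')| ≤
            ∑ _j' ∈ range j, 2 ^ (w + u + (Cp * Y + A ^ j * Y)) / 2 ^ (g₀ (f 0) j + q) := by
              refine Finset.sum_le_sum fun j' hj' => ?_
              rw [Finset.mem_range] at hj'
              rw [abs_mul]
              refine (mul_le_mul (hncb j hjk (by omega) j' hj') (ih (by omega) j' hj')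
                (abs_nonneg _) (by positivity)).trans (le_of_eq ?_)
              have e : w + u + (Cp * Y + A ^ j * Y) = Cp * Y + (w + A ^ j * Y + u) := by ring
              rw [e, pow_add _ (Cp * Y), pow_add _ (g₀ (f 0) j'), pow_add _ (g₀ (f 0) j)]
              field_simp
          _ = j * (2 ^ (w + u + (Cp * Y + A ^ j * Y)) / 2 ^ (g₀ (f 0) j + q)) := by
              rw [Finset.sum_const, Finset.card_range, nsmul_eq_mul]
          _ ≤ 2 ^ r * (2 ^ (w + u + (Cp * Y + A ^ j * Y)) / 2 ^ (g₀ (f 0) j + q)) := by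
              refine mul_le_mul_of_nonneg_right ?_ (by positivity)
              have := Nat.lt_two_pow_self (n := r)
              exact_mod_cast (show j ≤ 2 ^ r by omega)
          _ = _ := by
              have e : w + u + (r + Cp * Y + A ^ j * Y) = r + (w + u + (Cp * Y + A ^ j * Y)) := by
                ring
              rw [e, pow_add _ r, mul_div_assoc]
      refine (abs_add_le _ _).trans ((add_le_add ((abs_add_le _ _).trans (add_le_add
        ((abs_sub _ _).trans (add_le_add h1 h2)) h3)) h4).trans ?_)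
      rw [← add_div, ← add_div, ← add_div]
      refine div_le_div_of_nonneg_right ?_ (by positivity)
      have hex : w + u + (r + e₂ * Y + Cp * Y + A ^ j * Y) + 2 ≤ w + A ^ (j + 1) * Y + u := by
        have f1 : A ^ (j + 1) * Y = A * (A ^ j * Y) := by rw [pow_succ]; ring
        have f2 : (e₂ + Cp + r + 20) * (A ^ j * Y) ≤ A * (A ^ j * Y) :=
          Nat.mul_le_mul_right _ (by omega)
        have f3 : (e₂ + Cp + r + 20) * (A ^ j * Y) = e₂ * (A ^ j * Y) + Cp * (A ^ j * Y) +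
          r * (A ^ j * Y) + 20 * (A ^ j * Y) := by ring
        have f4 : e₂ * Y ≤ e₂ * (A ^ j * Y) := Nat.mul_le_mul_left _ hAY1
        have f5 : Cp * Y ≤ Cp * (A ^ j * Y) := Nat.mul_le_mul_left _ hAY1
        have f6 : r ≤ r * (A ^ j * Y) := Nat.le_mul_of_pos_right _ (by omega)
        omega
      obtain ⟨Z, hZ⟩ : ∃ Z : ℕ, Z = w + u + (r + e₂ * Y + Cp * Y + A ^ j * Y) := ⟨_, rfl⟩
      have g1 : (2 : ℝ) ^ (w + u + e₂ * Y) ≤ 2 ^ Z := pow_le_pow_right₀ (by norm_num) (by omega)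
      have g2 : (2 : ℝ) ^ (w + u + (r + Cp * Y + A ^ j * Y)) ≤ 2 ^ Z :=
        pow_le_pow_right₀ (by norm_num) (by omega)
      have g3 : (2 : ℝ) ^ (Z + 2) ≤ 2 ^ (w + A ^ (j + 1) * Y + u) :=
        pow_le_pow_right₀ (by norm_num) (by omega)
      have g4 : (2 : ℝ) ^ (Z + 2) = 4 * 2 ^ Z := by rw [pow_add]; ring
      linarith
  -- the exponents of the conclusion
  obtain ⟨Ai, hAi⟩ : ∃ Ai : ℕ, Ai = A ^ r := ⟨_, rfl⟩
  have hAi1 : 1 ≤ Ai := by rw [hAi]; exact Nat.one_le_pow _ _ hA1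
  have hAir : ∀ l ≤ r, A ^ l ≤ Ai := fun l hl => by
    rw [hAi]
    exact Nat.pow_le_pow_right hA1 hl
  have hC2 : A ^ (r + 2) = A * A * Ai := by rw [hAi, pow_add]; ring
  have hAA : A * Ai ≤ A * A * Ai := Nat.mul_le_mul_right _ (Nat.le_mul_of_pos_left _ (by omega))
  have hAiA : Ai ≤ A * Ai := Nat.le_mul_of_pos_left _ (by omega)
  rw [hC2, ← hw]
  refine ⟨fun l hl => ?_, fun l hl => ?_, fun mm Z₀ hmm => ?_⟩
  · -- the heights
    rcases Nat.lt_or_ge l k with hlk | hlk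
    · refine (hh l hlk).trans (div_le_div_of_nonneg_right (pow_le_pow_right₀ (by norm_num) ?_)
        (by positivity))
      have h1 : 1 * Y ≤ A * A * Ai * Y := Nat.mul_le_mul_right _ (by omega)
      omega
    · have h1 := hnear' l hl 0 (by omega)
      have h2 : ψ (0 + 1) l = ψ 0 l := by
        rw [c2 0 (Nat.zero_le n), c1, T.eq ω hω l hlk hl.le]
      have h3 : d (0 + 1) = q := by
        have e : d (0 + 1) = q - ⌊t 0⌋₊ := by rw [hd]
        rw [e, ht0, Nat.floor_zero, Nat.sub_zero]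
      rw [h2, hxν l hl.le, hxω l hl.le, c3 0 (Nat.zero_le n), h3, abs_sub_comm] at h1
      refine h1.trans (div_le_div_of_nonneg_right (pow_le_pow_right₀ (by norm_num) ?_)
        (by positivity))
      have h4 : e₁ * 1 ≤ A * Ai := Nat.mul_le_mul (by omega) hAi1
      have h5 : e₁ * Y ≤ A * A * Ai * Y := Nat.mul_le_mul_right _ (by omega)
      omega
  · refine (key i le_rfl l hl).trans (div_le_div_of_nonneg_right (pow_le_pow_right₀
      (by norm_num) ?_) (by positivity))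
    have h1 : A ^ i * Y ≤ A * A * Ai * Y :=
      Nat.mul_le_mul_right _ ((hAir i hi).trans (hAiA.trans hAA))
    omega
  · -- the target
    have h0 := hid i le_rfl
    have hsp : ∑ j ∈ range i, nc i j * (vel F c G' ω j - vel F c G' ν j) =
        ∑ j ∈ range k, nc i j * (vel F c G' ω j - vel F c G' ν j) +
        ∑ j ∈ Finset.Ico k i, nc i j * (vel F c G' ω j - vel F c G' ν j) := by
      rw [Finset.range_eq_Ico, Finset.range_eq_Ico, Finset.sum_Ico_consecutive _ (Nat.zero_le k) hki]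
    have e1 : (vel F c G' ω i - vel F c G' ν i) - ∑ l ∈ Finset.Ico k i,
        2 ^ g₀ (f 0) l / 2 ^ g₀ (f 0) i * mm l * (vel F c G' ω l - vel F c G' ν l) =
        (vel F c (G (f n)) ω i - vel F c (G (f n)) ν i) + R i +
        ∑ j ∈ range k, nc i j * (vel F c G' ω j - vel F c G' ν j) +
        ∑ l ∈ Finset.Ico k i, (nc i l - 2 ^ g₀ (f 0) l / 2 ^ g₀ (f 0) i * mm l) *
          (vel F c G' ω l - vel F c G' ν l) := by
      rw [h0, hsp]
      have e2 : ∑ l ∈ Finset.Ico k i, (nc i l - 2 ^ g₀ (f 0) l / 2 ^ g₀ (f 0) i * mm l) *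
          (vel F c G' ω l - vel F c G' ν l) = ∑ j ∈ Finset.Ico k i, nc i j *
          (vel F c G' ω j - vel F c G' ν j) - ∑ l ∈ Finset.Ico k i,
          2 ^ g₀ (f 0) l / 2 ^ g₀ (f 0) i * mm l * (vel F c G' ω l - vel F c G' ν l) := by
        rw [← Finset.sum_sub_distrib]
        exact Finset.sum_congr rfl fun l _ => by ring
      rw [e2]
      ring
    rw [e1]
    have h1 := hNi ω hω
    have h2 := hNi ν hν
    have h3 : |∑ j ∈ range k, nc i j * (vel F c G' ω j - vel F c G' ν j)| ≤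
        2 ^ (w + (r + Cp * Y + Y)) / 2 ^ (g₀ (f 0) i + q) := by
      refine (Finset.abs_sum_le_sum_abs _ _).trans ?_
      calc ∑ j ∈ range k, |nc i j * (vel F c G' ω j - vel F c G' ν j)| ≤
          ∑ _j ∈ range k, 2 ^ (w + (Cp * Y + Y)) / 2 ^ (g₀ (f 0) i + q) := by
            refine Finset.sum_le_sum fun j hj => ?_
            rw [Finset.mem_range] at hj
            rw [abs_mul]
            have h5 := hv j hj
            rw [← hw] at h5
            refine (mul_le_mul (hncb i hki le_rfl j (by omega)) h5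
              (abs_nonneg _) (by positivity)).trans (le_of_eq ?_)
            have e : w + (Cp * Y + Y) = Cp * Y + (w + Y) := by ring
            rw [e, pow_add _ (Cp * Y), pow_add _ (g₀ (f 0) j), pow_add _ (g₀ (f 0) i)]
            field_simp
        _ = k * (2 ^ (w + (Cp * Y + Y)) / 2 ^ (g₀ (f 0) i + q)) := by
            rw [Finset.sum_const, Finset.card_range, nsmul_eq_mul]
        _ ≤ 2 ^ r * (2 ^ (w + (Cp * Y + Y)) / 2 ^ (g₀ (f 0) i + q)) := by
            refine mul_le_mul_of_nonneg_right ?_ (by positivity)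
            have := Nat.lt_two_pow_self (n := r)
            exact_mod_cast (show k ≤ 2 ^ r by omega)
        _ = _ := by
            have e : w + (r + Cp * Y + Y) = r + (w + (Cp * Y + Y)) := by ring
            rw [e, pow_add _ r, mul_div_assoc]
    have h4 : |∑ l ∈ Finset.Ico k i, (nc i l - 2 ^ g₀ (f 0) l / 2 ^ g₀ (f 0) i * mm l) *
          (vel F c G' ω l - vel F c G' ν l)| ≤
        2 ^ (w + (r + Z₀)) / 2 ^ (g₀ (f 0) i + q) := by
      refine (Finset.abs_sum_le_sum_abs _ _).trans ?_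
      calc ∑ l ∈ Finset.Ico k i, |(nc i l - 2 ^ g₀ (f 0) l / 2 ^ g₀ (f 0) i * mm l) *
          (vel F c G' ω l - vel F c G' ν l)| ≤
          ∑ _j ∈ Finset.Ico k i, 2 ^ (w + Z₀) / 2 ^ (g₀ (f 0) i + q) := by
            refine Finset.sum_le_sum fun l hl => ?_
            rw [Finset.mem_Ico] at hl
            rw [abs_mul]
            have h5 := hmm l hl.1 hl.2
            have h6 : |nc i l - 2 ^ g₀ (f 0) l / 2 ^ g₀ (f 0) i * mm l| =
                2 ^ g₀ (f 0) l / 2 ^ g₀ (f 0) i *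
                  |gnh F c i (g₀ (f 0)) G' (G (f n)) ν l - mm l| := by
              have e : nc i l - 2 ^ g₀ (f 0) l / 2 ^ g₀ (f 0) i * mm l =
                  2 ^ g₀ (f 0) l / 2 ^ g₀ (f 0) i *
                    (gnh F c i (g₀ (f 0)) G' (G (f n)) ν l - mm l) := by
                rw [hnc]
                unfold gnh
                field_simp
              rw [e, abs_mul, abs_of_nonneg (by positivity :
                (0 : ℝ) ≤ 2 ^ g₀ (f 0) l / 2 ^ g₀ (f 0) i)]
            rw [h6, mul_assoc]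
            refine (mul_le_mul_of_nonneg_left h5 (by positivity)).trans (le_of_eq ?_)
            rw [pow_add _ (g₀ (f 0) l), pow_add _ (g₀ (f 0) i)]
            field_simp
        _ = (i - k : ℕ) * (2 ^ (w + Z₀) / 2 ^ (g₀ (f 0) i + q)) := by
            rw [Finset.sum_const, Nat.card_Ico, nsmul_eq_mul]
        _ ≤ 2 ^ r * (2 ^ (w + Z₀) / 2 ^ (g₀ (f 0) i + q)) := by
            refine mul_le_mul_of_nonneg_right ?_ (by positivity)
            have := Nat.lt_two_pow_self (n := r)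
            exact_mod_cast (show i - k ≤ 2 ^ r by omega)
        _ = _ := by
            have e : w + (r + Z₀) = r + (w + Z₀) := by ring
            rw [e, pow_add _ r, mul_div_assoc]
    refine (abs_add_le _ _).trans ((add_le_add ((abs_add_le _ _).trans (add_le_add
      ((abs_add_le _ _).trans (add_le_add ((abs_sub _ _).trans (add_le_add h1 h2)) hRi)) h3))
      h4).trans ?_)
    rw [← add_div, ← add_div, ← add_div, ← add_div]
    refine div_le_div_of_nonneg_right ?_ (by positivity)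
    obtain ⟨Z, hZ⟩ : ∃ Z : ℕ, Z = w + (r + e₂ * Y + Cp * Y + 2 * Y + Ai * Y) + Z₀ := ⟨_, rfl⟩
    have hex : Z + 3 ≤ w + A * A * Ai * Y + Z₀ := by
      have f2 : (e₂ + Cp + r + 20) * (Ai * Y) ≤ A * (Ai * Y) := Nat.mul_le_mul_right _ (by omega)
      have f3 : (e₂ + Cp + r + 20) * (Ai * Y) = e₂ * (Ai * Y) + Cp * (Ai * Y) +
        r * (Ai * Y) + 20 * (Ai * Y) := by ring
      have hAY1 : Y ≤ Ai * Y := Nat.le_mul_of_pos_left _ (by omega)
      have f4 : e₂ * Y ≤ e₂ * (Ai * Y) := Nat.mul_le_mul_left _ hAY1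
      have f5 : Cp * Y ≤ Cp * (Ai * Y) := Nat.mul_le_mul_left _ hAY1
      have f6 : r ≤ r * (Ai * Y) := Nat.le_mul_of_pos_right _ (by omega)
      have f7 : A * (Ai * Y) ≤ A * A * Ai * Y := by
        have := Nat.mul_le_mul_right Y hAA
        calc A * (Ai * Y) = A * Ai * Y := by ring
          _ ≤ _ := this
      omega
    have g1 : (2 : ℝ) ^ (w + e₂ * Y) ≤ 2 ^ Z := pow_le_pow_right₀ (by norm_num) (by omega)
    have g2 : (2 : ℝ) ^ (w + (r + Cp * Y + Y)) ≤ 2 ^ Z :=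
      pow_le_pow_right₀ (by norm_num) (by omega)
    have g3 : (2 : ℝ) ^ (w + (r + Z₀)) ≤ 2 ^ Z :=
      pow_le_pow_right₀ (by norm_num) (by omega)
    have g4 : (2 : ℝ) ^ (Z + 3) ≤ 2 ^ (w + A * A * Ai * Y + Z₀) :=
      pow_le_pow_right₀ (by norm_num) (by omega)
    have g5 : (2 : ℝ) ^ (Z + 3) = 8 * 2 ^ Z := by rw [pow_add]; ring
    have g6 : (0 : ℝ) < 2 ^ Z := by positivity
    linarith

end Pool.EN91
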